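import Pool.Agent.R272.JT.Stm

/-! # Piece ASM of project JT: assembly of the generic estimate -/

set_option autoImplicit false
open Set Filter Topology

namespace Pool.Agent.R272.JT.ASM

lemma brn_ne {b b' : ℕ → Bool} (h : b ≠ b') : ∃ n, ∀ N, n ≤ N → brn b N ≠ brn b' N := by
  obtain ⟨i, hi⟩ := Function.ne_iff.mp h
  refine ⟨i + 1, fun N hN e => hi ?_⟩
  have h1 : (brn b N)[i]? = (brn b' N)[i]? := by rw [e]
  have hiN : i < N := by omega
  simpa [brn, hiN] using h1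

lemma sep (E : Finset (ℕ → Bool)) : ∃ n, ∀ N, n ≤ N → Sep E N := by
  classical
  have h : ∀ p : (ℕ → Bool) × (ℕ → Bool), ∃ n, ∀ N, n ≤ N → brn p.1 N = brn p.2 N → p.1 = p.2 := by
    intro p
    by_cases hp : p.1 = p.2
    · exact ⟨0, fun _ _ _ => hp⟩
    · obtain ⟨n, hn⟩ := brn_ne hp
      exact ⟨n, fun N hN e => absurd e (hn N hN)⟩
  choose n hn using h
  refine ⟨(E ×ˢ E).sup n, fun N hN b hb b' hb' e => ?_⟩
  have h1 : n (b, b') ≤ (E ×ˢ E).sup n :=
    Finset.le_sup (f := n) (Finset.mem_product.mpr ⟨hb, hb'⟩)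
  exact hn (b, b') N (h1.trans hN) e

lemma Sp_eq (N : ℕ) (E : Finset (ℕ → Bool)) : Sp N E = ⋃ b ∈ E, ray b N := by
  ext t
  simp only [Sp, ray, Set.mem_iUnion, Set.mem_ofPred_eq, exists_prop]
  constructor
  · rintro ⟨h1, b, hb, h2⟩
    exact ⟨b, hb, h1, h2⟩
  · rintro ⟨b, hb, h1, h2⟩
    exact ⟨h1, b, hb, h2⟩

lemma decomp (x : Nd → ℝ) (N : ℕ) (E : Finset (ℕ → Bool)) :
    x = (lev 0 N).indicator x + (Sp N E).indicator x + (Om N E).indicator x := by
  classical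
  funext t
  simp only [Pi.add_apply, Set.indicator_apply]
  by_cases h1 : t.length < N
  · have a1 : t ∈ lev 0 N := ⟨Nat.zero_le _, h1⟩
    have a2 : t ∉ Sp N E := fun h => absurd h.1 (not_le.mpr h1)
    have a3 : t ∉ Om N E := fun h => absurd h.1 (not_le.mpr h1)
    rw [if_pos a1, if_neg a2, if_neg a3]; ring
  · have a1 : t ∉ lev 0 N := fun h => h1 h.2
    by_cases h2 : ∃ b ∈ E, t = brn b t.length
    · have a2 : t ∈ Sp N E := ⟨not_lt.mp h1, h2⟩
      have a3 : t ∉ Om N E := fun h => by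
        obtain ⟨b, hb, e⟩ := h2
        exact h.2 b hb e
      rw [if_neg a1, if_pos a2, if_neg a3]; ring
    · have a2 : t ∉ Sp N E := fun h => h2 h.2
      have a3 : t ∈ Om N E := ⟨not_lt.mp h1, fun b hb e => h2 ⟨b, hb, e⟩⟩
      rw [if_neg a1, if_neg a2, if_pos a3]; ring

theorem main (hINC : S_INC) (hPHI : S_PHI) (hSPN : S_SPN) (hCEX : S_CEX) (hLOW : S_LOW) :
    S_ASM := by
  intro k l B f hl hlk hB hG ε hε
  obtain ⟨S, hS⟩ : ∃ S : ℝ, S = ∑ j ∈ Finset.range k, (l j) ^ 2 := ⟨_, rfl⟩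
  have hS0 : 0 ≤ S := by rw [hS]; exact Finset.sum_nonneg fun _ _ => sq_nonneg _
  obtain ⟨s, hs⟩ : ∃ s : ℝ, s = Real.sqrt S := ⟨_, rfl⟩
  have hs0 : 0 ≤ s := by rw [hs]; exact Real.sqrt_nonneg _
  have hss : s ^ 2 = S := by rw [hs]; exact Real.sq_sqrt hS0
  obtain ⟨e', he'⟩ : ∃ e' : ℝ, e' = (ε / 6) ^ 2 := ⟨_, rfl⟩
  have he0 : 0 < e' := by rw [he']; positivity
  obtain ⟨E, N0, hE⟩ := hPHI k l B f hl hB hG e' he0
  choose cf hcf _ using fun b => hCEX b k B f hB
  obtain ⟨η, hη, hsp⟩ := hSPN k B E e' he0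
  obtain ⟨N1, hN1⟩ := hsp l f f cf cf hl hB hB hG hG (fun b _ => hcf b) (fun b _ => hcf b)
    (fun b _ j _ => by rw [sub_self, abs_zero]; exact hη.le)
  obtain ⟨N2, hN2⟩ := sep E
  obtain ⟨N, hN⟩ : ∃ N, N = max N0 (max N1 N2) := ⟨_, rfl⟩
  have hle0 : N0 ≤ N := by rw [hN]; exact le_max_left _ _
  have hle1 : N1 ≤ N := by rw [hN]; exact (le_max_left _ _).trans (le_max_right _ _)
  have hle2 : N2 ≤ N := by rw [hN]; exact (le_max_right _ _).trans (le_max_right _ _)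
  have hsep := hN2 N hle2
  -- the sum in PHI
  have hsum : ∑ j ∈ Finset.range k, (10 * (l j) ^ 2 + 16 * (l (j + 1)) ^ 2) ≤ 26 * S := by
    have h1 : ∑ j ∈ Finset.range k, (l (j + 1)) ^ 2 ≤ S := by
      have h2 := Finset.sum_range_succ' (fun j => (l j) ^ 2) k
      rw [Finset.sum_range_succ, hlk k le_rfl, ← hS] at h2
      have := sq_nonneg (l 0)
      linarith
    rw [Finset.sum_add_distrib, ← Finset.mul_sum, ← Finset.mul_sum, ← hS]
    linarith
  have hOm := hE E (Finset.Subset.refl E) N hle0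
  obtain ⟨m1, m2⟩ := marg k _ hOm
  filter_upwards [m1, m2, hN1 N hle1, hLOW k B f N hB (ε / 2) (by linarith)] with p q1 q2 q3 q4
  obtain ⟨x, hx⟩ : ∃ x, x = f p.1 - f p.2 := ⟨_, rfl⟩
  rw [← hx] at q3 q4 ⊢
  have hxJ : InJ x := by rw [hx]; exact (InJ_sub (hB p.1).1 (hB p.2).1).1
  have hbd : ∀ y : Nd → ℝ, nrm ((Om N E).indicator y) ^ 2 ≤
      ∑ j ∈ Finset.range k, (10 * (l j) ^ 2 + 16 * (l (j + 1)) ^ 2) + e' →
      nrm ((Om N E).indicator y) ≤ 6 * s + ε / 6 := by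
    intro y hy
    refine le_of_sq_le_sq (hy.trans ?_) (by positivity)
    have : (6 * s + ε / 6) ^ 2 = 36 * s ^ 2 + 2 * s * ε + (ε / 6) ^ 2 := by ring
    rw [this, hss, ← he']
    have h3 : 0 ≤ 2 * s * ε := by positivity
    linarith
  have r1 := hbd _ q1
  have r2 := hbd _ q2
  have r3 : nrm ((Om N E).indicator x) ≤ 12 * s + ε / 3 := by
    have e1 : (Om N E).indicator x = (Om N E).indicator (f p.1) - (Om N E).indicator (f p.2) := by
      rw [hx]
      funext t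
      by_cases ht : t ∈ Om N E
      · simp [Set.indicator_of_mem ht]
      · simp [Set.indicator_of_notMem ht]
    rw [e1]
    have h4 := (InJ_sub (ind_le (hB p.1).1 (OrdC_Om N E)).1 (ind_le (hB p.2).1 (OrdC_Om N E)).1).2
    linarith
  have r4 : nrm ((Sp N E).indicator x) ≤ 6 * s + ε / 6 := by
    obtain ⟨c, hc1, hc2⟩ := q3
    have h5 := (hINC x (ℕ → Bool) E (fun b => ray b N) hxJ (fun b _ => OrdC_ray b N)).2
      (by
        intro b hb b' hb' hne s hs t ht hst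
        apply hne
        apply hsep b hb b' hb'
        have e1 := hs.2
        have e2 : s = brn b' s.length := by
          have e3 := ht.2
          rw [e3] at hst
          exact prefix_brn hst
        have e4 : brn b s.length = brn b' s.length := by rw [← e1, ← e2]
        rw [← brn_take b s.length N hs.1, ← brn_take b' s.length N hs.1, e4])
    refine le_of_sq_le_sq ?_ (by positivity)
    rw [Sp_eq, h5.2]
    have h6 : ∑ b ∈ E, nrm ((ray b N).indicator x) ^ 2 ≤ ∑ b ∈ E, c b := by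
      refine Finset.sum_le_sum fun b hb => ?_
      have := hc1 b hb N le_rfl
      have h7 := sq_nonneg (bs b N N x)
      linarith
    have : (6 * s + ε / 6) ^ 2 = 36 * s ^ 2 + 2 * s * ε + (ε / 6) ^ 2 := by ring
    rw [this, hss, ← he']
    rw [← hS] at hc2
    have h3 : 0 ≤ 2 * s * ε := by positivity
    linarith
  have r5 : nrm x ≤ nrm ((lev 0 N).indicator x) + nrm ((Sp N E).indicator x) +
      nrm ((Om N E).indicator x) := by
    have j1 := ind_le hxJ (OrdC_lev 0 N)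
    have j2 := ind_le hxJ (OrdC_Sp N E)
    have j3 := ind_le hxJ (OrdC_Om N E)
    have j4 := InJ_add j1.1 j2.1
    have j5 := InJ_add j4.1 j3.1
    rw [← decomp x N E] at j5
    linarith [j4.2, j5.2]
  rw [← hS, ← hs]
  linarith

end Pool.Agent.R272.JT.ASM
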