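import Pool.Agent.R272.JT.Stm

/-! # Project JT, piece CEX: existence of the iterated limits of the cumulative sums -/

set_option autoImplicit false
open Set Filter Topology

namespace Pool.Agent.R272.JT.CEX

theorem brn_prefix (b : ℕ → Bool) {i j : ℕ} (h : i ≤ j) : brn b i <+: brn b j := by
  rw [← brn_take b j i h]
  exact List.take_prefix _ _

theorem brn_inj (b : ℕ → Bool) : Function.Injective (brn b) := fun i j h => by
  have := congrArg List.length h
  rwa [brn_length, brn_length] at this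

/-- partial sums along a branch are bounded by the norm of the levels. -/
theorem bs_le (b : ℕ → Bool) (N N' : ℕ) {y : Nd → ℝ} (hy : InJ y) :
    |bs b N N' y| ≤ nrm ((lev N N').indicator y) := by
  classical
  set S : Finset Nd := (Finset.Ico N N').image (brn b) with hS
  have hF : Fam {S} := by
    refine ⟨?_, ?_⟩
    · intro S' hS'
      rw [Finset.mem_singleton] at hS'
      subst hS'
      refine ⟨?_, ?_⟩
      · intro s hs t ht
        obtain ⟨i, -, rfl⟩ := Finset.mem_image.1 hs
        obtain ⟨j, -, rfl⟩ := Finset.mem_image.1 ht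
        rcases le_total i j with h | h
        · exact Or.inl (brn_prefix b h)
        · exact Or.inr (brn_prefix b h)
      · intro s hs t ht r h1 h2
        obtain ⟨i, hi, rfl⟩ := Finset.mem_image.1 hs
        obtain ⟨j, hj, rfl⟩ := Finset.mem_image.1 ht
        have e := prefix_brn h2
        have l1 := h1.length_le
        have l2 := h2.length_le
        rw [brn_length] at l1 l2
        rw [Finset.mem_Ico] at hi hj
        rw [hS, Finset.mem_image]
        exact ⟨r.length, Finset.mem_Ico.2 ⟨hi.1.trans l1, l2.trans_lt hj.2⟩, e.symm⟩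
    · intro S1 h1 S2 h2 hne
      rw [Finset.mem_singleton] at h1 h2
      exact absurd (h1.trans h2.symm) hne
  have hv : val {S} ((lev N N').indicator y) = (bs b N N' y) ^ 2 := by
    rw [val, Finset.sum_singleton, hS, Finset.sum_image (fun i _ j _ h => brn_inj b h), bs]
    congr 1
    refine Finset.sum_congr rfl fun i hi => ?_
    rw [Finset.mem_Ico] at hi
    rw [Set.indicator_of_mem]
    exact ⟨by rw [brn_length]; exact hi.1, by rw [brn_length]; exact hi.2⟩
  have h := le_nrm (ind_le hy (OrdC_lev N N')).1 hF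
  rw [hv] at h
  exact abs_le_of_sq_le_sq h (nrm_nonneg _)

/-- limits along an ultrafilter. -/
theorem ulim {I : Type} (W : Ultrafilter I) (u : I → ℝ) (B : ℝ) (hu : ∀ i, |u i| ≤ B) :
    ∃ L : ℝ, |L| ≤ B ∧ ∀ η > 0, ∀ᶠ i in W, |u i - L| ≤ η := by
  have hc : IsCompact (Set.Icc (-B) B) := isCompact_Icc
  have hm : (W.map u : Filter ℝ) ≤ 𝓟 (Set.Icc (-B) B) := by
    rw [le_principal_iff]
    exact Filter.Eventually.of_forall (f := (W : Filter I)) fun i => abs_le.1 (hu i)
  obtain ⟨L, hL, hle⟩ := hc.ultrafilter_le_nhds (W.map u) hm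
  refine ⟨L, abs_le.2 hL, fun η hη => ?_⟩
  have hb : Metric.closedBall L η ∈ (W.map u : Filter ℝ) := hle (Metric.closedBall_mem_nhds L hη)
  filter_upwards [hb] with i hi
  rwa [Set.mem_preimage, Metric.mem_closedBall, Real.dist_eq] at hi

/-- the outer limit. -/
theorem outer (hT : S_TAIL) (b : ℕ → Bool) {I : Type} (W : Ultrafilter I) {B : ℝ}
    {f : I → Nd → ℝ} (hf : Bdd B f) :
    ∃ c0 : ℝ, |c0| ≤ B ∧ ∀ η > 0, ∃ N0, ∀ N ≥ N0, ∀ᶠ n in W, |bs b 0 N (f n) - c0| ≤ η := by
  have hb : ∀ N i, |bs b 0 N (f i)| ≤ B := fun N i =>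
    (bs_le b 0 N (hf i).1).trans ((ind_le (hf i).1 (OrdC_lev 0 N)).2.trans (hf i).2)
  choose a ha hlim using fun N => ulim W (fun i => bs b 0 N (f i)) B (hb N)
  obtain ⟨c0, hc0, hcl⟩ := ulim (hyperfilter ℕ) a B ha
  refine ⟨c0, hc0, fun η hη => ?_⟩
  obtain ⟨N0, hN0⟩ := hT I W B f hf (η / 4) (by positivity)
  refine ⟨N0, fun N hN => ?_⟩
  have hge : ∀ᶠ N1 in (hyperfilter ℕ : Filter ℕ), N ≤ N1 := by
    have : ∀ᶠ N1 in atTop, N ≤ N1 := eventually_ge_atTop N
    rw [← Nat.cofinite_eq_atTop] at this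
    exact hyperfilter_le_cofinite this
  obtain ⟨N1, h1, h2⟩ := ((hcl (η / 4) (by positivity)).and hge).exists
  filter_upwards [hlim N1 (η / 4) (by positivity), hN0 N hN N1] with n h3 h4
  have h5 := (bs_le b N N1 (hf n).1).trans h4
  have h6 : bs b 0 N (f n) + bs b N N1 (f n) = bs b 0 N1 (f n) :=
    Finset.sum_Ico_consecutive _ (Nat.zero_le N) h2
  rw [abs_le] at *
  constructor <;> linarith [h1.1, h1.2, h3.1, h3.2, h5.1, h5.2]

theorem main (hT : S_TAIL) : S_CEX := by
  intro b k
  induction k with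
  | zero =>
    intro B f hf
    obtain ⟨c0, h0, h1⟩ := outer hT b (Uk 0) hf
    refine ⟨fun _ => c0, fun η hη => ?_, fun _ => h0⟩
    obtain ⟨N0, hN0⟩ := h1 η hη
    exact ⟨N0, fun N hN => (Uk_zero _).1 (hN0 N hN)⟩
  | succ k ih =>
    intro B f hf
    obtain ⟨c0, h0, h1⟩ := outer hT b (Uk (k + 1)) hf
    choose c hc hcB using fun a => ih B (fun n => f (a :: n)) (fun n => hf (a :: n))
    choose d hd hdl using fun j => ulim (hyperfilter ℕ) (fun a => c a j) B (fun a => hcB a j)
    refine ⟨fun j => Nat.casesOn j c0 d, ⟨h1, fun η hη => ?_⟩, fun j => ?_⟩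
    · have hall : ∀ᶠ a in (hyperfilter ℕ : Filter ℕ), ∀ j ∈ Finset.range (k + 1),
          |c a j - d j| ≤ η := by
        rw [eventually_all_finset]
        exact fun j _ => hdl j η hη
      filter_upwards [hall] with a ha
      exact ⟨c a, hc a, fun j hj => ha j (Finset.mem_range.2 (Nat.lt_succ_of_le hj))⟩
    · cases j with
      | zero => exact h0
      | succ j => exact hd j

end Pool.Agent.R272.JT.CEX
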