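import Pool.Agent.R272.JT.Stm

/-! # Project JT: piece DK -/

set_option autoImplicit false
open Set Filter Topology

namespace Pool.Agent.R272.JT.DK

theorem brn_prefix (b : ℕ → Bool) {i j : ℕ} (h : i ≤ j) : brn b i <+: brn b j := by
  rw [← brn_take b j i h]; exact List.take_prefix _ _

theorem brn_inj (b : ℕ → Bool) {i j : ℕ} (h : brn b i = brn b j) : i = j := by
  have := congrArg List.length h
  simpa [brn_length] using this

/-- the segment of the branch `b` with levels in `[N,e)`. -/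
def seg (b : ℕ → Bool) (N e : ℕ) : Finset Nd :=
  (Finset.Ico N e).image (brn b)

theorem mem_seg {b : ℕ → Bool} {N e : ℕ} {t : Nd} :
    t ∈ seg b N e ↔ N ≤ t.length ∧ t.length < e ∧ t = brn b t.length := by
  classical
  unfold seg
  simp only [Finset.mem_image, Finset.mem_Ico]
  constructor
  · rintro ⟨i, ⟨h1, h2⟩, rfl⟩
    rw [brn_length]; exact ⟨h1, h2, rfl⟩
  · rintro ⟨h1, h2, h3⟩
    exact ⟨t.length, ⟨h1, h2⟩, h3.symm⟩

theorem sum_seg (b : ℕ → Bool) (N e : ℕ) (x : Nd → ℝ) : ∑ r ∈ seg b N e, x r = bs b N e x := by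
  classical
  unfold seg bs
  rw [Finset.sum_image]
  intro i _ j _ h
  exact brn_inj b h

theorem seg_isSeg (b : ℕ → Bool) (N e : ℕ) : IsSeg (seg b N e) := by
  refine ⟨fun s hs t ht => ?_, fun s hs t ht r h1 h2 => ?_⟩
  · have hs' := (mem_seg.1 hs).2.2
    have ht' := (mem_seg.1 ht).2.2
    rcases le_total s.length t.length with h | h
    · left; rw [hs', ht']; exact brn_prefix b h
    · right; rw [hs', ht']; exact brn_prefix b h
  · have hs' := mem_seg.1 hs
    have ht' := mem_seg.1 ht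
    refine mem_seg.2 ⟨hs'.1.trans h1.length_le, h2.length_le.trans_lt ht'.2.1, ?_⟩
    rw [ht'.2.2] at h2
    exact prefix_brn h2

theorem fam_single {S : Finset Nd} (hS : IsSeg S) : Fam {S} := by
  classical
  refine ⟨fun T hT => ?_, fun T hT T' hT' hne => ?_⟩
  · rw [Finset.mem_singleton.1 hT]; exact hS
  · exact absurd ((Finset.mem_singleton.1 hT).trans (Finset.mem_singleton.1 hT').symm) hne

theorem bs_sq_le {x : Nd → ℝ} (hx : InJ x) {A : Set Nd} (hA : OrdC A) {b : ℕ → Bool} {N e : ℕ}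
    (hsub : ∀ i, N ≤ i → i < e → brn b i ∈ A) :
    (bs b N e x) ^ 2 ≤ nrm (A.indicator x) ^ 2 := by
  have h := le_nrm (ind_le hx hA).1 (fam_single (seg_isSeg b N e))
  simp only [val, Finset.sum_singleton] at h
  rw [sum_seg] at h
  have e1 : bs b N e (A.indicator x) = bs b N e x := by
    unfold bs
    refine Finset.sum_congr rfl fun i hi => ?_
    rw [Finset.mem_Ico] at hi
    rw [Set.indicator_of_mem (hsub i hi.1 hi.2)]
  rwa [e1] at h

theorem bs_add (b : ℕ → Bool) {N M e : ℕ} (h1 : N ≤ M) (h2 : M ≤ e) (x : Nd → ℝ) :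
    bs b N e x = bs b N M x + bs b M e x := by
  unfold bs
  exact (Finset.sum_Ico_consecutive _ h1 h2).symm

/-- levels `< N'` part -/
theorem ray_bound {x : Nd → ℝ} {b : ℕ → Bool} {N N' e : ℕ} {c : ℝ} (hx : InJ x)
    (hNe : N ≤ e) (hK : KLe b N' x c) :
    nrm ((ray b e).indicator x) ^ 2 ≤ 2 * nrm ((ray b N ∩ lev N N').indicator x) ^ 2 + c := by
  classical
  refine (nrm_sq_le fun F hF => ?_).2
  have hA : OrdC (ray b N ∩ lev N N') := OrdC_inter (OrdC_ray b N) (OrdC_lev N N')
  have hFF := Fam_filter hF (OrdC_ray b e)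
  rw [hFF.2 x]
  set G := (F.image (fun S => S.filter (· ∈ ray b e))).filter (·.Nonempty) with hG
  have hGF : Fam G := hFF.1
  have hGs : ∀ S ∈ G, ∀ t ∈ S, e ≤ t.length ∧ t = brn b t.length := by
    intro S hS t ht
    rw [hG] at hS
    obtain ⟨hS1, hSn⟩ := Finset.mem_filter.1 hS
    obtain ⟨S0, hS0, rfl⟩ := Finset.mem_image.1 hS1
    exact (Finset.mem_filter.1 ht).2
  clear_value G
  -- the two parts
  set y := (ray b N ∩ lev N N').indicator x with hy
  set z := (ray b N').indicator x with hz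
  have hyz : ∀ S ∈ G, ∑ r ∈ S, x r = ∑ r ∈ S, y r + ∑ r ∈ S, z r := by
    intro S hS
    rw [← Finset.sum_add_distrib]
    refine Finset.sum_congr rfl fun r hr => ?_
    obtain ⟨h1, h2⟩ := hGs S hS r hr
    by_cases h : r.length < N'
    · have m1 : r ∈ ray b N ∩ lev N N' := ⟨⟨hNe.trans h1, h2⟩, hNe.trans h1, h⟩
      have m2 : r ∉ ray b N' := fun h' => absurd h'.1 (not_le.2 h)
      rw [hy, hz, Set.indicator_of_mem m1, Set.indicator_of_notMem m2, add_zero]
    · have m1 : r ∉ ray b N ∩ lev N N' := fun h' => h h'.2.2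
      have m2 : r ∈ ray b N' := ⟨not_lt.1 h, h2⟩
      rw [hy, hz, Set.indicator_of_notMem m1, Set.indicator_of_mem m2, zero_add]
  have hyle : ∑ S ∈ G, (∑ r ∈ S, y r) ^ 2 ≤ nrm y ^ 2 := le_nrm (ind_le hx hA).1 hGF
  -- convexity inside the branch
  have hconv : ∀ S ∈ G, ∀ s ∈ S, ∀ t ∈ S, ∀ i, s.length ≤ i → i ≤ t.length → brn b i ∈ S := by
    intro S hS s hs t ht i h1 h2
    refine (hGF.1 S hS).2 s hs t ht _ ?_ ?_
    · rw [(hGs S hS s hs).2]; exact brn_prefix b h1
    · rw [(hGs S hS t ht).2]; exact brn_prefix b h2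
  by_cases hcr : ∃ S ∈ G, (∃ s ∈ S, s.length < N') ∧ ∃ t ∈ S, N' ≤ t.length
  · obtain ⟨S0, hS0, ⟨s0, hs0, hs0l⟩, t0, ht0, ht0l⟩ := hcr
    -- the last node
    obtain ⟨q, hq, hqmax⟩ := Finset.exists_max_image S0 (fun t => t.length) ⟨s0, hs0⟩
    have hqN : N' ≤ q.length := ht0l.trans (hqmax t0 ht0)
    set e' := q.length + 1 with he'
    have hN'e' : N' ≤ e' := by omega
    have hKe := hK e' hN'e'
    -- sum over S0
    have hS0z : ∑ r ∈ S0, z r = bs b N' e' x := by
      rw [← sum_seg, hz]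
      have : ∑ r ∈ S0, (ray b N').indicator x r = ∑ r ∈ S0.filter (· ∈ ray b N'), x r := by
        rw [Finset.sum_filter]
        refine Finset.sum_congr rfl fun r _ => ?_
        simp [Set.indicator_apply]
      rw [this]
      refine Finset.sum_congr ?_ fun _ _ => rfl
      ext t
      rw [Finset.mem_filter, mem_seg]
      constructor
      · rintro ⟨h1, h2⟩
        exact ⟨h2.1, by have := hqmax t h1; omega, h2.2⟩
      · rintro ⟨h1, h2, h3⟩
        refine ⟨?_, h1, h3⟩
        rw [h3]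
        exact hconv S0 hS0 s0 hs0 q hq t.length (by omega) (by omega)
    -- the other ones
    have hoth : ∀ S ∈ G, S ≠ S0 → ((∀ t ∈ S, t.length < N') ∨ ∀ t ∈ S, e' ≤ t.length) := by
      intro S hS hne
      by_contra hcon
      push Not at hcon
      obtain ⟨⟨t, ht, htl⟩, t', ht', htl'⟩ := hcon
      have hdis := hGF.2 S hS S0 hS0 hne
      rw [Finset.disjoint_left] at hdis
      have htin : ∀ i, s0.length ≤ i → i ≤ q.length → brn b i ∈ S0 := fun i h1 h2 =>
        hconv S0 hS0 s0 hs0 q hq i h1 h2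
      -- t has level ≥ e'
      have h1 : e' ≤ t.length := by
        by_contra hlt
        refine hdis ht ?_
        rw [(hGs S hS t ht).2]
        exact htin t.length (by omega) (by omega)
      -- brn b q.length ∈ S
      by_cases h2 : t'.length ≤ q.length
      · have := hconv S hS t' ht' t ht q.length h2 (by omega)
        exact hdis this (htin q.length (by omega) le_rfl)
      · omega
    have hSz : ∀ S ∈ G, S ≠ S0 → ∑ r ∈ S, z r = ∑ r ∈ S, (ray b e').indicator x r := by
      intro S hS hne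
      refine Finset.sum_congr rfl fun r hr => ?_
      have hr2 := hGs S hS r hr
      rcases hoth S hS hne with h | h
      · have := h r hr
        have m1 : r ∉ ray b N' := fun h' => absurd h'.1 (not_le.2 this)
        have m2 : r ∉ ray b e' := fun h' => absurd h'.1 (by omega)
        rw [hz, Set.indicator_of_notMem m1, Set.indicator_of_notMem m2]
      · have := h r hr
        have m1 : r ∈ ray b N' := ⟨by omega, hr2.2⟩
        have m2 : r ∈ ray b e' := ⟨this, hr2.2⟩
        rw [hz, Set.indicator_of_mem m1, Set.indicator_of_mem m2]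
    have hS0e : ∀ S ∈ G, S ≠ S0 → (∑ r ∈ S, x r) ^ 2
        ≤ 2 * (∑ r ∈ S, y r) ^ 2 + (∑ r ∈ S, (ray b e').indicator x r) ^ 2 := by
      intro S hS hne
      rw [hyz S hS, ← hSz S hS hne]
      rcases hoth S hS hne with h | h
      · have : ∑ r ∈ S, z r = 0 := by
          refine Finset.sum_eq_zero fun r hr => ?_
          have m1 : r ∉ ray b N' := fun h' => absurd h'.1 (not_le.2 (h r hr))
          rw [hz, Set.indicator_of_notMem m1]
        rw [this]; nlinarith [sq_nonneg (∑ r ∈ S, y r)]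
      · have : ∑ r ∈ S, y r = 0 := by
          refine Finset.sum_eq_zero fun r hr => ?_
          have m1 : r ∉ ray b N ∩ lev N N' := fun h' => by
            have := h r hr; have := h'.2.2; omega
          rw [hy, Set.indicator_of_notMem m1]
        rw [this]; nlinarith [sq_nonneg (∑ r ∈ S, z r)]
    have hfin : ∑ S ∈ G.erase S0, (∑ r ∈ S, (ray b e').indicator x r) ^ 2
        ≤ nrm ((ray b e').indicator x) ^ 2 := by
      refine le_nrm (ind_le hx (OrdC_ray b e')).1 (F := G.erase S0) ⟨?_, ?_⟩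
      · exact fun S hS => hGF.1 S (Finset.mem_of_mem_erase hS)
      · exact fun S hS S' hS' => hGF.2 S (Finset.mem_of_mem_erase hS) S' (Finset.mem_of_mem_erase hS')
    unfold val
    rw [← Finset.add_sum_erase _ _ hS0] at hyle ⊢
    have hrest : ∑ S ∈ G.erase S0, (∑ r ∈ S, x r) ^ 2 ≤
        2 * ∑ S ∈ G.erase S0, (∑ r ∈ S, y r) ^ 2
          + ∑ S ∈ G.erase S0, (∑ r ∈ S, (ray b e').indicator x r) ^ 2 := by
      rw [Finset.mul_sum, ← Finset.sum_add_distrib]
      exact Finset.sum_le_sum fun S hS =>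
        hS0e S (Finset.mem_of_mem_erase hS) (Finset.ne_of_mem_erase hS)
    have h0 : (∑ r ∈ S0, x r) ^ 2 ≤ 2 * (∑ r ∈ S0, y r) ^ 2 + 2 * (bs b N' e' x) ^ 2 := by
      rw [hyz S0 hS0, hS0z]
      nlinarith [sq_nonneg (∑ r ∈ S0, y r - bs b N' e' x)]
    linarith
  · push Not at hcr
    have hKe := hK N' le_rfl
    have hb0 : bs b N' N' x = 0 := by simp [bs]
    rw [hb0] at hKe
    have hfin : ∑ S ∈ G, (∑ r ∈ S, z r) ^ 2 ≤ nrm z ^ 2 :=
      le_nrm (ind_le hx (OrdC_ray b N')).1 hGF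
    have hS0e : ∀ S ∈ G, (∑ r ∈ S, x r) ^ 2
        ≤ 2 * (∑ r ∈ S, y r) ^ 2 + (∑ r ∈ S, z r) ^ 2 := by
      intro S hS
      rw [hyz S hS]
      by_cases h : ∃ s ∈ S, s.length < N'
      · have : ∑ r ∈ S, z r = 0 := by
          refine Finset.sum_eq_zero fun r hr => ?_
          have m1 : r ∉ ray b N' := fun h' => absurd h'.1 (not_le.2 (hcr S hS h r hr))
          rw [hz, Set.indicator_of_notMem m1]
        rw [this]; nlinarith [sq_nonneg (∑ r ∈ S, y r)]
      · have : ∑ r ∈ S, y r = 0 := by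
          refine Finset.sum_eq_zero fun r hr => ?_
          have m1 : r ∉ ray b N ∩ lev N N' := fun h' => h ⟨r, hr, h'.2.2⟩
          rw [hy, Set.indicator_of_notMem m1]
        rw [this]; nlinarith [sq_nonneg (∑ r ∈ S, z r)]
    unfold val
    have hsum : ∑ S ∈ G, (∑ r ∈ S, x r) ^ 2 ≤
        2 * ∑ S ∈ G, (∑ r ∈ S, y r) ^ 2 + ∑ S ∈ G, (∑ r ∈ S, z r) ^ 2 := by
      rw [Finset.mul_sum, ← Finset.sum_add_distrib]
      exact Finset.sum_le_sum hS0e
    rw [hz] at hfin hsum
    linarith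

theorem main : S_DK := by
  intro x b N N' c B hx hB hNN' hK e he
  have hA : OrdC (ray b N ∩ lev N N') := OrdC_inter (OrdC_ray b N) (OrdC_lev N N')
  have hB0 : 0 ≤ B := (nrm_nonneg x).trans hB
  have hs0 : 0 ≤ |bs b N N' x| := abs_nonneg _
  rcases le_total e N' with h | h
  · have h1 := ray_bound hx he hK
    have h2 : (bs b N e x) ^ 2 ≤ nrm ((ray b N ∩ lev N N').indicator x) ^ 2 := by
      refine bs_sq_le hx hA fun i h1 h2 => ?_
      refine ⟨⟨?_, ?_⟩, ?_, ?_⟩
      · rw [brn_length]; exact h1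
      · rw [brn_length]
      · rw [brn_length]; exact h1
      · rw [brn_length]; omega
    have h3 : 0 ≤ 4 * |bs b N N' x| * B := by positivity
    nlinarith [sq_nonneg (bs b N N' x)]
  · have h1 := hK e h
    rw [bs_add b hNN' h x]
    have h2 : (bs b N' e x) ^ 2 ≤ nrm (Set.univ.indicator x) ^ 2 :=
      bs_sq_le hx (fun _ _ _ _ _ _ _ => Set.mem_univ _) fun i _ _ => Set.mem_univ _
    rw [Set.indicator_univ] at h2
    have h3 : |bs b N' e x| ≤ B := (abs_le_of_sq_le_sq h2 (nrm_nonneg x)).trans hB |> fun h => h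
    have h4 : bs b N N' x * bs b N' e x ≤ |bs b N N' x| * B := by
      calc bs b N N' x * bs b N' e x ≤ |bs b N N' x * bs b N' e x| := le_abs_self _
        _ = |bs b N N' x| * |bs b N' e x| := abs_mul _ _
        _ ≤ |bs b N N' x| * B := mul_le_mul_of_nonneg_left h3 hs0
    nlinarith [sq_nonneg (nrm ((ray b N ∩ lev N N').indicator x))]

end Pool.Agent.R272.JT.DK
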