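import Pool.Agent.R272.JT.Stm

/-! Piece DPHI of project JT (helper272, MP_a1676c_an), by helper510. -/

set_option autoImplicit false
open Set Filter Topology

namespace Pool.Agent.R272.JT.DPHI

open Pool.Agent.R272.JT

theorem cmpl {s t : Nd} (h : s <+: t ∨ t <+: s) (hl : s.length ≤ t.length) : s <+: t := by
  rcases h with h | h
  · exact h
  · have := h.eq_of_length (le_antisymm h.length_le hl)
    rw [this]

theorem seg_sum {S : Finset Nd} (hS : IsSeg S) {u : Nd} (hu : u ∈ S) (x : Nd → ℝ) :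
    ∃ t, ∑ r ∈ S.filter (fun r => u.length ≤ r.length), x r = ssum u t x := by
  obtain ⟨t, ht, hmax⟩ := Finset.exists_max_image S List.length ⟨u, hu⟩
  have hut : u <+: t := cmpl (hS.1 u hu t ht) (hmax u hu)
  refine ⟨t, ?_⟩
  rw [ssum, if_pos hut]
  refine Finset.sum_nbij' (fun r => r.length) (fun i => t.take i) ?_ ?_ ?_ ?_ ?_
  · intro r hr
    obtain ⟨hr1, hr2⟩ := Finset.mem_filter.1 hr
    exact Finset.mem_Icc.2 ⟨hr2, hmax r hr1⟩
  · intro i hi
    obtain ⟨hi1, hi2⟩ := Finset.mem_Icc.1 hi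
    have hlen : (t.take i).length = i := by rw [List.length_take]; omega
    refine Finset.mem_filter.2 ⟨?_, by rw [hlen]; exact hi1⟩
    refine hS.2 u hu t ht _ ?_ (List.take_prefix _ _)
    rw [List.prefix_take_iff]
    exact ⟨hut, hi1⟩
  · intro r hr
    obtain ⟨hr1, hr2⟩ := Finset.mem_filter.1 hr
    have : r <+: t := cmpl (hS.1 r hr1 t ht) (hmax r hr1)
    exact (List.prefix_iff_eq_take.1 this).symm
  · intro i hi
    obtain ⟨hi1, hi2⟩ := Finset.mem_Icc.1 hi
    simp only [List.length_take]; omega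
  · intro r hr
    obtain ⟨hr1, hr2⟩ := Finset.mem_filter.1 hr
    have : r <+: t := cmpl (hS.1 r hr1 t ht) (hmax r hr1)
    rw [← List.prefix_iff_eq_take.1 this]

open Classical in
theorem sum_ind {S : Finset Nd} {A : Set Nd} (x : Nd → ℝ) (h : ∀ r ∈ S, r ∈ A) :
    ∑ r ∈ S, x r = ∑ r ∈ S, A.indicator x r :=
  Finset.sum_congr rfl fun r hr => (Set.indicator_of_mem (h r hr) x).symm

theorem sum_split (S : Finset Nd) (N1 : ℕ) (x : Nd → ℝ) :
    ∑ r ∈ S, x r = ∑ r ∈ S.filter (fun r => r.length < N1), x r +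
      ∑ r ∈ S.filter (fun r => N1 ≤ r.length), x r := by
  rw [← Finset.sum_filter_add_sum_filter_not S (fun r => r.length < N1) x]
  simp only [not_lt]

open Classical in
theorem sum_filter_ind {S : Finset Nd} {A : Set Nd} (x : Nd → ℝ) (p : Nd → Prop) [DecidablePred p]
    (h : ∀ r ∈ S, p r → r ∈ A) (h' : ∀ r ∈ S, ¬ p r → r ∉ A) :
    ∑ r ∈ S.filter p, x r = ∑ r ∈ S, A.indicator x r := by
  rw [Finset.sum_filter]
  refine Finset.sum_congr rfl fun r hr => ?_
  by_cases hp : p r
  · rw [if_pos hp, Set.indicator_of_mem (h r hr hp)]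
  · rw [if_neg hp, Set.indicator_of_notMem (h' r hr hp)]

/-- the two alternatives for a segment off `E` -/
theorem alt {N N1 : ℕ} {E E1 : Finset (ℕ → Bool)} (x : Nd → ℝ) {S : Finset Nd}
    (hS : IsSeg S) (hne : S.Nonempty) (hsub : ∀ r ∈ S, r ∈ Om N E) :
    ((∑ r ∈ S, x r) ^ 2 ≤ 2 * (∑ r ∈ S, (lev N N1).indicator x r) ^ 2 +
        3 * (∑ r ∈ S, (Abv N1 E E1).indicator x r) ^ 2 +
        (∑ r ∈ S, (Om N1 E1).indicator x r) ^ 2) ∨
    ∃ u t, u ∈ S ∧ u.length = N1 ∧ (∀ b ∈ E1, u ≠ brn b N1) ∧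
      (∑ r ∈ S, x r) ^ 2 ≤ 2 * (∑ r ∈ S, (lev N N1).indicator x r) ^ 2 +
        2 * (ssum u t x) ^ 2 := by
  set L := ∑ r ∈ S, (lev N N1).indicator x r with hL
  set A := ∑ r ∈ S, (Abv N1 E E1).indicator x r with hA
  set O := ∑ r ∈ S, (Om N1 E1).indicator x r with hO
  by_cases hlow : ∃ s ∈ S, s.length < N1
  · obtain ⟨s, hs, hsN⟩ := hlow
    have hLow : ∑ r ∈ S.filter (fun r => r.length < N1), x r = L := by
      refine sum_filter_ind x _ (fun r hr hp => ⟨(hsub r hr).1, hp⟩) (fun r _ hp h => hp h.2)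
    by_cases hr : ∃ r ∈ S, N1 ≤ r.length
    · obtain ⟨r, hr, hrN⟩ := hr
      have hsr : s <+: r := cmpl (hS.1 s hs r hr) (by omega)
      have hul : (r.take N1).length = N1 := by rw [List.length_take]; omega
      have huS : r.take N1 ∈ S := by
        refine hS.2 s hs r hr _ ?_ (List.take_prefix _ _)
        rw [List.prefix_take_iff]
        exact ⟨hsr, hsN.le⟩
      set u := r.take N1 with hu
      obtain ⟨t, ht⟩ := seg_sum hS huS x
      rw [hul] at ht
      have hspl := sum_split S N1 x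
      by_cases hb : ∃ b ∈ E1, u = brn b N1
      · left
        obtain ⟨b, hb, hub⟩ := hb
        have hbE : b ∉ E := by
          intro hbE
          have := (hsub u huS).2 b hbE
          rw [hul] at this
          exact this hub
        have hHigh : ∑ r ∈ S.filter (fun r => N1 ≤ r.length), x r = A := by
          refine sum_filter_ind x _ (fun r' hr' hp => ?_) (fun r' _ hp h => ?_)
          · refine ⟨b, hb, hbE, ?_⟩
            rw [← hub]
            exact cmpl (hS.1 u huS r' hr') (by rw [hul]; exact hp)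
          · obtain ⟨b', _, _, h'⟩ := h
            have := h'.length_le
            rw [brn_length] at this
            exact hp this
        rw [hspl, hLow, hHigh]
        nlinarith [sq_nonneg (L - A), sq_nonneg A, sq_nonneg O]
      · right
        push Not at hb
        refine ⟨u, t, huS, hul, hb, ?_⟩
        rw [hspl, hLow, ht]
        nlinarith [sq_nonneg (L - ssum u t x)]
    · left
      push Not at hr
      have : ∑ r ∈ S, x r = L := by
        rw [← hLow]
        congr 1
        exact (Finset.filter_true_of_mem fun r h => hr r h).symm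
      rw [this]
      nlinarith [sq_nonneg L, sq_nonneg A, sq_nonneg O]
  · left
    push Not at hlow
    obtain ⟨r0, hr0⟩ := hne
    have hul : (r0.take N1).length = N1 := by
      have := hlow r0 hr0
      rw [List.length_take]; omega
    set u := r0.take N1 with hu
    have hup : ∀ r ∈ S, u <+: r := by
      intro r hr
      rcases hS.1 r hr r0 hr0 with h | h
      · have h1 := List.prefix_iff_eq_take.1 h
        rw [h1, List.prefix_take_iff]
        exact ⟨List.take_prefix _ _, by rw [hul]; exact hlow r hr⟩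
      · exact (List.take_prefix _ _).trans h
    by_cases hb : ∃ b ∈ E1, b ∉ E ∧ u = brn b N1
    · obtain ⟨b, hb, hbE, hub⟩ := hb
      have : ∑ r ∈ S, x r = A := sum_ind x fun r hr => ⟨b, hb, hbE, by rw [← hub]; exact hup r hr⟩
      rw [this]
      nlinarith [sq_nonneg L, sq_nonneg A, sq_nonneg O]
    · have : ∑ r ∈ S, x r = O := by
        refine sum_ind x fun r hr => ⟨hlow r hr, fun b hbE1 hrb => ?_⟩
        by_cases hbE : b ∈ E
        · exact (hsub r hr).2 b hbE hrb
        · refine hb ⟨b, hbE1, hbE, ?_⟩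
          have h1 := hup r hr
          rw [hrb] at h1
          have h2 := prefix_brn h1
          rw [hul] at h2
          exact h2
      rw [this]
      nlinarith [sq_nonneg L, sq_nonneg A, sq_nonneg O]

theorem main : S_DPHI := by
  classical
  intro x N N1 E E1 c hx hN hE hPsi
  refine (nrm_sq_le fun F hF => ?_).2
  rw [(Fam_filter hF (OrdC_Om N E)).2 x]
  have hFam := (Fam_filter hF (OrdC_Om N E)).1
  have hsub : ∀ S ∈ (F.image (fun S => S.filter (· ∈ Om N E))).filter (·.Nonempty),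
      S.Nonempty ∧ ∀ r ∈ S, r ∈ Om N E := by
    intro S hS
    obtain ⟨hS1, hSn⟩ := Finset.mem_filter.1 hS
    obtain ⟨S0, _, rfl⟩ := Finset.mem_image.1 hS1
    exact ⟨hSn, fun r hr => (Finset.mem_filter.1 hr).2⟩
  generalize (F.image (fun S => S.filter (· ∈ Om N E))).filter (·.Nonempty) = G at hFam hsub ⊢
  have hlev := ind_le hx (OrdC_lev N N1)
  have habv := ind_le hx (OrdC_Abv N1 E E1)
  have hom := ind_le hx (OrdC_Om N1 E1)
  have hL := le_nrm hlev.1 hFam
  have hA := le_nrm habv.1 hFam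
  have hO := le_nrm hom.1 hFam
  set Q : Finset Nd → ℝ := fun S => 2 * (∑ r ∈ S, (lev N N1).indicator x r) ^ 2 +
        3 * (∑ r ∈ S, (Abv N1 E E1).indicator x r) ^ 2 +
        (∑ r ∈ S, (Om N1 E1).indicator x r) ^ 2 with hQ
  set G5 := G.filter (fun S => ¬ (∑ r ∈ S, x r) ^ 2 ≤ Q S) with hG5
  have hch : ∀ S ∈ G5, ∃ u t, u ∈ S ∧ u.length = N1 ∧ (∀ b ∈ E1, u ≠ brn b N1) ∧
      (∑ r ∈ S, x r) ^ 2 ≤ 2 * (∑ r ∈ S, (lev N N1).indicator x r) ^ 2 +
        2 * (ssum u t x) ^ 2 := by
    intro S hS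
    obtain ⟨hS1, hS2⟩ := Finset.mem_filter.1 hS
    rcases alt (N := N) (N1 := N1) (E := E) (E1 := E1) x (hFam.1 S hS1) (hsub S hS1).1
      (hsub S hS1).2 with h | h
    · exact absurd h hS2
    · exact h
  choose! uu tt h1 h2 h3 h4 using hch
  have hinj : Set.InjOn uu (G5 : Set (Finset Nd)) := by
    intro S hS S' hS' h
    by_contra hne
    have hS0 := (Finset.mem_filter.1 (Finset.mem_coe.1 hS)).1
    have hS0' := (Finset.mem_filter.1 (Finset.mem_coe.1 hS')).1
    have a1 := h1 S (Finset.mem_coe.1 hS)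
    have a2 := h1 S' (Finset.mem_coe.1 hS')
    rw [← h] at a2
    exact Finset.disjoint_left.1 (hFam.2 S hS0 S' hS0' hne) a1 a2
  have hpsi : ∑ S ∈ G5, (ssum (uu S) (tt S) x) ^ 2 ≤ c := by
    have := hPsi (fun v => tt (Function.invFunOn uu (G5 : Set (Finset Nd)) v)) (G5.image uu) (by
      intro v hv
      obtain ⟨S, hS, rfl⟩ := Finset.mem_image.1 hv
      exact ⟨h2 S hS, h3 S hS⟩)
    rw [Finset.sum_image hinj] at this
    refine le_trans (le_of_eq (Finset.sum_congr rfl fun S hS => ?_)) this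
    rw [hinj.leftInvOn_invFunOn (Finset.mem_coe.2 hS)]
  have hsum : val G x ≤ ∑ S ∈ G, (Q S + if S ∈ G5 then 2 * (ssum (uu S) (tt S) x) ^ 2 else 0) := by
    refine Finset.sum_le_sum fun S hS => ?_
    by_cases h5 : S ∈ G5
    · rw [if_pos h5]
      have := h4 S h5
      simp only [hQ]
      nlinarith [sq_nonneg (∑ r ∈ S, (Abv N1 E E1).indicator x r),
        sq_nonneg (∑ r ∈ S, (Om N1 E1).indicator x r)]
    · rw [if_neg h5, add_zero]
      by_contra hcon
      exact h5 (Finset.mem_filter.2 ⟨hS, hcon⟩)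
  rw [Finset.sum_add_distrib, ← Finset.sum_filter] at hsum
  have e1 : G.filter (fun S => S ∈ G5) = G5 := by
    ext S
    simp only [Finset.mem_filter, hG5]
    tauto
  rw [e1, ← Finset.mul_sum] at hsum
  have e2 : ∑ S ∈ G, Q S = 2 * val G ((lev N N1).indicator x) +
      3 * val G ((Abv N1 E E1).indicator x) + val G ((Om N1 E1).indicator x) := by
    simp only [hQ, val, Finset.sum_add_distrib, Finset.mul_sum]
  rw [e2] at hsum
  linarith

end Pool.Agent.R272.JT.DPHI
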