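import Pool.Agent.R272.JT.Stm

set_option autoImplicit false

namespace Pool.Agent.R272.JT.DPSI

open Pool.Agent.R272.JT

lemma fam_le {x : Nd → ℝ} {A : Set Nd} (hA : InJ (A.indicator x)) {V : Finset Nd}
    {S : Nd → Finset Nd} (hseg : ∀ v ∈ V, IsSeg (S v))
    (hdis : ∀ v ∈ V, ∀ v' ∈ V, v ≠ v' → Disjoint (S v) (S v'))
    (hsub : ∀ v ∈ V, ∀ r ∈ S v, r ∈ A) :
    ∑ v ∈ V, (∑ r ∈ S v, x r) ^ 2 ≤ nrm (A.indicator x) ^ 2 := by
  classical
  set V' := V.filter (fun v => (S v).Nonempty) with hV'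
  have hinj : Set.InjOn S (V' : Set Nd) := by
    intro v hv v' hv' h
    by_contra hne
    obtain ⟨h1, h2⟩ := Finset.mem_filter.1 (Finset.mem_coe.1 hv)
    obtain ⟨h1', _⟩ := Finset.mem_filter.1 (Finset.mem_coe.1 hv')
    have hd := hdis v h1 v' h1' hne
    rw [← h, disjoint_self] at hd
    exact h2.ne_empty hd
  have hF : Fam (V'.image S) := by
    constructor
    · intro T hT
      obtain ⟨v, hv, rfl⟩ := Finset.mem_image.1 hT
      exact hseg v (Finset.mem_filter.1 hv).1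
    · intro T hT T' hT' hne
      obtain ⟨v, hv, rfl⟩ := Finset.mem_image.1 hT
      obtain ⟨v', hv', rfl⟩ := Finset.mem_image.1 hT'
      exact hdis v (Finset.mem_filter.1 hv).1 v' (Finset.mem_filter.1 hv').1
        (fun h => hne (by rw [h]))
  have h1 := le_nrm hA hF
  unfold val at h1
  rw [Finset.sum_image hinj] at h1
  refine le_trans (le_of_eq ?_) h1
  have h2 : ∑ v ∈ V, (∑ r ∈ S v, x r) ^ 2 = ∑ v ∈ V', (∑ r ∈ S v, x r) ^ 2 := by
    rw [hV']
    symm
    apply Finset.sum_filter_of_ne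
    intro v _ hne
    by_contra hcon
    rw [Finset.not_nonempty_iff_eq_empty] at hcon
    apply hne
    rw [hcon]
    simp
  rw [h2]
  refine Finset.sum_congr rfl fun v hv => ?_
  congr 1
  refine Finset.sum_congr rfl fun r hr => ?_
  rw [Set.indicator_of_mem (hsub v (Finset.mem_filter.1 hv).1 r hr)]

lemma take_len (t : Nd) {i : ℕ} (h : i ≤ t.length) : (t.take i).length = i := by
  rw [List.length_take, Nat.min_eq_left h]

lemma take_pre (t : Nd) {i j : ℕ} (h : i ≤ j) : t.take i <+: t.take j := by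
  have : t.take i = (t.take j).take i := by rw [List.take_take, Nat.min_eq_left h]
  rw [this]
  exact List.take_prefix _ _

lemma take_inj (t : Nd) {I : Finset ℕ} (hI : ∀ i ∈ I, i ≤ t.length) :
    Set.InjOn (fun i => t.take i) (I : Set ℕ) := by
  intro i hi j hj h
  have h1 := congrArg List.length h
  simp only at h1
  rwa [take_len t (hI i (Finset.mem_coe.1 hi)), take_len t (hI j (Finset.mem_coe.1 hj))] at h1

lemma seg_isSeg (t : Nd) {I : Finset ℕ} (hI : ∀ i ∈ I, i ≤ t.length)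
    (hc : ∀ i ∈ I, ∀ j ∈ I, ∀ m, i ≤ m → m ≤ j → m ∈ I) :
    IsSeg (I.image fun i => t.take i) := by
  constructor
  · intro s hs s' hs'
    obtain ⟨i, _, rfl⟩ := Finset.mem_image.1 hs
    obtain ⟨j, _, rfl⟩ := Finset.mem_image.1 hs'
    rcases le_total i j with h | h
    · exact Or.inl (take_pre t h)
    · exact Or.inr (take_pre t h)
  · intro s hs s' hs' r h1 h2
    obtain ⟨i, hi, rfl⟩ := Finset.mem_image.1 hs
    obtain ⟨j, hj, rfl⟩ := Finset.mem_image.1 hs'
    have h3 := h1.length_le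
    have h4 := h2.length_le
    rw [take_len t (hI i hi)] at h3
    rw [take_len t (hI j hj)] at h4
    refine Finset.mem_image.2 ⟨r.length, hc i hi j hj _ h3 h4, ?_⟩
    have h5 : r <+: t := h2.trans (List.take_prefix _ _)
    exact (List.prefix_iff_eq_take.1 h5).symm

theorem main : S_DPSI := by
  classical
  intro x N N1 E E1 κ hx hN hE hκ hw w V hV
  set I1 : Nd → Finset ℕ := fun v =>
    if v <+: w v then (Finset.Icc N (w v).length).filter (fun i => i < N1) else ∅ with hI1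
  set I2 : Nd → Finset ℕ := fun v =>
    if v <+: w v then (Finset.Icc N (w v).length).filter (fun i => ¬ i < N1) else ∅ with hI2
  have m1 : ∀ v i, i ∈ I1 v ↔ v <+: w v ∧ N ≤ i ∧ i ≤ (w v).length ∧ i < N1 := by
    intro v i
    simp only [hI1]
    split_ifs with h
    · simp [h, and_assoc]
    · simp [h]
  have m2 : ∀ v i, i ∈ I2 v ↔ v <+: w v ∧ N ≤ i ∧ i ≤ (w v).length ∧ N1 ≤ i := by
    intro v i
    simp only [hI2]
    split_ifs with h
    · simp [h, and_assoc]
    · simp [h]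
  have l1 : ∀ v, ∀ i ∈ I1 v, i ≤ (w v).length := fun v i hi => ((m1 v i).1 hi).2.2.1
  have l2 : ∀ v, ∀ i ∈ I2 v, i ≤ (w v).length := fun v i hi => ((m2 v i).1 hi).2.2.1
  set S1 : Nd → Finset Nd := fun v => (I1 v).image (fun i => (w v).take i) with hS1
  set S2 : Nd → Finset Nd := fun v => (I2 v).image (fun i => (w v).take i) with hS2
  have seg1 : ∀ v, IsSeg (S1 v) := fun v => seg_isSeg (w v) (l1 v) (by
    intro i hi j hj m h1 h2
    rw [m1] at hi hj ⊢
    exact ⟨hi.1, by omega, by omega, by omega⟩)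
  have seg2 : ∀ v, IsSeg (S2 v) := fun v => seg_isSeg (w v) (l2 v) (by
    intro i hi j hj m h1 h2
    rw [m2] at hi hj ⊢
    exact ⟨hi.1, by omega, by omega, by omega⟩)
  -- prefixes
  have pre : ∀ v ∈ V, v <+: w v → ∀ i, N ≤ i → ((w v).take i).take N = v := by
    intro v hv h i hi
    rw [List.take_take, Nat.min_eq_left hi, ← (hV v hv).1]
    exact (List.prefix_iff_eq_take.1 h).symm
  have p1 : ∀ v ∈ V, ∀ r ∈ S1 v, r.take N = v := by
    intro v hv r hr
    obtain ⟨i, hi, rfl⟩ := Finset.mem_image.1 hr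
    rw [m1] at hi
    exact pre v hv hi.1 i hi.2.1
  have p2 : ∀ v ∈ V, ∀ r ∈ S2 v, r.take N = v := by
    intro v hv r hr
    obtain ⟨i, hi, rfl⟩ := Finset.mem_image.1 hr
    rw [m2] at hi
    exact pre v hv hi.1 i hi.2.1
  have d1 : ∀ v ∈ V, ∀ v' ∈ V, v ≠ v' → Disjoint (S1 v) (S1 v') := by
    intro v hv v' hv' hne
    rw [Finset.disjoint_left]
    intro r h1 h2
    exact hne ((p1 v hv r h1).symm.trans (p1 v' hv' r h2))
  have d2 : ∀ v ∈ V, ∀ v' ∈ V, v ≠ v' → Disjoint (S2 v) (S2 v') := by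
    intro v hv v' hv' hne
    rw [Finset.disjoint_left]
    intro r h1 h2
    exact hne ((p2 v hv r h1).symm.trans (p2 v' hv' r h2))
  have hsum : ∀ v ∈ V, ssum v (w v) x = ∑ r ∈ S1 v, x r + ∑ r ∈ S2 v, x r := by
    intro v hv
    simp only [hS1, hS2]
    rw [Finset.sum_image (take_inj (w v) (l1 v)), Finset.sum_image (take_inj (w v) (l2 v))]
    unfold ssum
    simp only [hI1, hI2]
    by_cases h : v <+: w v
    · rw [if_pos h, if_pos h, if_pos h, (hV v hv).1, Finset.sum_filter_add_sum_filter_not]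
    · rw [if_neg h, if_neg h, if_neg h]
      simp
  have b1 : ∑ v ∈ V, (∑ r ∈ S1 v, x r) ^ 2 ≤ nrm ((lev N N1).indicator x) ^ 2 := by
    apply fam_le (ind_le hx (OrdC_lev N N1)).1 (fun v _ => seg1 v) d1
    intro v hv r hr
    obtain ⟨i, hi, rfl⟩ := Finset.mem_image.1 hr
    rw [m1] at hi
    refine ⟨?_, ?_⟩
    · rw [take_len _ hi.2.2.1]; exact hi.2.1
    · rw [take_len _ hi.2.2.1]; exact hi.2.2.2
  set P : Nd → Prop := fun v => ∃ b ∈ E1, (w v).take N1 = brn b N1 with hP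
  have b2 : ∑ v ∈ V.filter P, (∑ r ∈ S2 v, x r) ^ 2 ≤ nrm ((Abv N1 E E1).indicator x) ^ 2 := by
    apply fam_le (ind_le hx (OrdC_Abv N1 E E1)).1 (fun v _ => seg2 v)
      (fun v hv v' hv' hne => d2 v (Finset.mem_filter.1 hv).1 v' (Finset.mem_filter.1 hv').1 hne)
    intro v hv r hr
    obtain ⟨hv1, b, hb, hbe⟩ := Finset.mem_filter.1 hv
    obtain ⟨i, hi, rfl⟩ := Finset.mem_image.1 hr
    rw [m2] at hi
    refine ⟨b, hb, ?_, ?_⟩
    · intro hbE
      apply (hV v hv1).2 b hbE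
      have h3 := pre v hv1 hi.1 N1 hN
      rw [hbe, brn_take b N1 N hN] at h3
      exact h3.symm
    · rw [← hbe]
      exact take_pre _ hi.2.2.2
  have b3 : ∀ v ∈ V.filter (fun v => ¬ P v), (∑ r ∈ S2 v, x r) ^ 2 ≤ κ := by
    intro v hv
    obtain ⟨hv1, hv2⟩ := Finset.mem_filter.1 hv
    by_cases hne : (S2 v).Nonempty
    · obtain ⟨r, hr⟩ := hne
      obtain ⟨i, hi, -⟩ := Finset.mem_image.1 hr
      rw [m2] at hi
      have h3 : N1 ≤ (w v).length := hi.2.2.2.trans hi.2.2.1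
      have h4 := hw ((w v).take N1) (take_len _ h3) (fun b hb h => hv2 ⟨b, hb, h⟩)
      refine le_trans ?_ h4
      have h5 := fam_le (x := x) (A := cone ((w v).take N1)) (V := {v}) (S := S2)
        (ind_le hx (OrdC_cone _)).1 (fun v _ => seg2 v)
        (by
          intro a ha a' ha' hne
          rw [Finset.mem_singleton] at ha ha'
          exact absurd (ha.trans ha'.symm) hne)
        (by
          intro a ha r' hr'
          rw [Finset.mem_singleton] at ha
          rw [ha] at hr'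
          obtain ⟨i', hi', hri⟩ := Finset.mem_image.1 hr'
          rw [m2] at hi'
          rw [← hri]
          exact take_pre _ hi'.2.2.2)
      rwa [Finset.sum_singleton] at h5
    · rw [Finset.not_nonempty_iff_eq_empty] at hne
      rw [hne]
      simpa using hκ
  have hcard : (V.card : ℝ) ≤ 2 ^ N := by
    let f : V → List.Vector Bool N := fun v => ⟨v.1, (hV v.1 v.2).1⟩
    have h3 : Function.Injective f := by
      intro a b hab
      have := congrArg Subtype.val hab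
      exact Subtype.ext this
    have h4 := Fintype.card_le_of_injective f h3
    rw [Fintype.card_coe, card_vector, Fintype.card_bool] at h4
    exact_mod_cast h4
  have b4 : ∑ v ∈ V.filter (fun v => ¬ P v), (∑ r ∈ S2 v, x r) ^ 2 ≤ 2 ^ N * κ := by
    calc ∑ v ∈ V.filter (fun v => ¬ P v), (∑ r ∈ S2 v, x r) ^ 2
        ≤ ∑ v ∈ V.filter (fun v => ¬ P v), κ := Finset.sum_le_sum b3
      _ = ((V.filter (fun v => ¬ P v)).card : ℝ) * κ := by rw [Finset.sum_const, nsmul_eq_mul]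
      _ ≤ (V.card : ℝ) * κ := by
          apply mul_le_mul_of_nonneg_right _ hκ
          exact_mod_cast Finset.card_filter_le _ _
      _ ≤ _ := mul_le_mul_of_nonneg_right hcard hκ
  calc ∑ v ∈ V, (ssum v (w v) x) ^ 2
      ≤ ∑ v ∈ V, (2 * (∑ r ∈ S1 v, x r) ^ 2 + 2 * (∑ r ∈ S2 v, x r) ^ 2) := by
        apply Finset.sum_le_sum
        intro v hv
        rw [hsum v hv]
        nlinarith [sq_nonneg (∑ r ∈ S1 v, x r - ∑ r ∈ S2 v, x r)]
    _ = 2 * ∑ v ∈ V, (∑ r ∈ S1 v, x r) ^ 2 + 2 * ∑ v ∈ V, (∑ r ∈ S2 v, x r) ^ 2 := by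
        rw [Finset.sum_add_distrib, Finset.mul_sum, Finset.mul_sum]
    _ = 2 * ∑ v ∈ V, (∑ r ∈ S1 v, x r) ^ 2 + 2 * (∑ v ∈ V.filter P, (∑ r ∈ S2 v, x r) ^ 2 +
          ∑ v ∈ V.filter (fun v => ¬ P v), (∑ r ∈ S2 v, x r) ^ 2) := by
        rw [Finset.sum_filter_add_sum_filter_not]
    _ ≤ _ := by linarith

end Pool.Agent.R272.JT.DPSI
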