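import Mathlib

/-!
# Project JT: the James tree space has HIC_{2,d} (MP_a1676c_an, answer NO)

Definitions (functions on the binary tree `List Bool`) and the basic facts on the norm.
-/

set_option autoImplicit false
open Set Filter Topology

namespace Pool.Agent.R272.JT

/-- nodes of the binary tree -/
abbrev Nd := List Bool

/-- segment: finite convex chain. -/
def IsSeg (S : Finset Nd) : Prop :=
  (∀ s ∈ S, ∀ t ∈ S, s <+: t ∨ t <+: s) ∧ (∀ s ∈ S, ∀ t ∈ S, ∀ r, s <+: r → r <+: t → r ∈ S)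

/-- family of pairwise disjoint segments. -/
def Fam (F : Finset (Finset Nd)) : Prop :=
  (∀ S ∈ F, IsSeg S) ∧ (∀ S ∈ F, ∀ S' ∈ F, S ≠ S' → Disjoint S S')

noncomputable def val (F : Finset (Finset Nd)) (x : Nd → ℝ) : ℝ := ∑ S ∈ F, (∑ r ∈ S, x r) ^ 2

/-- `x` is in the James tree space. -/
def InJ (x : Nd → ℝ) : Prop := ∃ c : ℝ, ∀ F, Fam F → val F x ≤ c

/-- the norm. -/
noncomputable def nrm (x : Nd → ℝ) : ℝ := Real.sqrt (sSup {c | ∃ F, Fam F ∧ c = val F x})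

def OrdC (A : Set Nd) : Prop := ∀ s ∈ A, ∀ t ∈ A, ∀ r, s <+: r → r <+: t → r ∈ A

/-- nodes above `v`. -/
def cone (v : Nd) : Set Nd := {t | v <+: t}
/-- levels in `[N, N')`. -/
def lev (N N' : ℕ) : Set Nd := {t | N ≤ t.length ∧ t.length < N'}
/-- the node of level `N` of the branch `b`. -/
def brn (b : ℕ → Bool) (N : ℕ) : Nd := (List.range N).map b
/-- nodes of level `≥ N` not on the branches of `E`. -/
def Om (N : ℕ) (E : Finset (ℕ → Bool)) : Set Nd :=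
  {t | N ≤ t.length ∧ ∀ b ∈ E, t ≠ brn b t.length}
/-- nodes of level `≥ N` on the branches of `E`. -/
def Sp (N : ℕ) (E : Finset (ℕ → Bool)) : Set Nd :=
  {t | N ≤ t.length ∧ ∃ b ∈ E, t = brn b t.length}
/-- the part of the branch `b` of level `≥ N`. -/
def ray (b : ℕ → Bool) (N : ℕ) : Set Nd := {t | N ≤ t.length ∧ t = brn b t.length}
/-- the branches of `E` are distinct at level `N`. -/
def Sep (E : Finset (ℕ → Bool)) (N : ℕ) : Prop := ∀ b ∈ E, ∀ b' ∈ E, brn b N = brn b' N → b = b'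
/-- the set of nodes above the nodes of level `N` of the branches in `E1` and not in `E`. -/
def Abv (N : ℕ) (E E1 : Finset (ℕ → Bool)) : Set Nd := {t | ∃ b ∈ E1, b ∉ E ∧ brn b N <+: t}

/-- sum over the segment from `v` to `t`. -/
noncomputable def ssum (v t : Nd) (x : Nd → ℝ) : ℝ :=
  if v <+: t then ∑ i ∈ Finset.Icc v.length t.length, x (t.take i) else 0

/-- `∑_{|v| = N, v off E} M_v(x)² ≤ c`, `M_v` = maximal sum on segments starting at `v`. -/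
def PsiLe (N : ℕ) (E : Finset (ℕ → Bool)) (x : Nd → ℝ) (c : ℝ) : Prop :=
  ∀ (w : Nd → Nd) (V : Finset Nd), (∀ v ∈ V, v.length = N ∧ ∀ b ∈ E, v ≠ brn b N) →
    ∑ v ∈ V, (ssum v (w v) x) ^ 2 ≤ c

/-- sum along `b` of the levels in `[N, N')`. -/
noncomputable def bs (b : ℕ → Bool) (N N' : ℕ) (x : Nd → ℝ) : ℝ := ∑ i ∈ Finset.Ico N N', x (brn b i)

/-- weighted quadratic variation along the branch `b` from level `N` on. -/
def KLe (b : ℕ → Bool) (N : ℕ) (x : Nd → ℝ) (c : ℝ) : Prop :=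
  ∀ e, N ≤ e → 2 * (bs b N e x) ^ 2 + nrm ((ray b e).indicator x) ^ 2 ≤ c

/-! ### ultrafilters -/

/-- product ultrafilter on the lists of length `k`. -/
noncomputable def Uk : ℕ → Ultrafilter (List ℕ)
  | 0 => pure []
  | k + 1 => (hyperfilter ℕ).bind fun a => (Uk k).map (List.cons a)

/-- interlaced product ultrafilter on pairs of lists of length `k`. -/
noncomputable def Uk2 : ℕ → Ultrafilter (List ℕ × List ℕ)
  | 0 => pure ([], [])
  | k + 1 => (hyperfilter ℕ).bind fun a => (hyperfilter ℕ).bind fun a' =>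
      (Uk2 k).map (fun p : List ℕ × List ℕ => (a :: p.1, a' :: p.2))

theorem Uk_zero (P : List ℕ → Prop) : (∀ᶠ n in Uk 0, P n) ↔ P [] := by
  change (∀ᶠ n in (pure [] : Ultrafilter (List ℕ)), P n) ↔ P []
  rfl

theorem Uk_succ (k : ℕ) (P : List ℕ → Prop) :
    (∀ᶠ n in Uk (k + 1), P n) ↔ ∀ᶠ a in hyperfilter ℕ, ∀ᶠ n in Uk k, P (a :: n) := by
  rfl

theorem Uk2_zero (P : List ℕ × List ℕ → Prop) : (∀ᶠ (p : List ℕ × List ℕ) in Uk2 0, P p) ↔ P ([], []) := by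
  rfl

theorem Uk2_succ (k : ℕ) (P : List ℕ × List ℕ → Prop) :
    (∀ᶠ (p : List ℕ × List ℕ) in Uk2 (k + 1), P p) ↔ ∀ᶠ a in hyperfilter ℕ, ∀ᶠ a' in hyperfilter ℕ,
      ∀ᶠ (p : List ℕ × List ℕ) in Uk2 k, P (a :: p.1, a' :: p.2) := by
  rfl

/-- generic Lipschitz conditions. -/
def GLip : ℕ → (ℕ → ℝ) → (List ℕ → Nd → ℝ) → Prop
  | 0, _, _ => True
  | k + 1, l, f =>
    (∀ᶠ a in hyperfilter ℕ, ∀ᶠ a' in hyperfilter ℕ, ∀ᶠ n in Uk k,
      nrm (f (a :: n) - f (a' :: n)) ≤ l 0) ∧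
    ∀ᶠ a in hyperfilter ℕ, GLip k (fun j => l (j + 1)) (fun n => f (a :: n))

/-- bounded family. -/
def Bdd (B : ℝ) {I : Type} (f : I → Nd → ℝ) : Prop := ∀ n, InJ (f n) ∧ nrm (f n) ≤ B

/-- `c 0, ..., c k` are the iterated limits of the cumulative sums along `b`. -/
def CL (b : ℕ → Bool) : ℕ → (List ℕ → Nd → ℝ) → (ℕ → ℝ) → Prop
  | 0, f, c => ∀ η > 0, ∃ N0, ∀ N ≥ N0, |bs b 0 N (f []) - c 0| ≤ η
  | k + 1, f, c => (∀ η > 0, ∃ N0, ∀ N ≥ N0, ∀ᶠ n in Uk (k + 1), |bs b 0 N (f n) - c 0| ≤ η) ∧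
    ∀ η > 0, ∀ᶠ a in hyperfilter ℕ, ∃ c' : ℕ → ℝ, CL b k (fun n => f (a :: n)) c' ∧
      ∀ j ≤ k, |c' j - c (j + 1)| ≤ η

/-! ### basic facts on the norm -/

theorem nrm_nonneg (x : Nd → ℝ) : 0 ≤ nrm x := Real.sqrt_nonneg _

theorem Fam_empty : Fam ∅ := ⟨by simp, by simp⟩

theorem le_nrm {x : Nd → ℝ} (hx : InJ x) {F : Finset (Finset Nd)} (hF : Fam F) :
    val F x ≤ nrm x ^ 2 := by
  obtain ⟨c, hc⟩ := hx
  have hb : BddAbove {c | ∃ F, Fam F ∧ c = val F x} := ⟨c, by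
    rintro _ ⟨F, hF, rfl⟩; exact hc F hF⟩
  have h0 : val ∅ x ≤ sSup {c | ∃ F, Fam F ∧ c = val F x} := le_csSup hb ⟨∅, Fam_empty, rfl⟩
  have h0' : (0 : ℝ) ≤ sSup {c | ∃ F, Fam F ∧ c = val F x} := by
    refine le_trans ?_ h0; simp [val]
  rw [nrm, Real.sq_sqrt h0']
  exact le_csSup hb ⟨F, hF, rfl⟩

theorem nrm_sq_le {x : Nd → ℝ} {c : ℝ} (h : ∀ F, Fam F → val F x ≤ c) :
    InJ x ∧ nrm x ^ 2 ≤ c := by
  refine ⟨⟨c, h⟩, ?_⟩
  have h0 : (0 : ℝ) ≤ sSup {c | ∃ F, Fam F ∧ c = val F x} := by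
    apply Real.sSup_nonneg
    rintro _ ⟨F, hF, rfl⟩
    exact Finset.sum_nonneg fun _ _ => sq_nonneg _
  rw [nrm, Real.sq_sqrt h0]
  refine csSup_le ⟨_, ∅, Fam_empty, rfl⟩ ?_
  rintro _ ⟨F, hF, rfl⟩
  exact h F hF

theorem nrm_le {x : Nd → ℝ} {c : ℝ} (hc : 0 ≤ c) (h : ∀ F, Fam F → val F x ≤ c ^ 2) :
    InJ x ∧ nrm x ≤ c := by
  obtain ⟨h1, h2⟩ := nrm_sq_le h
  exact ⟨h1, le_of_sq_le_sq h2 hc⟩

theorem sqrt_val_add (F : Finset (Finset Nd)) (x y : Nd → ℝ) :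
    Real.sqrt (val F (x + y)) ≤ Real.sqrt (val F x) + Real.sqrt (val F y) := by
  have := Real.sqrt_nonneg (val F x)
  have h := Real.Lp_add_le F (fun S => ∑ r ∈ S, x r) (fun S => ∑ r ∈ S, y r) (p := 2) (by norm_num)
  have e : ∀ z : Nd → ℝ, Real.sqrt (val F z) = (∑ S ∈ F, |∑ r ∈ S, z r| ^ (2 : ℝ)) ^ (1 / (2 : ℝ)) := by
    intro z
    rw [Real.sqrt_eq_rpow, val]
    congr 1
    refine Finset.sum_congr rfl fun S _ => ?_
    rw [Real.rpow_two, sq_abs]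
  rw [e, e, e]
  simpa [Finset.sum_add_distrib] using h

theorem InJ_add {x y : Nd → ℝ} (hx : InJ x) (hy : InJ y) :
    InJ (x + y) ∧ nrm (x + y) ≤ nrm x + nrm y := by
  refine nrm_le (add_nonneg (nrm_nonneg _) (nrm_nonneg _)) fun F hF => ?_
  have h1 := sqrt_val_add F x y
  have h2 : Real.sqrt (val F x) ≤ nrm x := by
    rw [← Real.sqrt_sq (nrm_nonneg x)]; exact Real.sqrt_le_sqrt (le_nrm hx hF)
  have h3 : Real.sqrt (val F y) ≤ nrm y := by
    rw [← Real.sqrt_sq (nrm_nonneg y)]; exact Real.sqrt_le_sqrt (le_nrm hy hF)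
  have h4 : 0 ≤ val F (x + y) := Finset.sum_nonneg fun _ _ => sq_nonneg _
  rw [← Real.sq_sqrt h4]
  exact pow_le_pow_left₀ (Real.sqrt_nonneg _) (h1.trans (add_le_add h2 h3)) 2

theorem val_smul (F : Finset (Finset Nd)) (c : ℝ) (x : Nd → ℝ) : val F (c • x) = c ^ 2 * val F x := by
  simp only [val, Pi.smul_apply, smul_eq_mul, ← Finset.mul_sum, mul_pow]

theorem InJ_smul {x : Nd → ℝ} (c : ℝ) (hx : InJ x) : InJ (c • x) ∧ nrm (c • x) = |c| * nrm x := by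
  have key : ∀ (c : ℝ) {x : Nd → ℝ}, InJ x → InJ (c • x) ∧ nrm (c • x) ≤ |c| * nrm x := by
    intro c x hx
    refine nrm_le (mul_nonneg (abs_nonneg _) (nrm_nonneg _)) fun F hF => ?_
    rw [val_smul, mul_pow, sq_abs]
    exact mul_le_mul_of_nonneg_left (le_nrm hx hF) (sq_nonneg _)
  refine ⟨(key c hx).1, le_antisymm (key c hx).2 ?_⟩
  by_cases hc : c = 0
  · subst hc; simp [nrm_nonneg]
  · have := (key c⁻¹ (key c hx).1).2
    rw [smul_smul, inv_mul_cancel₀ hc, one_smul, abs_inv] at this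
    rw [← le_inv_mul_iff₀ (abs_pos.2 hc)]
    exact this

theorem InJ_neg {x : Nd → ℝ} (hx : InJ x) : InJ (-x) ∧ nrm (-x) = nrm x := by
  have := InJ_smul (-1) hx
  simpa using this

theorem InJ_sub {x y : Nd → ℝ} (hx : InJ x) (hy : InJ y) :
    InJ (x - y) ∧ nrm (x - y) ≤ nrm x + nrm y := by
  have := InJ_add hx (InJ_neg hy).1
  rw [(InJ_neg hy).2] at this
  rwa [sub_eq_add_neg]

theorem InJ_zero : InJ 0 ∧ nrm 0 = 0 := by
  have h : InJ (0 : Nd → ℝ) ∧ nrm (0 : Nd → ℝ) ≤ 0 :=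
    nrm_le le_rfl fun F _ => by simp [val]
  exact ⟨h.1, le_antisymm h.2 (nrm_nonneg _)⟩

/-- restricting a family. -/
theorem Fam_filter {F : Finset (Finset Nd)} (hF : Fam F) {A : Set Nd} (hA : OrdC A)
    [DecidablePred (· ∈ A)] :
    Fam ((F.image (fun S => S.filter (· ∈ A))).filter (·.Nonempty)) ∧
    ∀ x : Nd → ℝ, val F (A.indicator x) =
      val ((F.image (fun S => S.filter (· ∈ A))).filter (·.Nonempty)) x := by
  classical
  have hinj : ∀ S ∈ F, ∀ S' ∈ F, (S.filter (· ∈ A)).Nonempty →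
      S.filter (· ∈ A) = S'.filter (· ∈ A) → S = S' := by
    intro S hS S' hS' hne h
    by_contra hcon
    obtain ⟨t, ht⟩ := hne
    have h1 : t ∈ S := (Finset.mem_filter.1 ht).1
    rw [h] at ht
    have h2 : t ∈ S' := (Finset.mem_filter.1 ht).1
    exact (Finset.disjoint_left.1 (hF.2 S hS S' hS' hcon)) h1 h2
  refine ⟨⟨?_, ?_⟩, ?_⟩
  · intro S hS
    obtain ⟨hS1, -⟩ := Finset.mem_filter.1 hS
    obtain ⟨S0, hS0, rfl⟩ := Finset.mem_image.1 hS1
    refine ⟨fun s hs t ht => (hF.1 S0 hS0).1 s (Finset.mem_filter.1 hs).1 t (Finset.mem_filter.1 ht).1,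
      fun s hs t ht r h1 h2 => ?_⟩
    obtain ⟨hs1, hs2⟩ := Finset.mem_filter.1 hs
    obtain ⟨ht1, ht2⟩ := Finset.mem_filter.1 ht
    exact Finset.mem_filter.2 ⟨(hF.1 S0 hS0).2 s hs1 t ht1 r h1 h2, hA s hs2 t ht2 r h1 h2⟩
  · intro S hS S' hS' hne
    obtain ⟨hS1, hSn⟩ := Finset.mem_filter.1 hS
    obtain ⟨S0, hS0, rfl⟩ := Finset.mem_image.1 hS1
    obtain ⟨hS1', -⟩ := Finset.mem_filter.1 hS'
    obtain ⟨S0', hS0', rfl⟩ := Finset.mem_image.1 hS1'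
    have : S0 ≠ S0' := fun h => hne (by rw [h])
    exact (hF.2 S0 hS0 S0' hS0' this).mono (Finset.filter_subset _ _) (Finset.filter_subset _ _)
  · intro x
    have e1 : ∀ S : Finset Nd, ∑ r ∈ S, A.indicator x r = ∑ r ∈ S.filter (· ∈ A), x r := by
      intro S
      rw [Finset.sum_filter]
      refine Finset.sum_congr rfl fun r _ => ?_
      simp [Set.indicator_apply]
    unfold val
    simp only [e1]
    have e2 : ∑ S ∈ F, (∑ r ∈ S.filter (· ∈ A), x r) ^ 2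
        = ∑ S ∈ F.filter (fun S => (S.filter (· ∈ A)).Nonempty), (∑ r ∈ S.filter (· ∈ A), x r) ^ 2 := by
      rw [Finset.sum_filter]
      refine Finset.sum_congr rfl fun S _ => ?_
      by_cases h : (S.filter (· ∈ A)).Nonempty
      · rw [if_pos h]
      · rw [if_neg h, Finset.not_nonempty_iff_eq_empty.1 h]; simp
    rw [e2]
    have e3 : (F.image (fun S => S.filter (· ∈ A))).filter (·.Nonempty)
        = (F.filter (fun S => (S.filter (· ∈ A)).Nonempty)).image (fun S => S.filter (· ∈ A)) := by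
      ext S
      simp only [Finset.mem_filter, Finset.mem_image]
      constructor
      · rintro ⟨⟨S0, h1, rfl⟩, h2⟩; exact ⟨S0, ⟨h1, h2⟩, rfl⟩
      · rintro ⟨S0, ⟨h1, h2⟩, rfl⟩; exact ⟨⟨S0, h1, rfl⟩, h2⟩
    rw [e3, Finset.sum_image]
    intro S hS S' hS' h
    have hS1 := Finset.mem_filter.1 (Finset.mem_coe.1 hS)
    have hS1' := Finset.mem_filter.1 (Finset.mem_coe.1 hS')
    exact hinj S hS1.1 S' hS1'.1 hS1.2 h

/-- restriction to a convex set is a contraction. -/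
theorem ind_le {x : Nd → ℝ} (hx : InJ x) {A : Set Nd} (hA : OrdC A) :
    InJ (A.indicator x) ∧ nrm (A.indicator x) ≤ nrm x := by
  classical
  refine nrm_le (nrm_nonneg _) fun F hF => ?_
  rw [(Fam_filter hF hA).2 x]
  exact le_nrm hx (Fam_filter hF hA).1

/-- monotonicity for restrictions. -/
theorem ind_mono {x : Nd → ℝ} {A B : Set Nd} (hB : InJ (B.indicator x)) (hA : OrdC A)
    (hAB : A ⊆ B) : InJ (A.indicator x) ∧ nrm (A.indicator x) ≤ nrm (B.indicator x) := by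
  have h := ind_le hB hA
  rwa [Set.indicator_indicator, Set.inter_eq_left.2 hAB] at h

theorem OrdC_cone (v : Nd) : OrdC (cone v) := fun _ hs _ _ _ h1 _ => List.IsPrefix.trans hs h1

theorem OrdC_lev (N N' : ℕ) : OrdC (lev N N') := fun _ hs _ ht _ h1 h2 =>
  ⟨hs.1.trans h1.length_le, h2.length_le.trans_lt ht.2⟩

theorem OrdC_inter {A B : Set Nd} (hA : OrdC A) (hB : OrdC B) : OrdC (A ∩ B) :=
  fun s hs t ht r h1 h2 => ⟨hA s hs.1 t ht.1 r h1 h2, hB s hs.2 t ht.2 r h1 h2⟩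

theorem brn_length (b : ℕ → Bool) (N : ℕ) : (brn b N).length = N := by simp [brn]

theorem brn_take (b : ℕ → Bool) (N i : ℕ) (h : i ≤ N) : (brn b N).take i = brn b i := by
  simp [brn, ← List.map_take, List.take_range, Nat.min_eq_left h]

theorem prefix_brn {b : ℕ → Bool} {s : Nd} {N : ℕ} (h : s <+: brn b N) : s = brn b s.length := by
  have h1 := h.length_le
  rw [brn_length] at h1
  rw [← brn_take b N s.length h1]
  exact (List.prefix_iff_eq_take.1 h)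

theorem OrdC_Om (N : ℕ) (E : Finset (ℕ → Bool)) : OrdC (Om N E) := by
  intro s hs t _ r h1 _
  refine ⟨hs.1.trans h1.length_le, fun b hb h => ?_⟩
  rw [h] at h1
  exact hs.2 b hb (prefix_brn h1)

theorem OrdC_Sp (N : ℕ) (E : Finset (ℕ → Bool)) : OrdC (Sp N E) := by
  intro s hs t ht r h1 h2
  obtain ⟨b, hb, h⟩ := ht.2
  rw [h] at h2
  exact ⟨hs.1.trans h1.length_le, b, hb, prefix_brn h2⟩

theorem OrdC_ray (b : ℕ → Bool) (N : ℕ) : OrdC (ray b N) := by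
  intro s hs t ht r h1 h2
  have h := ht.2
  rw [h] at h2
  exact ⟨hs.1.trans h1.length_le, prefix_brn h2⟩

theorem OrdC_Abv (N : ℕ) (E E1 : Finset (ℕ → Bool)) : OrdC (Abv N E E1) := by
  rintro s ⟨b, hb, hb', h⟩ t _ r h1 _
  exact ⟨b, hb, hb', h.trans h1⟩

/-- marginals -/
theorem marg : ∀ (k : ℕ) (P : List ℕ → Prop), (∀ᶠ n in Uk k, P n) →
    (∀ᶠ (p : List ℕ × List ℕ) in Uk2 k, P p.1) ∧ (∀ᶠ (p : List ℕ × List ℕ) in Uk2 k, P p.2) := by
  intro k
  induction k with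
  | zero =>
    intro P h
    rw [Uk_zero] at h
    exact ⟨(Uk2_zero _).2 h, (Uk2_zero _).2 h⟩
  | succ k ih =>
    intro P h
    rw [Uk_succ] at h
    refine ⟨?_, ?_⟩
    · rw [Uk2_succ]
      filter_upwards [h] with a ha
      exact Eventually.of_forall fun _ => (ih (fun n => P (a :: n)) ha).1
    · rw [Uk2_succ]
      refine Eventually.of_forall fun _ => ?_
      filter_upwards [h] with a ha
      exact (ih (fun n => P (a :: n)) ha).2

/-- comparison -/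
theorem cmp {B l0 : ℝ} {k : ℕ} {f : List ℕ → Nd → ℝ} (hf : Bdd B f)
    (h : ∀ᶠ a in hyperfilter ℕ, ∀ᶠ a' in hyperfilter ℕ, ∀ᶠ n in Uk k,
      nrm (f (a :: n) - f (a' :: n)) ≤ l0) :
    ∀ᶠ a in hyperfilter ℕ, ∀ (A : Set Nd) (κ : ℝ), OrdC A →
      (∀ᶠ n in Uk (k + 1), nrm (A.indicator (f n)) ≤ κ) →
      ∀ᶠ n in Uk k, nrm (A.indicator (f (a :: n))) ≤ l0 + κ := by
  filter_upwards [h] with a ha A κ hA hκ
  rw [Uk_succ] at hκ
  obtain ⟨a', h1, h2⟩ := (ha.and hκ).exists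
  filter_upwards [h1, h2] with n h3 h4
  have e : A.indicator (f (a :: n)) = A.indicator (f (a :: n) - f (a' :: n))
      + A.indicator (f (a' :: n)) := by
    rw [← Set.indicator_add']; simp
  have h5 := InJ_sub (hf (a :: n)).1 (hf (a' :: n)).1
  have h6 := ind_le h5.1 hA
  have h7 := InJ_add h6.1 (ind_le (hf (a' :: n)).1 hA).1
  rw [← e] at h7
  linarith [h7.2, h6.2]

end Pool.Agent.R272.JT
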