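import Pool.Agent.R272.JT.Stm

set_option autoImplicit false
open Set Filter Topology

namespace Pool.Agent.R272.JT.FIN

/-- interlaced tuples: `n₁ < m₁ < n₂ < m₂ < ...` (for increasing tuples). -/
def Interlaced {k : ℕ} (n m : Fin k → ℕ) : Prop := (∀ i, n i < m i) ∧ ∀ i j, i < j → m i < n j

/-- `[M]^k`. -/
def Tup (M : Set ℕ) (k : ℕ) : Set (Fin k → ℕ) := {n | StrictMono n ∧ ∀ i, n i ∈ M}

/-- `H_j(ℕ)`. -/
def HPair {k : ℕ} (j : Fin k) (n m : Fin k → ℕ) : Prop :=
  n ∈ Tup univ k ∧ m ∈ Tup univ k ∧ (∀ i, i ≠ j → n i = m i) ∧ n j < m j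

/-- `Lip_j(f)`. -/
noncomputable def LipJ {X : Type} [MetricSpace X] {k : ℕ} (f : (Fin k → ℕ) → X) (j : Fin k) : ℝ :=
  sSup {d | ∃ n m, HPair j n m ∧ d = dist (f n) (f m)}

/-- bounded on `[ℕ]^k`. -/
def BddMap {X : Type} [MetricSpace X] {k : ℕ} (f : (Fin k → ℕ) → X) : Prop :=
  ∃ C, ∀ n ∈ Tup univ k, ∀ m ∈ Tup univ k, dist (f n) (f m) ≤ C

/-- `λ`-HIC_{p,d}. -/
def HIC (p lam : ℝ) (X : Type) [MetricSpace X] : Prop :=
  ∀ (k : ℕ) (f : (Fin k → ℕ) → X), BddMap f → ∃ M : Set ℕ, M.Infinite ∧
    ∀ n ∈ Tup M k, ∀ m ∈ Tup M k, Interlaced n m →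
      dist (f n) (f m) ≤ lam * (∑ j, (LipJ f j) ^ p) ^ (1 / p)

section
variable {X : Type} [NormedAddCommGroup X] [NormedSpace ℝ X]

theorem LipJ_le {k : ℕ} {f : (Fin k → ℕ) → X} (hf : BddMap f) {j : Fin k} {n m : Fin k → ℕ}
    (h : HPair j n m) : dist (f n) (f m) ≤ LipJ f j := by
  obtain ⟨C, hC⟩ := hf
  refine le_csSup ⟨C, ?_⟩ ⟨n, m, h, rfl⟩
  rintro _ ⟨n, m, h, rfl⟩
  exact hC n h.1 m h.2.1

theorem LipJ_nonneg {k : ℕ} (f : (Fin k → ℕ) → X) (j : Fin k) : 0 ≤ LipJ f j := by
  apply Real.sSup_nonneg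
  rintro _ ⟨n, m, h, rfl⟩
  exact dist_nonneg

theorem path_bound {k : ℕ} {f : (Fin k → ℕ) → X} (hf : BddMap f) {n m : Fin k → ℕ}
    (hn : StrictMono n) (hm : StrictMono m) (h : Interlaced n m)
    (h0 : ∀ j, LipJ f j = 0) : f n = f m := by
  -- `g i` : coordinates `≥ i` from `m`, others from `n`
  let g : ℕ → Fin k → ℕ := fun i j => if i ≤ (j : ℕ) then m j else n j
  have hg : ∀ i, StrictMono (g i) := by
    intro i a b hab
    simp only [g]
    have hab' : (a : ℕ) < b := hab
    split_ifs with h1 h2 h2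
    · exact hm hab
    · omega
    · exact (hn hab).trans (h.1 b)
    · exact hn hab
  have hstep : ∀ i, i < k → f (g (i + 1)) = f (g i) := by
    intro i hi
    have hp : HPair (⟨i, hi⟩ : Fin k) (g (i + 1)) (g i) := by
      refine ⟨⟨hg _, fun _ => mem_univ _⟩, ⟨hg _, fun _ => mem_univ _⟩, ?_, ?_⟩
      · intro j hj
        have : (j : ℕ) ≠ i := fun hh => hj (Fin.ext hh)
        simp only [g]
        split_ifs with h1 h2 h2
        · rfl
        · omega
        · omega
        · rfl
      · simp only [g]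
        simp [h.1]
    have h1 := LipJ_le hf hp
    rw [h0] at h1
    exact dist_le_zero.1 h1
  have hall : ∀ i, i ≤ k → f (g i) = f (g 0) := by
    intro i
    induction i with
    | zero => intro _; rfl
    | succ i ih => intro hi; rw [hstep i (by omega), ih (by omega)]
  have e1 : g k = n := by
    funext j; simp only [g]; rw [if_neg (by have := j.2; omega)]
  have e2 : g 0 = m := by
    funext j; simp [g]
  rw [← e1, ← e2]
  exact hall k le_rfl

/-- entries of generic lists. -/
theorem gen_list : ∀ (r c : ℕ), ∀ᶠ (n : List ℕ) in Uk r, n.length = r ∧ n.Pairwise (· < ·) ∧ ∀ a ∈ n, c < a := by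
  intro r
  induction r with
  | zero => intro c; rw [Uk_zero]; simp
  | succ r ih =>
    intro c
    rw [Uk_succ]
    have hgt : ∀ᶠ a in (hyperfilter ℕ : Filter ℕ), c < a := by
      have : (hyperfilter ℕ : Filter ℕ) ≤ atTop := by
        rw [← Nat.cofinite_eq_atTop]; exact hyperfilter_le_cofinite
      exact this (eventually_gt_atTop c)
    filter_upwards [hgt] with a ha
    filter_upwards [ih a] with n hn
    refine ⟨by simp [hn.1], List.pairwise_cons.2 ⟨fun b hb => hn.2.2 b hb, hn.2.1⟩, ?_⟩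
    intro b hb
    rcases List.mem_cons.1 hb with rfl | hb
    · exact ha
    · exact ha.trans (hn.2.2 b hb)

open Classical in
/-- the family on lists. -/
noncomputable def toL (ι : X →ₗ[ℝ] (Nd → ℝ)) {k : ℕ} (f : (Fin k → ℕ) → X) (q : List ℕ) : Nd → ℝ :=
  if q.length = k ∧ q.Pairwise (· < ·) then ι (f (fun i => q.getD i 0)) else 0

theorem strictMono_getD {q : List ℕ} {k : ℕ} (h : q.length = k ∧ q.Pairwise (· < ·)) :
    StrictMono (fun i : Fin k => q.getD i 0) := by
  intro a b hab
  have ha : (a : ℕ) < q.length := by rw [h.1]; exact a.2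
  have hb : (b : ℕ) < q.length := by rw [h.1]; exact b.2
  have := List.pairwise_iff_getElem.1 h.2 a b ha hb hab
  simp only [List.getD_eq_getElem?_getD, List.getElem?_eq_getElem ha, List.getElem?_eq_getElem hb,
    Option.getD_some]
  exact this

theorem toL_GLip {ι : X →ₗ[ℝ] (Nd → ℝ)} (hι : Rlz X ι) {k : ℕ} {f : (Fin k → ℕ) → X}
    (hf : BddMap f) (l : ℕ → ℝ) (hl : ∀ j : Fin k, l j = LipJ f j) (hl0 : ∀ j, 0 ≤ l j) :
    ∀ (r : ℕ) (s : List ℕ), s.length + r = k →
      GLip r (fun j => l (s.length + j)) (fun q => toL ι f (s ++ q)) := by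
  intro r
  induction r with
  | zero => intro s _; trivial
  | succ r ih =>
    intro s hs
    have hgt : ∀ c, ∀ᶠ a in (hyperfilter ℕ : Filter ℕ), c < a := by
      intro c
      have : (hyperfilter ℕ : Filter ℕ) ≤ atTop := by
        rw [← Nat.cofinite_eq_atTop]; exact hyperfilter_le_cofinite
      exact this (eventually_gt_atTop c)
    have hgs : ∀ᶠ a in (hyperfilter ℕ : Filter ℕ), ∀ b ∈ s, b < a := by
      filter_upwards [hgt s.sum] with a ha b hb
      exact (List.single_le_sum (by simp) b hb).trans_lt ha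
    refine ⟨?_, ?_⟩
    · filter_upwards [hgs] with a ha
      filter_upwards [hgt a] with a' ha'
      filter_upwards [gen_list r a'] with n hn
      simp only [add_zero]
      by_cases hsp : s.Pairwise (· < ·)
      · have hA : (s ++ a :: n).length = k ∧ (s ++ a :: n).Pairwise (· < ·) := by
          refine ⟨by simp [hn.1]; omega, ?_⟩
          rw [List.pairwise_append]
          refine ⟨hsp, List.pairwise_cons.2 ⟨fun b hb => ha'.trans (hn.2.2 b hb), hn.2.1⟩, ?_⟩
          intro x hx y hy
          rcases List.mem_cons.1 hy with rfl | hy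
          · exact ha x hx
          · exact (ha x hx).trans (ha'.trans (hn.2.2 y hy))
        have hA' : (s ++ a' :: n).length = k ∧ (s ++ a' :: n).Pairwise (· < ·) := by
          refine ⟨by simp [hn.1]; omega, ?_⟩
          rw [List.pairwise_append]
          refine ⟨hsp, List.pairwise_cons.2 ⟨fun b hb => (hn.2.2 b hb), hn.2.1⟩, ?_⟩
          intro x hx y hy
          rcases List.mem_cons.1 hy with rfl | hy
          · exact (ha x hx).trans ha'
          · exact (ha x hx).trans (ha'.trans (hn.2.2 y hy))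
        unfold toL
        rw [if_pos hA, if_pos hA', ← map_sub, ← (hι.1 _).2, ← dist_eq_norm]
        have hsk : s.length < k := by omega
        have hj : l s.length = LipJ f ⟨s.length, hsk⟩ := hl ⟨s.length, hsk⟩
        rw [hj]
        refine LipJ_le hf ⟨⟨strictMono_getD hA, fun _ => mem_univ _⟩,
          ⟨strictMono_getD hA', fun _ => mem_univ _⟩, ?_, ?_⟩
        · intro i hi
          have hi' : (i : ℕ) ≠ s.length := fun hh => hi (Fin.ext hh)
          simp only [List.getD_eq_getElem?_getD]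
          congr 1
          rcases lt_or_gt_of_ne hi' with h1 | h1
          · rw [List.getElem?_append_left h1, List.getElem?_append_left h1]
          · rw [List.getElem?_append_right h1.le, List.getElem?_append_right h1.le]
            obtain ⟨t, ht⟩ : ∃ t, (i : ℕ) - s.length = t + 1 := ⟨(i : ℕ) - s.length - 1, by omega⟩
            rw [ht, List.getElem?_cons_succ, List.getElem?_cons_succ]
        · simp only [List.getD_eq_getElem?_getD]
          rw [List.getElem?_append_right le_rfl, List.getElem?_append_right le_rfl]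
          simpa using ha'
      · have hB : ∀ a : ℕ, ¬ ((s ++ a :: n).length = k ∧ (s ++ a :: n).Pairwise (· < ·)) := by
          rintro a ⟨-, h2⟩
          exact hsp (List.pairwise_append.1 h2).1
        unfold toL
        rw [if_neg (hB a), if_neg (hB a'), sub_zero, InJ_zero.2]
        exact hl0 _
    · refine Eventually.of_forall fun a => ?_
      have := ih (s ++ [a]) (by simp; omega)
      have e1 : (fun j => l ((s ++ [a]).length + j)) = fun j => l (s.length + (j + 1)) := by
        funext j; congr 1; simp; omega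
      have e2 : (fun q => toL ι f ((s ++ [a]) ++ q)) = fun q => toL ι f (s ++ a :: q) := by
        funext q; simp
      rw [e1, e2] at this
      exact this

theorem inter_ofFn : ∀ (k c : ℕ) (u v : Fin k → ℕ), (∀ i, c ≤ u i) → (∀ i, u i < v i) →
    (∀ i j, i < j → v i < u j) → Inter c (List.ofFn u) (List.ofFn v) := by
  intro k
  induction k with
  | zero => intro c u v _ _ _; simp [Inter]
  | succ k ih =>
    intro c u v h1 h2 h3
    rw [List.ofFn_succ, List.ofFn_succ]
    refine ⟨h1 0, h2 0, ih _ _ _ ?_ (fun i => h2 _) (fun i j hij => h3 _ _ (by simpa using hij))⟩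
    intro i
    exact h3 0 i.succ (Fin.succ_pos i)

theorem toL_ofFn {ι : X →ₗ[ℝ] (Nd → ℝ)} {k : ℕ} (f : (Fin k → ℕ) → X) {n : Fin k → ℕ}
    (hn : StrictMono n) : toL ι f (List.ofFn n) = ι (f n) := by
  unfold toL
  have h : (List.ofFn n).length = k ∧ (List.ofFn n).Pairwise (· < ·) := by
    refine ⟨by simp, ?_⟩
    rw [List.pairwise_ofFn]
    intro i j hij
    exact hn hij
  rw [if_pos h]
  congr 2
  funext i
  simp

theorem hic (hA : S_ASM) (hR : S_RAM) {ι : X →ₗ[ℝ] (Nd → ℝ)} (hι : Rlz X ι) :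
    HIC 2 21 X := by
  intro k f hf
  by_cases h0 : ∀ j, LipJ f j = 0
  · refine ⟨univ, infinite_univ, fun n hn m hm hnm => ?_⟩
    rw [path_bound hf hn.1 hm.1 hnm h0, dist_self]
    have : 0 ≤ ∑ j, LipJ f j ^ (2 : ℝ) :=
      Finset.sum_nonneg fun j _ => Real.rpow_nonneg (LipJ_nonneg f j) _
    positivity
  · push Not at h0
    obtain ⟨j0, hj0⟩ := h0
    classical
    let l : ℕ → ℝ := fun j => if h : j < k then LipJ f ⟨j, h⟩ else 0
    have hl : ∀ j : Fin k, l j = LipJ f j := fun j => by simp [l]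
    have hl0 : ∀ j, 0 ≤ l j := by
      intro j
      simp only [l]
      split_ifs with h
      · exact LipJ_nonneg f _
      · exact le_rfl
    have hlk : ∀ j ≥ k, l j = 0 := fun j hj => by simp only [l]; rw [dif_neg (by omega)]
    set L : ℝ := Real.sqrt (∑ j ∈ Finset.range k, (l j) ^ 2) with hL
    have hsum : ∑ j ∈ Finset.range k, (l j) ^ 2 = ∑ j : Fin k, (LipJ f j) ^ 2 := by
      rw [Finset.sum_range]
      exact Finset.sum_congr rfl fun j _ => by rw [hl]
    have hLpos : 0 < L := by
      rw [hL]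
      apply Real.sqrt_pos.2
      rw [hsum]
      refine Finset.sum_pos' (fun _ _ => sq_nonneg _) ⟨j0, Finset.mem_univ _, ?_⟩
      positivity
    -- boundedness
    obtain ⟨C, hC⟩ := hf
    have hf : BddMap f := ⟨C, hC⟩
    let n0 : Fin k → ℕ := fun i => i
    have hn0 : n0 ∈ Tup univ k := ⟨fun a b h => h, fun _ => mem_univ _⟩
    have hB : Bdd (‖f n0‖ + |C|) (toL ι f) := by
      intro q
      unfold toL
      split_ifs with h
      · refine ⟨(hι.1 _).1, ?_⟩
        rw [← (hι.1 _).2]
        have h1 := hC _ ⟨strictMono_getD h, fun _ => mem_univ _⟩ n0 hn0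
        rw [dist_eq_norm] at h1
        have h2 := norm_le_norm_add_norm_sub' (f fun i => q.getD i 0) (f n0)
        have h3 := le_abs_self C
        linarith
      · refine ⟨InJ_zero.1, ?_⟩
        rw [InJ_zero.2]
        positivity
    have hG := toL_GLip hι hf l hl hl0 k [] (by simp)
    simp only [List.length_nil, zero_add, List.nil_append] at hG
    have hev := hA k l _ (toL ι f) hl0 hlk hB hG L hLpos
    obtain ⟨φ, hφ, hP⟩ := hR k (fun n m => nrm (toL ι f n - toL ι f m) ≤
      20 * Real.sqrt (∑ j ∈ Finset.range k, (l j) ^ 2) + L) hev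
    refine ⟨range φ, infinite_range_of_injective hφ.injective, fun n hn m hm hnm => ?_⟩
    choose u hu using hn.2
    choose v hv using hm.2
    have huv : ∀ i, u i < v i := fun i => by
      rw [← hφ.lt_iff_lt, hu, hv]; exact hnm.1 i
    have hvu : ∀ i j, i < j → v i < u j := fun i j hij => by
      rw [← hφ.lt_iff_lt, hu, hv]; exact hnm.2 i j hij
    have h1 := hP (List.ofFn u) (List.ofFn v) (by simp)
      (inter_ofFn k 0 u v (fun _ => Nat.zero_le _) huv hvu)
    have e1 : (List.ofFn u).map φ = List.ofFn n := by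
      rw [List.map_ofFn]; congr 1; funext i; exact hu i
    have e2 : (List.ofFn v).map φ = List.ofFn m := by
      rw [List.map_ofFn]; congr 1; funext i; exact hv i
    simp only [e1, e2] at h1
    rw [toL_ofFn f hn.1, toL_ofFn f hm.1, ← map_sub, ← (hι.1 _).2, ← dist_eq_norm] at h1
    refine h1.trans (le_of_eq ?_)
    have e3 : (∑ j, LipJ f j ^ (2 : ℝ)) ^ (1 / (2 : ℝ)) = L := by
      rw [hL, hsum, Real.sqrt_eq_rpow]
      simp
    rw [e3, ← hL]
    ring

end

/-- Asplund: every separable closed subspace has separable dual. -/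
def Asplund (X : Type) [NormedAddCommGroup X] [NormedSpace ℝ X] : Prop :=
  ∀ Y : Submodule ℝ X, IsClosed (Y : Set X) → TopologicalSpace.SeparableSpace Y →
    TopologicalSpace.SeparableSpace (Y →L[ℝ] ℝ)

theorem not_asplund {X : Type} [NormedAddCommGroup X] [NormedSpace ℝ X]
    (h1 : TopologicalSpace.SeparableSpace X)
    (h2 : ¬ TopologicalSpace.SeparableSpace (X →L[ℝ] ℝ)) : ¬ Asplund X := by
  intro h
  have h3 : TopologicalSpace.SeparableSpace ((⊤ : Submodule ℝ X) →L[ℝ] ℝ) := by
    apply h ⊤ isClosed_univ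
    have : TopologicalSpace.SeparableSpace (univ : Set X) := by
      exact (TopologicalSpace.isSeparable_univ_iff.2 h1).separableSpace
    exact this
  apply h2
  let i : X →L[ℝ] (⊤ : Submodule ℝ X) := (ContinuousLinearMap.id ℝ X).codRestrict ⊤ (fun _ => trivial)
  let Φ : ((⊤ : Submodule ℝ X) →L[ℝ] ℝ) → (X →L[ℝ] ℝ) := fun g => g.comp i
  have hΦc : Continuous Φ := by
    exact (ContinuousLinearMap.compL ℝ X (⊤ : Submodule ℝ X) ℝ).flip i |>.continuous
  have hΦs : Function.Surjective Φ := by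
    intro g
    refine ⟨g.comp (Submodule.subtypeL _), ?_⟩
    ext x
    rfl
  exact hΦs.denseRange.separableSpace hΦc

theorem final (hA : S_ASM) (hR : S_RAM) (h1 : S_SP1) (h2 : S_SP2) (h3 : S_SP3) :
    ∃ (X : Type) (_ : NormedAddCommGroup X) (_ : NormedSpace ℝ X), CompleteSpace X ∧
      ¬ FiniteDimensional ℝ X ∧ HIC 2 21 X ∧ ¬ Asplund X := by
  obtain ⟨X, i1, i2, ι, hc, hι⟩ := h1
  have hsep := h2 X ι hι
  have hns := h3 X ι hι
  refine ⟨X, i1, i2, hc, ?_, hic hA hR hι, not_asplund hsep hns⟩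
  intro hfd
  apply hns
  have : FiniteDimensional ℝ (X →L[ℝ] ℝ) := inferInstance
  have hp : ProperSpace (X →L[ℝ] ℝ) := FiniteDimensional.proper ℝ _
  exact inferInstance

end Pool.Agent.R272.JT.FIN
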