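import Pool.Agent.R272.JT.Stm

/-!
# JT-INC: superadditivity of the norm for disjoint convex sets, additivity for incomparable ones
-/

set_option autoImplicit false
open Set Filter Topology

namespace Pool.Agent.R272.JT.INC

open Pool.Agent.R272.JT

lemma approx {x : Nd → ℝ} {A : Set Nd} (hA : OrdC A) {e : ℝ} (he : 0 < e) :
    ∃ G : Finset (Finset Nd), Fam G ∧ (∀ S ∈ G, (∀ t ∈ S, t ∈ A) ∧ S.Nonempty) ∧
      nrm (A.indicator x) ^ 2 - e ≤ val G x := by
  classical
  have h0 : ∃ F, Fam F ∧ nrm (A.indicator x) ^ 2 - e < val F (A.indicator x) := by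
    by_contra hcon
    push Not at hcon
    have := (nrm_sq_le hcon).2
    linarith
  obtain ⟨F, hF, hlt⟩ := h0
  refine ⟨_, (Fam_filter hF hA).1, ?_, ?_⟩
  · intro S hS
    obtain ⟨hS1, hSn⟩ := Finset.mem_filter.1 hS
    obtain ⟨S0, hS0, rfl⟩ := Finset.mem_image.1 hS1
    exact ⟨fun t ht => (Finset.mem_filter.1 ht).2, hSn⟩
  · rw [← (Fam_filter hF hA).2 x]
    exact hlt.le

lemma part1 (x : Nd → ℝ) (ι : Type) (F : Finset ι) (A : ι → Set Nd) (hx : InJ x)
    (hA : ∀ i ∈ F, OrdC (A i))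
    (hdis : ∀ i ∈ F, ∀ j ∈ F, i ≠ j → Disjoint (A i) (A j)) :
    ∑ i ∈ F, nrm ((A i).indicator x) ^ 2 ≤ nrm x ^ 2 := by
  classical
  have main : ∀ e : ℝ, 0 < e → ∑ i ∈ F, nrm ((A i).indicator x) ^ 2 ≤ nrm x ^ 2 + F.card * e := by
    intro e he
    have hG : ∀ i, ∃ G : Finset (Finset Nd), i ∈ F → Fam G ∧
        (∀ S ∈ G, (∀ t ∈ S, t ∈ A i) ∧ S.Nonempty) ∧
        nrm ((A i).indicator x) ^ 2 - e ≤ val G x := by
      intro i
      by_cases hi : i ∈ F
      · obtain ⟨G, h⟩ := approx (x := x) (hA i hi) he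
        exact ⟨G, fun _ => h⟩
      · exact ⟨∅, fun h => absurd h hi⟩
    choose G hG using hG
    have hFam : Fam (F.biUnion G) := by
      refine ⟨?_, ?_⟩
      · intro S hS
        obtain ⟨i, hi, hSi⟩ := Finset.mem_biUnion.1 hS
        exact (hG i hi).1.1 S hSi
      · intro S hS S' hS' hne
        obtain ⟨i, hi, hSi⟩ := Finset.mem_biUnion.1 hS
        obtain ⟨j, hj, hSj⟩ := Finset.mem_biUnion.1 hS'
        by_cases hij : i = j
        · subst hij
          exact (hG i hi).1.2 S hSi S' hSj hne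
        · rw [Finset.disjoint_left]
          intro t ht ht'
          exact Set.disjoint_left.1 (hdis i hi j hj hij) (((hG i hi).2.1 S hSi).1 t ht)
            (((hG j hj).2.1 S' hSj).1 t ht')
    have hpd : (F : Set ι).PairwiseDisjoint G := by
      intro i hi j hj hij
      rw [Function.onFun, Finset.disjoint_left]
      intro S hSi hSj
      obtain ⟨t, ht⟩ := ((hG i hi).2.1 S hSi).2
      exact Set.disjoint_left.1 (hdis i hi j hj hij) (((hG i hi).2.1 S hSi).1 t ht)
        (((hG j hj).2.1 S hSj).1 t ht)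
    have h1 := le_nrm hx hFam
    have h2 : val (F.biUnion G) x = ∑ i ∈ F, val (G i) x := by
      unfold val
      exact Finset.sum_biUnion hpd
    rw [h2] at h1
    have h3 : ∑ i ∈ F, (nrm ((A i).indicator x) ^ 2 - e) ≤ ∑ i ∈ F, val (G i) x :=
      Finset.sum_le_sum fun i hi => (hG i hi).2.2
    rw [Finset.sum_sub_distrib, Finset.sum_const, nsmul_eq_mul] at h3
    linarith
  apply le_of_forall_pos_lt_add
  intro d hd
  have hc : (0 : ℝ) < F.card + 1 := by positivity
  have h1 := main (d / (F.card + 1)) (by positivity)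
  have h2 : (F.card : ℝ) * (d / (F.card + 1)) < d := by
    rw [mul_div_assoc', div_lt_iff₀ hc]
    nlinarith
  linarith

theorem main : S_INC := by
  classical
  intro x ι F A hx hA
  refine ⟨part1 x ι F A hx hA, fun hinc => ?_⟩
  have hdis : ∀ i ∈ F, ∀ j ∈ F, i ≠ j → Disjoint (A i) (A j) := by
    intro i hi j hj hij
    rw [Set.disjoint_left]
    intro t ht ht'
    exact hinc i hi j hj hij t ht t ht' List.prefix_rfl
  have hU : OrdC (⋃ i ∈ F, A i) := by
    intro s hs t ht r h1 h2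
    simp only [mem_iUnion] at hs ht ⊢
    obtain ⟨i, hi, hsi⟩ := hs
    obtain ⟨j, hj, htj⟩ := ht
    by_cases hij : i = j
    · subst hij
      exact ⟨i, hi, hA i hi s hsi t htj r h1 h2⟩
    · exact absurd (h1.trans h2) (hinc i hi j hj hij s hsi t htj)
  have hxU := ind_le hx hU
  refine ⟨hU, le_antisymm ?_ ?_⟩
  · refine (nrm_sq_le fun F0 hF0 => ?_).2
    rw [(Fam_filter hF0 hU).2 x]
    have hG := (Fam_filter hF0 hU).1
    set G := (F0.image (fun S => S.filter (· ∈ ⋃ i ∈ F, A i))).filter (·.Nonempty) with hGdef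
    have hGU : ∀ S ∈ G, (∀ t ∈ S, t ∈ ⋃ i ∈ F, A i) ∧ S.Nonempty := by
      intro S hS
      obtain ⟨hS1, hSn⟩ := Finset.mem_filter.1 hS
      obtain ⟨S0, hS0, rfl⟩ := Finset.mem_image.1 hS1
      exact ⟨fun t ht => (Finset.mem_filter.1 ht).2, hSn⟩
    have hone : ∀ S ∈ G, ∃ i ∈ F, ∀ t ∈ S, t ∈ A i := by
      intro S hS
      obtain ⟨hSU, s0, hs0⟩ := hGU S hS
      have h1 := hSU s0 hs0
      simp only [mem_iUnion] at h1
      obtain ⟨i, hi, hsi⟩ := h1
      refine ⟨i, hi, fun t ht => ?_⟩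
      have h2 := hSU t ht
      simp only [mem_iUnion] at h2
      obtain ⟨j, hj, htj⟩ := h2
      by_cases hij : i = j
      · rw [hij]; exact htj
      · exfalso
        rcases (hG.1 S hS).1 s0 hs0 t ht with h | h
        · exact hinc i hi j hj hij s0 hsi t htj h
        · exact hinc j hj i hi (Ne.symm hij) t htj s0 hsi h
    have h1 : val G x ≤ ∑ S ∈ G, ∑ i ∈ F, (if (∀ t ∈ S, t ∈ A i) then (∑ r ∈ S, x r) ^ 2 else 0) := by
      unfold val
      refine Finset.sum_le_sum fun S hS => ?_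
      obtain ⟨i, hi, hSi⟩ := hone S hS
      have h3 := Finset.single_le_sum
        (f := fun i => if (∀ t ∈ S, t ∈ A i) then (∑ r ∈ S, x r) ^ 2 else 0)
        (fun j _ => by
          show (0 : ℝ) ≤ if (∀ t ∈ S, t ∈ A j) then (∑ r ∈ S, x r) ^ 2 else 0
          split_ifs
          · exact sq_nonneg _
          · exact le_rfl) hi
      rw [if_pos hSi] at h3
      exact h3
    refine h1.trans ?_
    rw [Finset.sum_comm]
    refine Finset.sum_le_sum fun i hi => ?_
    rw [← Finset.sum_filter]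
    have hFi : Fam (G.filter (fun S => ∀ t ∈ S, t ∈ A i)) :=
      ⟨fun S hS => hG.1 S (Finset.mem_filter.1 hS).1, fun S hS S' hS' hne =>
        hG.2 S (Finset.mem_filter.1 hS).1 S' (Finset.mem_filter.1 hS').1 hne⟩
    have h4 := le_nrm (ind_le hx (hA i hi)).1 hFi
    refine le_trans (le_of_eq ?_) h4
    unfold val
    refine Finset.sum_congr rfl fun S hS => ?_
    have h5 := (Finset.mem_filter.1 hS).2
    congr 1
    refine Finset.sum_congr rfl fun r hr => ?_
    rw [Set.indicator_of_mem (h5 r hr)]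
  · have h1 := part1 ((⋃ i ∈ F, A i).indicator x) ι F A hxU.1 hA hdis
    refine le_trans (le_of_eq ?_) h1
    refine Finset.sum_congr rfl fun i hi => ?_
    rw [Set.indicator_indicator, Set.inter_eq_left.2]
    intro t ht
    simp only [mem_iUnion]
    exact ⟨i, hi, ht⟩

end Pool.Agent.R272.JT.INC
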