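import Pool.Agent.R272.JT.Stm

/-! # Project JT: piece LOW (low levels) -/

set_option autoImplicit false
open Set Filter Topology

namespace Pool.Agent.R272.JT.LOW

open Pool.Agent.R272.JT

lemma seg_single (t : Nd) : Fam {{t}} := by
  refine ⟨?_, ?_⟩
  · intro S hS
    rw [Finset.mem_singleton] at hS
    subst hS
    refine ⟨?_, ?_⟩
    · intro s hs t' ht'
      rw [Finset.mem_singleton] at hs ht'
      subst hs ht'
      exact Or.inl (List.prefix_refl _)
    · intro s hs t' ht' r h1 h2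
      rw [Finset.mem_singleton] at hs ht' ⊢
      subst hs ht'
      exact (h2.eq_of_length (le_antisymm h2.length_le h1.length_le))
  · intro S hS S' hS' hne
    rw [Finset.mem_singleton] at hS hS'
    exact absurd (hS.trans hS'.symm) hne

lemma abs_le_nrm {x : Nd → ℝ} (hx : InJ x) (t : Nd) : |x t| ≤ nrm x := by
  have h := le_nrm hx (seg_single t)
  have h1 : val {{t}} x = x t ^ 2 := by simp [val]
  rw [h1, ← sq_abs] at h
  exact le_of_sq_le_sq h (nrm_nonneg _)

lemma sum_sq_le (F : Finset (Finset Nd)) (a : Finset Nd → ℝ) :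
    ∑ S ∈ F, a S ^ 2 ≤ (∑ S ∈ F, |a S|) ^ 2 := by
  classical
  induction F using Finset.induction_on with
  | empty => simp
  | insert S F hS ih =>
    rw [Finset.sum_insert hS, Finset.sum_insert hS]
    have h1 : 0 ≤ ∑ S ∈ F, |a S| := Finset.sum_nonneg fun _ _ => abs_nonneg _
    have h2 : 0 ≤ |a S| := abs_nonneg _
    have h3 : a S ^ 2 = |a S| ^ 2 := (sq_abs _).symm
    nlinarith [mul_nonneg h1 h2]

lemma val_le {F : Finset (Finset Nd)} (hF : Fam F) (x : Nd → ℝ) (G : Finset Nd)
    (hG : ∀ t, t ∉ G → x t = 0) : val F x ≤ (∑ t ∈ G, |x t|) ^ 2 := by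
  classical
  unfold val
  refine (sum_sq_le F _).trans ?_
  refine pow_le_pow_left₀ (Finset.sum_nonneg fun _ _ => abs_nonneg _) ?_ 2
  calc ∑ S ∈ F, |∑ r ∈ S, x r| ≤ ∑ S ∈ F, ∑ r ∈ S, |x r| :=
        Finset.sum_le_sum fun S _ => Finset.abs_sum_le_sum_abs _ _
    _ = ∑ r ∈ F.biUnion id, |x r| := by
        rw [Finset.sum_biUnion]
        · rfl
        · intro S hS S' hS' hne
          exact hF.2 S hS S' hS' hne
    _ ≤ ∑ t ∈ G, |x t| := by
        have h1 : ∑ r ∈ F.biUnion id, |x r| = ∑ r ∈ (F.biUnion id).filter (· ∈ G), |x r| := by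
          rw [Finset.sum_filter]
          refine Finset.sum_congr rfl fun r _ => ?_
          by_cases hr : r ∈ G
          · rw [if_pos hr]
          · rw [if_neg hr, hG r hr, abs_zero]
        rw [h1]
        refine Finset.sum_le_sum_of_subset_of_nonneg ?_ fun _ _ _ => abs_nonneg _
        intro r hr
        exact (Finset.mem_filter.1 hr).2

lemma exists_lim (W : Ultrafilter (List ℕ)) (u : List ℕ → ℝ) (B : ℝ) (hu : ∀ n, |u n| ≤ B)
    (δ : ℝ) (hδ : 0 < δ) : ∃ c : ℝ, ∀ᶠ n in W, |u n - c| ≤ δ := by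
  have hc : IsCompact (Icc (-B) B) := isCompact_Icc
  obtain ⟨c, _, hc2⟩ := hc.ultrafilter_le_nhds (W.map u) (by
    rw [Filter.le_principal_iff]
    change ∀ᶠ n in W, u n ∈ Icc (-B) B
    exact Eventually.of_forall fun n => ⟨(abs_le.1 (hu n)).1, (abs_le.1 (hu n)).2⟩)
  refine ⟨c, ?_⟩
  have h1 : Metric.closedBall c δ ∈ 𝓝 c := Metric.closedBall_mem_nhds c hδ
  have h2 := hc2 h1
  change ∀ᶠ n in W, u n ∈ Metric.closedBall c δ at h2
  filter_upwards [h2] with n hn
  rw [Metric.mem_closedBall, Real.dist_eq] at hn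
  exact hn

theorem main : S_LOW := by
  classical
  intro k B f N0 hf ε hε
  have hGf : {t : Nd | t.length < N0}.Finite := List.finite_length_lt Bool N0
  set G : Finset Nd := hGf.toFinset with hG
  set δ : ℝ := ε / ((G.card : ℝ) + 1) with hδ
  have hδ0 : 0 < δ := by positivity
  have hlim : ∀ t : Nd, ∃ c : ℝ, ∀ᶠ n in Uk k, |f n t - c| ≤ δ / 2 := fun t =>
    exists_lim (Uk k) (fun n => f n t) B
      (fun n => (abs_le_nrm (hf n).1 t).trans (hf n).2) (δ / 2) (by linarith)
  choose c hc using hlim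
  have h1 : ∀ᶠ n in Uk k, ∀ t ∈ G, |f n t - c t| ≤ δ / 2 :=
    (Filter.eventually_all_finset G).2 fun t _ => hc t
  obtain ⟨h2, h3⟩ := marg k _ h1
  filter_upwards [h2, h3] with p hp1 hp2
  refine (nrm_le hε.le ?_).2
  intro F hF
  refine (val_le hF _ G ?_).trans ?_
  · intro t ht
    apply Set.indicator_of_notMem
    intro ht2
    apply ht
    rw [hG, Set.Finite.mem_toFinset]
    exact ht2.2
  · refine pow_le_pow_left₀ (Finset.sum_nonneg fun _ _ => abs_nonneg _) ?_ 2
    calc ∑ t ∈ G, |(lev 0 N0).indicator (f p.1 - f p.2) t| ≤ ∑ t ∈ G, δ := by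
          refine Finset.sum_le_sum fun t ht => ?_
          have e1 := hp1 t ht
          have e2 := hp2 t ht
          by_cases htl : t ∈ lev 0 N0
          · rw [Set.indicator_of_mem htl, Pi.sub_apply]
            rw [abs_le] at e1 e2 ⊢
            constructor <;> linarith [e1.1, e1.2, e2.1, e2.2]
          · rw [Set.indicator_of_notMem htl, abs_zero]
            exact hδ0.le
      _ = (G.card : ℝ) * δ := by rw [Finset.sum_const, nsmul_eq_mul]
      _ ≤ ((G.card : ℝ) + 1) * δ := by nlinarith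
      _ = ε := by rw [hδ]; field_simp

end Pool.Agent.R272.JT.LOW
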