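import Pool.Agent.R272.JT.Stm

/-! # Project JT, piece PHI (helper273) -/

set_option autoImplicit false
open Set Filter Topology

namespace Pool.Agent.R272.JT.PHI

open Pool.Agent.R272.JT

theorem ulim {I : Type} (W : Ultrafilter I) (g : I → ℝ) (M : ℝ) (h : ∀ i, 0 ≤ g i ∧ g i ≤ M) :
    ∃ L, 0 ≤ L ∧ Tendsto g W (𝓝 L) := by
  have h1 : ((W.map g : Ultrafilter ℝ) : Filter ℝ) ≤ 𝓟 (Icc 0 M) := by
    rw [le_principal_iff]
    change ∀ᶠ i in (W : Filter I), g i ∈ Icc 0 M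
    exact Eventually.of_forall (fun i => ⟨(h i).1, (h i).2⟩)
  obtain ⟨L, hL, hL2⟩ := isCompact_Icc.ultrafilter_le_nhds (W.map g) h1
  exact ⟨L, hL.1, hL2⟩

theorem pref_eq {u v t : Nd} (hu : u <+: t) (hv : v <+: t) (h : u.length = v.length) : u = v :=
  (List.prefix_of_prefix_length_le hu hv h.le).eq_of_length h

theorem nrm_ind_le {B : ℝ} {I : Type} {f : I → Nd → ℝ} (hf : Bdd B f) (i : I) {A : Set Nd}
    (hA : OrdC A) : nrm (A.indicator (f i)) ≤ B :=
  (ind_le (hf i).1 hA).2.trans (hf i).2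

theorem rho_exists (hI : S_INC) {I : Type} (W : Ultrafilter I) (B : ℝ) (f : I → Nd → ℝ)
    (hf : Bdd B f) :
    ∃ ρ : Nd → ℝ, (∀ v, 0 ≤ ρ v) ∧
      (∀ v, Tendsto (fun i => nrm ((cone v).indicator (f i)) ^ 2) W (𝓝 (ρ v))) ∧
      (∀ v, ρ (v ++ [false]) + ρ (v ++ [true]) ≤ ρ v) := by
  have hex : ∀ v : Nd, ∃ L, 0 ≤ L ∧
      Tendsto (fun i => nrm ((cone v).indicator (f i)) ^ 2) W (𝓝 L) := by
    intro v
    refine ulim W _ (B ^ 2) fun i => ⟨sq_nonneg _, ?_⟩
    exact pow_le_pow_left₀ (nrm_nonneg _) (nrm_ind_le hf i (OrdC_cone v)) 2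
  choose ρ h0 h1 using hex
  refine ⟨ρ, h0, h1, fun v => ?_⟩
  refine le_of_tendsto_of_tendsto ((h1 (v ++ [false])).add (h1 (v ++ [true]))) (h1 v)
    (Eventually.of_forall fun i => ?_)
  have hx := (ind_le (hf i).1 (OrdC_cone v)).1
  have h2 := (hI ((cone v).indicator (f i)) Bool Finset.univ (fun c => cone (v ++ [c])) hx
    (fun c _ => OrdC_cone _)).1 (by
      intro c _ c' _ hcc
      rw [Set.disjoint_left]
      intro t ht ht'
      have := pref_eq ht ht' (by simp)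
      apply hcc
      simpa using this)
  rw [Fintype.sum_bool] at h2
  have e : ∀ c : Bool, (cone (v ++ [c])).indicator ((cone v).indicator (f i)) =
      (cone (v ++ [c])).indicator (f i) := by
    intro c
    rw [Set.indicator_indicator]
    congr 1
    apply Set.inter_eq_left.2
    intro t ht
    exact (List.prefix_append v [c]).trans ht
  simp only [e] at h2
  simp only
  linarith

theorem sum_image_le {α : Type} [DecidableEq α] (s : Finset α) (g : α → Nd) (ρ : Nd → ℝ)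
    (h0 : ∀ v, 0 ≤ ρ v) : ∑ v ∈ s.image g, ρ v ≤ ∑ b ∈ s, ρ (g b) := by
  classical
  induction s using Finset.induction_on with
  | empty => simp
  | insert a s ha ih =>
    rw [Finset.image_insert, Finset.sum_insert ha]
    by_cases h : g a ∈ s.image g
    · rw [Finset.insert_eq_of_mem h]
      linarith [h0 (g a)]
    · rw [Finset.sum_insert h]
      linarith

theorem abv_small (hI : S_INC) {I : Type} (W : Ultrafilter I) (B : ℝ) (f : I → Nd → ℝ)
    (hf : Bdd B f) (ρ : Nd → ℝ) (h0 : ∀ v, 0 ≤ ρ v)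
    (h1 : ∀ v, Tendsto (fun i => nrm ((cone v).indicator (f i)) ^ 2) W (𝓝 (ρ v)))
    (N : ℕ) (E E1 D : Finset (ℕ → Bool)) (hD : ∀ b, b ∈ D ↔ b ∈ E1 ∧ b ∉ E) (ε : ℝ) (hε : 0 < ε)
    (hs : ∑ b ∈ D, ρ (brn b N) ≤ ε) :
    ∀ᶠ i in (W : Filter I), nrm ((Abv N E E1).indicator (f i)) ^ 2 ≤ 2 * ε := by
  classical
  have e1 : Abv N E E1 = ⋃ v ∈ D.image (fun b => brn b N), cone v := by
    ext t
    simp only [Abv, cone, Set.mem_ofPred_eq, Set.mem_iUnion, Finset.mem_image, exists_prop]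
    constructor
    · rintro ⟨b, hb, hb', h⟩
      exact ⟨_, ⟨b, (hD b).2 ⟨hb, hb'⟩, rfl⟩, h⟩
    · rintro ⟨_, ⟨b, hb, rfl⟩, h⟩
      exact ⟨b, ((hD b).1 hb).1, ((hD b).1 hb).2, h⟩
  have e2 : ∀ i, nrm ((Abv N E E1).indicator (f i)) ^ 2 =
      ∑ v ∈ D.image (fun b => brn b N), nrm ((cone v).indicator (f i)) ^ 2 := by
    intro i
    rw [e1]
    refine ((hI (f i) Nd (D.image (fun b => brn b N)) (fun v => cone v) (hf i).1
      (fun v _ => OrdC_cone v)).2 ?_).2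
    intro u hu v hv huv s hs t ht hst
    obtain ⟨b, -, hb⟩ := Finset.mem_image.1 hu
    obtain ⟨b', -, hb'⟩ := Finset.mem_image.1 hv
    apply huv
    refine pref_eq (List.IsPrefix.trans hs hst) ht ?_
    rw [← hb, ← hb', brn_length, brn_length]
  have h2 : Tendsto (fun i => ∑ v ∈ D.image (fun b => brn b N),
      nrm ((cone v).indicator (f i)) ^ 2) W (𝓝 (∑ v ∈ D.image (fun b => brn b N), ρ v)) :=
    tendsto_finsetSum _ fun v _ => h1 v
  have h3 : ∑ v ∈ D.image (fun b => brn b N), ρ v < 2 * ε := by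
    have := sum_image_le D (fun b => brn b N) ρ h0
    linarith
  filter_upwards [h2.eventually_lt_const h3] with i hi
  rw [e2]
  exact hi.le

theorem base (hT : S_TAIL) (B : ℝ) (f : List ℕ → Nd → ℝ) (hf : Bdd B f) (ε : ℝ) (hε : 0 < ε) :
    ∃ N0 : ℕ, ∀ E' : Finset (ℕ → Bool), ∀ N ≥ N0,
      nrm ((Om N E').indicator (f [])) ^ 2 ≤ ε := by
  obtain ⟨N0, h⟩ := hT (List ℕ) (Uk 0) B f hf (Real.sqrt ε) (Real.sqrt_pos.2 hε)
  refine ⟨N0, fun E' N hN => ?_⟩
  have h1 : ∀ N1, nrm ((lev N N1).indicator (f [])) ≤ Real.sqrt ε := by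
    intro N1
    exact (Uk_zero _).1 (h N hN N1)
  refine (nrm_sq_le fun F hF => ?_).2
  classical
  obtain ⟨N1, hN1⟩ : ∃ N1 : ℕ, ∀ S ∈ F, ∀ r ∈ S, r.length < N1 := by
    refine ⟨(F.sup fun S => S.sup fun r => r.length) + 1, fun S hS r hr => ?_⟩
    have h2 : r.length ≤ S.sup fun r => r.length := Finset.le_sup (f := fun r : Nd => r.length) hr
    have h3 : (S.sup fun r : Nd => r.length) ≤ F.sup fun S => S.sup fun r : Nd => r.length :=
      Finset.le_sup (f := fun S : Finset Nd => S.sup fun r : Nd => r.length) hS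
    omega
  have e : val F ((Om N E').indicator (f [])) =
      val F ((Om N E').indicator ((lev N N1).indicator (f []))) := by
    unfold val
    refine Finset.sum_congr rfl fun S hS => ?_
    congr 1
    refine Finset.sum_congr rfl fun r hr => ?_
    by_cases hr' : r ∈ Om N E'
    · rw [Set.indicator_of_mem hr', Set.indicator_of_mem hr',
        Set.indicator_of_mem (show r ∈ lev N N1 from ⟨hr'.1, hN1 S hS r hr⟩)]
    · rw [Set.indicator_of_notMem hr', Set.indicator_of_notMem hr']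
  rw [e]
  have h4 := ind_le (hf []).1 (OrdC_lev N N1)
  have h5 := ind_le h4.1 (OrdC_Om N E')
  calc val F ((Om N E').indicator ((lev N N1).indicator (f [])))
      ≤ nrm ((Om N E').indicator ((lev N N1).indicator (f []))) ^ 2 := le_nrm h5.1 hF
    _ ≤ (Real.sqrt ε) ^ 2 := pow_le_pow_left₀ (nrm_nonneg _) (h5.2.trans (h1 N1)) 2
    _ = ε := Real.sq_sqrt hε.le

theorem main (hI : S_INC) (hD : S_DPHI) (hT : S_TAIL) (hTr : S_TREE) (hP : S_PSI) : S_PHI := by
  intro k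
  induction k with
  | zero =>
    intro l B f hl hf hg ε hε
    obtain ⟨N0, h⟩ := base hT B f hf ε hε
    refine ⟨∅, N0, fun E' _ N hN => ?_⟩
    rw [Uk_zero]
    simpa using h E' N hN
  | succ k ih =>
    intro l B f hl hf hg ε hε
    classical
    obtain ⟨hg1, hg2⟩ := hg
    set δ : ℝ := ε / 19 with hδ
    have hδ0 : 0 < δ := by positivity
    obtain ⟨ρ, hρ0, hρ1, hρ2⟩ := rho_exists hI (Uk (k + 1)) B f hf
    obtain ⟨E0, hE0⟩ := (hTr ρ hρ0 hρ2).2 δ hδ0
    obtain ⟨N0, hN0⟩ := hT (List ℕ) (Uk (k + 1)) B f hf (Real.sqrt δ) (Real.sqrt_pos.2 hδ0)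
    refine ⟨E0, N0, fun E' hE' N hN => ?_⟩
    rw [Uk_succ]
    filter_upwards [cmp hf hg1, hg2] with a ha1 ha2
    have hfa : Bdd B (fun n => f (a :: n)) := fun n => hf (a :: n)
    obtain ⟨EF, NF, hF⟩ := ih (fun j => l (j + 1)) B (fun n => f (a :: n)) (fun j => hl _) hfa ha2
      δ hδ0
    obtain ⟨EP, NP, hPs⟩ := hP k (fun j => l (j + 1)) B (fun n => f (a :: n)) (fun j => hl _) hfa
      ha2 δ hδ0
    set E1 : Finset (ℕ → Bool) := E0 ∪ (EF ∪ EP) with hE1
    obtain ⟨N2, hN2⟩ := hE0 (E1 \ E0) Finset.disjoint_sdiff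
    set N1 : ℕ := N0 + NF + NP + N2 with hN1
    have c1 : ∀ᶠ n in Uk (k + 1), nrm ((Abv N1 E0 E1).indicator (f n)) ≤ Real.sqrt (2 * δ) := by
      have h := abv_small hI (Uk (k + 1)) B f hf ρ hρ0 hρ1 N1 E0 E1 (E1 \ E0)
        (fun b => Finset.mem_sdiff) δ hδ0 (hN2 N1 (by omega))
      filter_upwards [h] with n hn
      exact Real.le_sqrt_of_sq_le hn
    have c2 := ha1 _ _ (OrdC_Abv N1 E0 E1) c1
    have c3 := ha1 _ _ (OrdC_lev N0 N1) (hN0 N0 le_rfl N1)
    have c4 := hF E1 (by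
      intro b hb
      simp [hE1, hb]) N1 (by omega)
    have c5 := hPs E1 (by
      intro b hb
      simp [hE1, hb]) N1 (by omega)
    filter_upwards [c2, c3, c4, c5] with n d2 d3 d4 d5
    have d6 := hD (f (a :: n)) N0 N1 E0 E1 _ (hf _).1 (by omega) (by
      intro b hb
      simp [hE1, hb]) d5
    have d7 : nrm ((Om N E').indicator (f (a :: n))) ^ 2 ≤
        nrm ((Om N0 E0).indicator (f (a :: n))) ^ 2 := by
      refine pow_le_pow_left₀ (nrm_nonneg _) ?_ 2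
      refine (ind_mono (ind_le (hf _).1 (OrdC_Om N0 E0)).1 (OrdC_Om N E') ?_).2
      intro t ht
      exact ⟨hN.le.trans ht.1, fun b hb => ht.2 b (hE' hb)⟩
    have s1 : Real.sqrt δ ^ 2 = δ := Real.sq_sqrt hδ0.le
    have s2 : Real.sqrt (2 * δ) ^ 2 = 2 * δ := Real.sq_sqrt (by positivity)
    have t3 : nrm ((lev N0 N1).indicator (f (a :: n))) ^ 2 ≤ 2 * (l 0) ^ 2 + 2 * δ := by
      have := pow_le_pow_left₀ (nrm_nonneg _) d3 2
      nlinarith [sq_nonneg (l 0 - Real.sqrt δ)]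
    have t2 : nrm ((Abv N1 E0 E1).indicator (f (a :: n))) ^ 2 ≤ 2 * (l 0) ^ 2 + 2 * (2 * δ) := by
      have := pow_le_pow_left₀ (nrm_nonneg _) d2 2
      nlinarith [sq_nonneg (l 0 - Real.sqrt (2 * δ))]
    rw [Finset.sum_range_succ']
    simp only [zero_add] at d6 ⊢
    have hδε : ε = 19 * δ := by rw [hδ]; ring
    rw [hδε]
    linarith

end Pool.Agent.R272.JT.PHI
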