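import Pool.Agent.R272.JT.Stm

/-! JT-PSI (MP_a1676c_an): generic bound for PsiLe. helper710. -/

set_option autoImplicit false
open Set Filter Topology

namespace Pool.Agent.R272.JT.PSI

theorem same_len {s s' t : Nd} (h : s <+: t) (h' : s' <+: t) (hl : s.length = s'.length) :
    s = s' :=
  (List.prefix_of_prefix_length_le h h' hl.le).eq_of_length hl

/-- ultralimit -/
theorem ulim {I : Type} (W : Ultrafilter I) (g : I → ℝ) (C : ℝ) (h : ∀ i, 0 ≤ g i ∧ g i ≤ C) :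
    ∃ L : ℝ, 0 ≤ L ∧ Tendsto g W (𝓝 L) := by
  obtain ⟨L, hL, hLn⟩ := (isCompact_Icc (a := (0 : ℝ)) (b := C)).ultrafilter_le_nhds (W.map g) (by
    rw [le_principal_iff]
    show Icc 0 C ∈ Filter.map g (W : Filter I)
    exact Filter.mem_map.2 (Filter.univ_mem' (fun i => h i)))
  exact ⟨L, hL.1, hLn⟩

theorem rho_exists (hINC : S_INC) {I : Type} (W : Ultrafilter I) (B : ℝ) (f : I → Nd → ℝ)
    (hf : Bdd B f) :
    ∃ ρ : Nd → ℝ, (∀ v, 0 ≤ ρ v) ∧
      (∀ v, Tendsto (fun i => nrm ((cone v).indicator (f i)) ^ 2) W (𝓝 (ρ v))) ∧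
      (∀ v, ρ (v ++ [false]) + ρ (v ++ [true]) ≤ ρ v) := by
  have hB : ∀ i v, 0 ≤ nrm ((cone v).indicator (f i)) ^ 2 ∧
      nrm ((cone v).indicator (f i)) ^ 2 ≤ B ^ 2 := by
    intro i v
    have h1 := (ind_le (hf i).1 (OrdC_cone v)).2
    exact ⟨sq_nonneg _, pow_le_pow_left₀ (nrm_nonneg _) (h1.trans (hf i).2) 2⟩
  choose ρ h0 h1 using fun v =>
    ulim W (fun i => nrm ((cone v).indicator (f i)) ^ 2) (B ^ 2) (fun i => hB i v)
  refine ⟨ρ, h0, h1, fun v => ?_⟩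
  refine le_of_tendsto_of_tendsto ((h1 _).add (h1 _)) (h1 v) (Eventually.of_forall fun i => ?_)
  have hx := (ind_le (hf i).1 (OrdC_cone v)).1
  have h2 := (hINC ((cone v).indicator (f i)) Bool Finset.univ (fun c => cone (v ++ [c])) hx
    (fun c _ => OrdC_cone _)).1 (by
      intro c _ c' _ hne
      rw [Set.disjoint_left]
      intro t ht ht'
      apply hne
      have h3 := same_len ht ht' (by simp)
      simpa using h3)
  rw [Fintype.sum_bool] at h2
  have h3 : ∀ c : Bool, (cone (v ++ [c])).indicator ((cone v).indicator (f i)) =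
      (cone (v ++ [c])).indicator (f i) := by
    intro c
    rw [Set.indicator_indicator, Set.inter_eq_left.2]
    intro t ht
    exact (List.prefix_append v [c]).trans ht
  rw [h3, h3] at h2
  simp only
  linarith

theorem tail_set (x : Nd → ℝ) (hx : InJ x) (N0 : ℕ) (η : ℝ) (hη : 0 ≤ η)
    (h : ∀ N1, nrm ((lev N0 N1).indicator x) ≤ η) (A : Set Nd) (hA : OrdC A)
    (hAN : ∀ t ∈ A, N0 ≤ t.length) : nrm (A.indicator x) ≤ η := by
  refine (nrm_le hη fun F hF => ?_).2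
  obtain ⟨N1, hN1⟩ : ∃ N1, ∀ S ∈ F, ∀ r ∈ S, r.length < N1 := by
    refine ⟨(F.sup fun S => S.sup List.length) + 1, fun S hS r hr => ?_⟩
    exact Nat.lt_succ_of_le ((Finset.le_sup (f := List.length) hr).trans
      (Finset.le_sup (f := fun S : Finset Nd => S.sup List.length) hS))
  have e : val F (A.indicator x) = val F ((A ∩ lev N0 N1).indicator x) := by
    unfold val
    refine Finset.sum_congr rfl fun S hS => ?_
    congr 1
    refine Finset.sum_congr rfl fun r hr => ?_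
    by_cases hrA : r ∈ A
    · rw [Set.indicator_of_mem hrA,
        Set.indicator_of_mem (show r ∈ A ∩ lev N0 N1 from ⟨hrA, hAN r hrA, hN1 S hS r hr⟩)]
    · rw [Set.indicator_of_notMem hrA, Set.indicator_of_notMem (fun h => hrA h.1)]
  rw [e]
  have h1 := ind_mono (A := A ∩ lev N0 N1) (B := lev N0 N1) (ind_le hx (OrdC_lev _ _)).1
    (OrdC_inter hA (OrdC_lev _ _)) inter_subset_right
  exact (le_nrm h1.1 hF).trans (pow_le_pow_left₀ (nrm_nonneg _) (h1.2.trans (h N1)) 2)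

theorem PsiLe_mono {N : ℕ} {E : Finset (ℕ → Bool)} {x : Nd → ℝ} {c c' : ℝ}
    (h : PsiLe N E x c) (hc : c ≤ c') : PsiLe N E x c' :=
  fun w V hV => (h w V hV).trans hc

theorem sum_image_le (D : Finset (ℕ → Bool)) (g : (ℕ → Bool) → Nd) (ρ : Nd → ℝ)
    (hρ : ∀ v, 0 ≤ ρ v) : ∑ v ∈ D.image g, ρ v ≤ ∑ b ∈ D, ρ (g b) := by
  classical
  rw [Finset.sum_comp ρ g]
  refine Finset.sum_le_sum fun v hv => ?_
  obtain ⟨b, hb, hbv⟩ := Finset.mem_image.1 hv
  have h1 : 1 ≤ (D.filter (fun a => g a = v)).card :=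
    Finset.card_pos.2 ⟨b, Finset.mem_filter.2 ⟨hb, hbv⟩⟩
  rw [nsmul_eq_mul]
  have h2 : (1 : ℝ) ≤ ((D.filter (fun a => g a = v)).card : ℝ) := by exact_mod_cast h1
  nlinarith [hρ v]

theorem Abv_eq (N1 : ℕ) (E' E1 : Finset (ℕ → Bool)) (D : Finset (ℕ → Bool))
    (hD : ∀ b, b ∈ D ↔ b ∈ E1 ∧ b ∉ E') [DecidableEq Nd] :
    Abv N1 E' E1 = ⋃ v ∈ D.image (fun b => brn b N1), cone v := by
  ext t
  simp only [Abv, Set.mem_ofPred_eq, Set.mem_iUnion, Finset.mem_image, cone]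
  constructor
  · rintro ⟨b, h1, h2, h3⟩
    exact ⟨brn b N1, ⟨b, (hD b).2 ⟨h1, h2⟩, rfl⟩, h3⟩
  · rintro ⟨v, ⟨b, hb, rfl⟩, h3⟩
    exact ⟨b, ((hD b).1 hb).1, ((hD b).1 hb).2, h3⟩

theorem abv_norm (hINC : S_INC) (x : Nd → ℝ) (hx : InJ x) (N1 : ℕ) (V : Finset Nd)
    (hV : ∀ v ∈ V, v.length = N1) :
    nrm ((⋃ v ∈ V, cone v).indicator x) ^ 2 = ∑ v ∈ V, nrm ((cone v).indicator x) ^ 2 := by
  refine ((hINC x Nd V (fun v => cone v) hx (fun v _ => OrdC_cone v)).2 ?_).2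
  intro v hv v' hv' hne s hs t ht hst
  apply hne
  have h1 : v <+: t := List.IsPrefix.trans hs hst
  exact same_len h1 ht (by rw [hV v hv, hV v' hv'])

theorem main (hINC : S_INC) (hDPSI : S_DPSI) (hTAIL : S_TAIL) (hTREE : S_TREE) : S_PSI := by
  classical
  intro k l B f hl hf hG ε hε
  rcases k with _ | k
  · -- one vector
    have hx := (hf []).1
    have htail : ∀ η > 0, ∃ N0, ∀ N ≥ N0, ∀ N1, nrm ((lev N N1).indicator (f [])) ≤ η := by
      intro η hη
      obtain ⟨N0, h⟩ := hTAIL Unit (pure ()) B (fun _ => f []) (fun _ => hf []) η hη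
      refine ⟨N0, fun N hN N1 => ?_⟩
      obtain ⟨_, h'⟩ := (h N hN N1).exists
      exact h'
    obtain ⟨N0, hN0⟩ := htail (√(ε / 4)) (by positivity)
    refine ⟨∅, N0, fun E' _ N hN => ?_⟩
    rw [Uk_zero]
    obtain ⟨N2, hN2⟩ := htail (√(ε / (4 * 2 ^ N))) (by positivity)
    have hκ : ∀ w : Nd, w.length = max N N2 → (∀ b ∈ E', w ≠ brn b (max N N2)) →
        nrm ((cone w).indicator (f [])) ^ 2 ≤ ε / (4 * 2 ^ N) := by
      intro w hw _
      have h1 : nrm ((cone w).indicator (f [])) ≤ √(ε / (4 * 2 ^ N)) := by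
        refine tail_set (f []) hx (max N N2) _ (Real.sqrt_nonneg _)
          (fun N1 => hN2 _ (le_max_right _ _) N1) (cone w) (OrdC_cone w) ?_
        intro t ht
        rw [← hw]
        exact List.IsPrefix.length_le ht
      have h2 := pow_le_pow_left₀ (nrm_nonneg _) h1 2
      rwa [Real.sq_sqrt (by positivity)] at h2
    have h := hDPSI (f []) N (max N N2) E' E' (ε / (4 * 2 ^ N)) hx (le_max_left _ _)
      (Finset.Subset.refl _) (by positivity) hκ
    refine PsiLe_mono h ?_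
    have h3 := pow_le_pow_left₀ (nrm_nonneg _) (hN0 N hN (max N N2)) 2
    rw [Real.sq_sqrt (by positivity)] at h3
    have h4 : Abv (max N N2) E' E' = ∅ := by
      ext t
      simp only [Abv, Set.mem_ofPred_eq, Set.mem_empty_iff_false, iff_false]
      rintro ⟨b, h5, h6, -⟩
      exact h6 h5
    rw [h4, Set.indicator_empty]
    have h5 : nrm (fun _ : Nd => (0 : ℝ)) = 0 := InJ_zero.2
    rw [h5]
    have h6 : 2 * 2 ^ N * (ε / (4 * 2 ^ N)) = ε / 2 := by
      field_simp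
      ring
    rw [h6]
    nlinarith [sq_nonneg (l 0)]
  · obtain ⟨hG1, -⟩ := hG
    have hcmp := cmp hf hG1
    obtain ⟨ρ, hρ0, hρt, hρs⟩ := rho_exists hINC (Uk (k + 1)) B f hf
    obtain ⟨-, hT2⟩ := hTREE ρ hρ0 hρs
    obtain ⟨E, hE⟩ := hT2 (ε / 20) (by positivity)
    obtain ⟨N0, hN0⟩ := hTAIL (List ℕ) (Uk (k + 1)) B f hf (√(ε / 8)) (by positivity)
    refine ⟨E, N0, fun E' hE' N hN => ?_⟩
    rw [Uk_succ]
    filter_upwards [hcmp] with a ha
    have hfa : Bdd B (fun n => f (a :: n)) := fun n => hf (a :: n)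
    obtain ⟨ρa, hρa0, hρat, hρas⟩ := rho_exists hINC (Uk k) B (fun n => f (a :: n)) hfa
    obtain ⟨hT1, -⟩ := hTREE ρa hρa0 hρas
    obtain ⟨E'', N'', hE''⟩ := hT1 (ε / 20 / 2 ^ N) (by positivity)
    obtain ⟨N3, hN3⟩ := hE ((E' ∪ E'') \ E') (by
      rw [Finset.disjoint_left]
      intro b hb hb'
      exact (Finset.mem_sdiff.1 hb').2 (hE' hb))
    obtain ⟨N1, h1, h2, h3⟩ : ∃ N1, N ≤ N1 ∧ N'' ≤ N1 ∧ N3 ≤ N1 :=
      ⟨max N (max N'' N3), le_max_left _ _, (le_max_left _ _).trans (le_max_right _ _),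
        (le_max_right _ _).trans (le_max_right _ _)⟩
    obtain ⟨VN, hVN⟩ : ∃ VN : Finset Nd, VN = ((E' ∪ E'') \ E').image (fun b => brn b N1) :=
      ⟨_, rfl⟩
    have hVl : ∀ v ∈ VN, v.length = N1 := by
      intro v hv
      rw [hVN, Finset.mem_image] at hv
      obtain ⟨b, -, rfl⟩ := hv
      exact brn_length b N1
    have hAeq : Abv N1 E' (E' ∪ E'') = ⋃ v ∈ VN, cone v := by
      rw [hVN]
      exact Abv_eq N1 E' (E' ∪ E'') _ (fun b => Finset.mem_sdiff)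
    have hρsum : ∑ v ∈ VN, ρ v < 2 * (ε / 20) := by
      have h4 := sum_image_le ((E' ∪ E'') \ E') (fun b => brn b N1) ρ hρ0
      rw [← hVN] at h4
      have h5 := hN3 N1 h3
      have h6 : ∑ v ∈ VN, ρ v ≤ ε / 20 := by
        refine h4.trans ?_
        exact h5
      linarith
    have hAbv : ∀ᶠ n in Uk (k + 1), nrm ((Abv N1 E' (E' ∪ E'')).indicator (f n)) ≤
        √(2 * (ε / 20)) := by
      have h4 : Tendsto (fun n => ∑ v ∈ VN, nrm ((cone v).indicator (f n)) ^ 2) (Uk (k + 1))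
          (𝓝 (∑ v ∈ VN, ρ v)) := tendsto_finsetSum _ (fun v _ => hρt v)
      filter_upwards [h4.eventually (Iio_mem_nhds hρsum)] with n hn
      rw [hAeq]
      apply Real.le_sqrt_of_sq_le
      rw [abv_norm hINC (f n) (hf n).1 N1 VN hVl]
      exact le_of_lt hn
    have hAbv' := ha _ _ (OrdC_Abv N1 E' (E' ∪ E'')) hAbv
    have hlev' := ha _ _ (OrdC_lev N N1) (hN0 N hN N1)
    have hcone : ∀ᶠ n in Uk k, ∀ w ∈ {w : Nd | w.length = N1}, (∀ b ∈ E' ∪ E'', w ≠ brn b N1) →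
        nrm ((cone w).indicator (f (a :: n))) ^ 2 ≤ ε / 20 / 2 ^ N := by
      rw [Filter.eventually_all_finite (List.finite_length_eq Bool N1)]
      intro w hw
      by_cases hoff : ∀ b ∈ E' ∪ E'', w ≠ brn b N1
      · have h4 : ρa w < ε / 20 / 2 ^ N := by
          by_contra hlt
          rw [not_lt] at hlt
          obtain ⟨b, hb, hwb⟩ := hE'' w (by rw [show w.length = N1 from hw]; exact h2) hlt
          rw [show w.length = N1 from hw] at hwb
          exact hoff b (Finset.mem_union_right _ hb) hwb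
        filter_upwards [(hρat w).eventually (Iio_mem_nhds h4)] with n hn _
        exact le_of_lt hn
      · exact Eventually.of_forall fun n h => absurd h hoff
    filter_upwards [hAbv', hlev', hcone] with n g1 g2 g3
    have h := hDPSI (f (a :: n)) N N1 E' (E' ∪ E'') (ε / 20 / 2 ^ N) (hf _).1 h1
      Finset.subset_union_left (by positivity) (fun w hw hoff => g3 w hw hoff)
    refine PsiLe_mono h ?_
    have g1' := pow_le_pow_left₀ (nrm_nonneg _) g1 2
    have g2' := pow_le_pow_left₀ (nrm_nonneg _) g2 2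
    have e1 : (√(2 * (ε / 20))) ^ 2 = 2 * (ε / 20) := Real.sq_sqrt (by positivity)
    have e2 : (√(ε / 8)) ^ 2 = ε / 8 := Real.sq_sqrt (by positivity)
    have e3 : 2 * 2 ^ N * (ε / 20 / 2 ^ N) = ε / 10 := by
      field_simp
      ring
    rw [e3]
    have i1 : (l 0 + √(2 * (ε / 20))) ^ 2 ≤ 2 * l 0 ^ 2 + 2 * (√(2 * (ε / 20))) ^ 2 := by
      nlinarith [sq_nonneg (l 0 - √(2 * (ε / 20)))]
    have i2 : (l 0 + √(ε / 8)) ^ 2 ≤ 2 * l 0 ^ 2 + 2 * (√(ε / 8)) ^ 2 := by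
      nlinarith [sq_nonneg (l 0 - √(ε / 8))]
    rw [e1] at i1
    rw [e2] at i2
    linarith

end Pool.Agent.R272.JT.PSI
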