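import Pool.Agent.R272.JT.Stm

/-! # Project JT: RAM, Ramsey extraction from the product ultrafilter -/

set_option autoImplicit false
open Set Filter Topology

namespace Pool.Agent.R272.JT.RAM

/-- the flattened condition -/
def Gd : ℕ → (List ℕ → List ℕ → Prop) → List ℕ → Prop
  | k, P, [] => ∀ᶠ (p : List ℕ × List ℕ) in Uk2 k, P p.1 p.2
  | 0, _, _ :: _ => False
  | k + 1, P, [a] => ∀ᶠ a' in hyperfilter ℕ, ∀ᶠ (p : List ℕ × List ℕ) in Uk2 k,
      P (a :: p.1) (a' :: p.2)
  | k + 1, P, a :: a' :: s => Gd k (fun n m => P (a :: n) (a' :: m)) s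

theorem Gd_nil (k : ℕ) (P : List ℕ → List ℕ → Prop) :
    Gd k P [] ↔ ∀ᶠ (p : List ℕ × List ℕ) in Uk2 k, P p.1 p.2 := by
  cases k <;> simp [Gd]

theorem Gd_step : ∀ (s : List ℕ) (k : ℕ) (P : List ℕ → List ℕ → Prop), s.length < 2 * k →
    Gd k P s → ∀ᶠ a in hyperfilter ℕ, Gd k P (s ++ [a])
  | [], k, P, h, hs => by
    obtain ⟨k, rfl⟩ : ∃ j, k = j + 1 := ⟨k - 1, by simp at h; omega⟩
    rw [Gd_nil, Uk2_succ] at hs
    exact hs
  | [a], k, P, h, hs => by
    obtain ⟨k, rfl⟩ : ∃ j, k = j + 1 := ⟨k - 1, by simp at h; omega⟩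
    have hs' : ∀ᶠ a' in hyperfilter ℕ, ∀ᶠ (p : List ℕ × List ℕ) in Uk2 k,
      P (a :: p.1) (a' :: p.2) := hs
    filter_upwards [hs'] with a' ha'
    change Gd k (fun n m => P (a :: n) (a' :: m)) []
    rw [Gd_nil]
    exact ha'
  | a :: a' :: s, k, P, h, hs => by
    obtain ⟨k, rfl⟩ : ∃ j, k = j + 1 := ⟨k - 1, by simp at h; omega⟩
    exact Gd_step s k (fun n m => P (a :: n) (a' :: m)) (by simp at h; omega) hs

/-- flattening -/
def fl : List ℕ → List ℕ → List ℕ
  | a :: n, a' :: m => a :: a' :: fl n m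
  | _, _ => []

theorem fl_spec : ∀ (n m : List ℕ) (c : ℕ), Inter c n m →
    (fl n m).Pairwise (· < ·) ∧ (∀ x ∈ fl n m, c ≤ x) ∧ (fl n m).length = 2 * n.length
  | [], [], c, _ => by simp [fl]
  | [], _ :: _, c, h => h.elim
  | _ :: _, [], c, h => h.elim
  | a :: n, a' :: m, c, h => by
    obtain ⟨h1, h2, h3⟩ := h
    obtain ⟨e1, e2, e3⟩ := fl_spec n m (a' + 1) h3
    refine ⟨?_, ?_, ?_⟩
    · simp only [fl, List.pairwise_cons]
      refine ⟨?_, ?_, e1⟩
      · intro x hx
        rcases List.mem_cons.1 hx with rfl | hx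
        · exact h2
        · have := e2 x hx; omega
      · intro x hx
        have := e2 x hx; omega
    · intro x hx
      simp only [fl, List.mem_cons] at hx
      rcases hx with rfl | rfl | hx
      · exact h1
      · omega
      · have := e2 x hx; omega
    · simp only [fl, List.length_cons, e3]; ring

theorem Gd_fl (φ : ℕ → ℕ) : ∀ (n m : List ℕ) (c : ℕ) (P : List ℕ → List ℕ → Prop), Inter c n m →
    Gd n.length P ((fl n m).map φ) → P (n.map φ) (m.map φ)
  | [], [], c, P, _, h => by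
    have h' : Gd 0 P [] := h
    rw [Gd_nil, Uk2_zero] at h'
    exact h'
  | [], _ :: _, c, _, h, _ => h.elim
  | _ :: _, [], c, _, h, _ => h.elim
  | a :: n, a' :: m, c, P, h, hg => by
    have hg' : Gd n.length (fun n m => P (φ a :: n) (φ a' :: m)) ((fl n m).map φ) := hg
    exact Gd_fl φ n m (a' + 1) _ h.2.2 hg'

/-- one extension step of the construction -/
theorem ext (r : ℕ) (G : List ℕ → Prop) (hstep : ∀ s : List ℕ, s.length < r → G s →
    ∀ᶠ a in hyperfilter ℕ, G (s ++ [a])) (L : List ℕ)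
    (hL : ∀ s, s.Sublist L → s.length ≤ r → G s) :
    ∃ a : ℕ, (∀ x ∈ L, x < a) ∧ ∀ s, s.Sublist (L ++ [a]) → s.length ≤ r → G s := by
  have h1 : ∀ᶠ a in hyperfilter ℕ, ∀ s ∈ L.sublists.toFinset, s.length < r → G (s ++ [a]) := by
    rw [eventually_all_finset]
    intro s hs
    have hs' : s.Sublist L := by simpa using hs
    by_cases hr : s.length < r
    · filter_upwards [hstep s hr (hL s hs' hr.le)] with a ha _ using ha
    · exact Eventually.of_forall fun a h => absurd h hr
  have h2 : ∀ᶠ a in hyperfilter ℕ, ∀ x ∈ L.toFinset, x < a := by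
    rw [eventually_all_finset]
    intro x _
    exact Nat.hyperfilter_le_atTop (eventually_gt_atTop x)
  obtain ⟨a, ha1, ha2⟩ := (h1.and h2).exists
  refine ⟨a, fun x hx => ha2 x (by simpa using hx), fun s hs hr => ?_⟩
  obtain ⟨s1, s2, rfl, h3, h4⟩ := List.sublist_append_iff.1 hs
  rcases List.sublist_singleton.1 h4 with rfl | rfl
  · simpa using hL s1 h3 (by simpa using hr)
  · exact ha1 s1 (by simpa using h3) (by simp at hr; omega)

theorem sub_range : ∀ (N : ℕ) (s : List ℕ), s.Pairwise (· < ·) → (∀ x ∈ s, x < N) →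
    s.Sublist (List.range N)
  | 0, s, _, h => by
    have : s = [] := List.eq_nil_iff_forall_not_mem.2 fun x hx => absurd (h x hx) (by omega)
    subst this; simp
  | N + 1, s, hp, h => by
    rw [List.range_succ]
    rcases List.eq_nil_or_concat s with rfl | ⟨t, x, rfl⟩
    · simp
    · rw [List.concat_eq_append] at hp h ⊢
      rw [List.pairwise_append] at hp
      have hx : x < N + 1 := h x (by simp)
      have ht : ∀ y ∈ t, y < x := fun y hy => hp.2.2 y hy x (by simp)
      rcases Nat.lt_succ_iff_lt_or_eq.1 hx with hx | rfl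
      · refine List.Sublist.trans (sub_range N (t ++ [x]) ?_ ?_) (List.sublist_append_left _ _)
        · rw [List.pairwise_append]; exact hp
        · intro y hy
          rcases List.mem_append.1 hy with hy | hy
          · have := ht y hy; omega
          · simp at hy; omega
      · exact List.Sublist.append (sub_range x t hp.1 ht) (List.Sublist.refl _)

theorem extract (r : ℕ) (G : List ℕ → Prop) (h0 : G []) (hstep : ∀ s : List ℕ, s.length < r →
    G s → ∀ᶠ a in hyperfilter ℕ, G (s ++ [a])) :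
    ∃ φ : ℕ → ℕ, StrictMono φ ∧ ∀ s : List ℕ, s.Pairwise (· < ·) → s.length ≤ r →
      G (s.map φ) := by
  classical
  let St := {L : List ℕ // ∀ s, s.Sublist L → s.length ≤ r → G s}
  let nx : St → ℕ := fun L => (ext r G hstep L.1 L.2).choose
  have hnx : ∀ L : St, (∀ x ∈ L.1, x < nx L) ∧
      ∀ s, s.Sublist (L.1 ++ [nx L]) → s.length ≤ r → G s :=
    fun L => (ext r G hstep L.1 L.2).choose_spec
  let st : ℕ → St := fun i => Nat.rec ⟨[], fun s hs _ => by
    rw [List.sublist_nil.1 hs]; exact h0⟩ (fun _ L => ⟨L.1 ++ [nx L], (hnx L).2⟩) i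
  let φ : ℕ → ℕ := fun i => nx (st i)
  have hst : ∀ i, (st (i + 1)).1 = (st i).1 ++ [φ i] := fun i => rfl
  have hst' : ∀ i, (st i).1 = (List.range i).map φ := by
    intro i
    induction i with
    | zero => rfl
    | succ i ih => rw [hst, ih, List.range_succ, List.map_append]; rfl
  refine ⟨φ, strictMono_nat_of_lt_succ fun i => ?_, fun s hs hr => ?_⟩
  · exact (hnx (st (i + 1))).1 (φ i) (by rw [hst]; simp)
  · obtain ⟨N, hN⟩ : ∃ N, ∀ x ∈ s, x < N :=
      ⟨s.sum + 1, fun x hx => Nat.lt_succ_of_le (List.single_le_sum (by simp) x hx)⟩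
    refine (st N).2 (s.map φ) ?_ (by simpa using hr)
    rw [hst']
    exact (sub_range N s hs hN).map φ

theorem main : S_RAM := by
  intro k P hP
  obtain ⟨φ, h1, h2⟩ := extract (2 * k) (Gd k P) ((Gd_nil k P).2 hP)
    (fun s hs hg => Gd_step s k P hs hg)
  refine ⟨φ, h1, fun n m hn hi => ?_⟩
  obtain ⟨e1, _, e3⟩ := fl_spec n m 0 hi
  have h3 := h2 (fl n m) e1 (by rw [e3, hn])
  rw [← hn] at h3
  exact Gd_fl φ n m 0 P hi h3

end Pool.Agent.R272.JT.RAM
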