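import Pool.Agent.R272.JT.Stm

/-! # Piece SP1 of project JT: the James tree space is a Banach space -/

set_option autoImplicit false
open Set Filter Topology

namespace Pool.Agent.R272.JT.SP1

/-- the submodule of the elements of the James tree space -/
def Jsub : Submodule ℝ (Nd → ℝ) where
  carrier := {x | InJ x}
  add_mem' := fun hx hy => (InJ_add hx hy).1
  zero_mem' := InJ_zero.1
  smul_mem' := fun c _ hx => (InJ_smul c hx).1

/-- the James tree space -/
def JT : Type := Jsub

instance : AddCommGroup JT := inferInstanceAs (AddCommGroup Jsub)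
instance : Module ℝ JT := inferInstanceAs (Module ℝ Jsub)

/-- the inclusion -/
def inc : JT →ₗ[ℝ] (Nd → ℝ) := Jsub.subtype

lemma inc_inJ (x : JT) : InJ (inc x) := x.2

lemma inc_inj {x y : JT} (h : inc x = inc y) : x = y := Subtype.ext h

lemma Fam_single (t : Nd) : Fam {{t}} := by
  refine ⟨?_, ?_⟩
  · intro S hS
    rw [Finset.mem_singleton] at hS
    subst hS
    refine ⟨?_, ?_⟩
    · intro s hs r hr
      rw [Finset.mem_singleton] at hs hr
      left
      rw [hs, hr]
    · intro s hs r hr q h1 h2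
      rw [Finset.mem_singleton] at hs hr ⊢
      subst hs
      subst hr
      exact h2.eq_of_length (le_antisymm h2.length_le h1.length_le)
  · intro S hS S' hS' hne
    rw [Finset.mem_singleton] at hS hS'
    exact absurd (hS.trans hS'.symm) hne

lemma abs_le_nrm {x : Nd → ℝ} (hx : InJ x) (t : Nd) : |x t| ≤ nrm x := by
  have h := le_nrm hx (Fam_single t)
  simp only [val, Finset.sum_singleton] at h
  rw [← sq_abs] at h
  exact le_of_sq_le_sq h (nrm_nonneg x)

/-- the norm -/
noncomputable def jn : AddGroupNorm JT where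
  toFun x := nrm (inc x)
  map_zero' := by rw [map_zero]; exact InJ_zero.2
  add_le' x y := by rw [map_add]; exact (InJ_add (inc_inJ x) (inc_inJ y)).2
  neg' x := by rw [map_neg]; exact (InJ_neg (inc_inJ x)).2
  eq_zero_of_map_eq_zero' x h := by
    apply inc_inj
    rw [map_zero]
    funext t
    have h1 := abs_le_nrm (inc_inJ x) t
    have h2 : nrm (inc x) = 0 := h
    rw [h2] at h1
    exact abs_eq_zero.mp (le_antisymm h1 (abs_nonneg _))

noncomputable instance : NormedAddCommGroup JT := jn.toNormedAddCommGroup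

lemma norm_eq (x : JT) : ‖x‖ = nrm (inc x) := rfl

noncomputable instance : NormedSpace ℝ JT where
  norm_smul_le c x := by
    rw [norm_eq, norm_eq, map_smul, Real.norm_eq_abs]
    exact (InJ_smul c (inc_inJ x)).2.le

lemma complete : CompleteSpace JT := by
  refine Metric.complete_of_cauchySeq_tendsto fun u hu => ?_
  rw [Metric.cauchySeq_iff] at hu
  have hc : ∀ t, CauchySeq (fun n => inc (u n) t) := by
    intro t
    rw [Metric.cauchySeq_iff]
    intro ε hε
    obtain ⟨N, hN⟩ := hu ε hε
    refine ⟨N, fun m hm n hn => lt_of_le_of_lt ?_ (hN m hm n hn)⟩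
    have h1 := abs_le_nrm (inc_inJ (u m - u n)) t
    rw [Real.dist_eq, dist_eq_norm, norm_eq]
    rw [map_sub] at h1 ⊢
    exact h1
  choose x hx using fun t => cauchySeq_tendsto_of_complete (hc t)
  have key : ∀ ε : ℝ, 0 < ε → ∃ N, ∀ n, N ≤ n → InJ (inc (u n) - x) ∧ nrm (inc (u n) - x) ≤ ε := by
    intro ε hε
    obtain ⟨N, hN⟩ := hu ε hε
    refine ⟨N, fun n hn => nrm_le hε.le fun F hF => ?_⟩
    have hlim : Tendsto (fun m => val F (inc (u n) - inc (u m))) atTop
        (𝓝 (val F (inc (u n) - x))) := by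
      unfold val
      refine tendsto_finsetSum _ fun S _ => ?_
      refine Tendsto.pow ?_ 2
      refine tendsto_finsetSum _ fun r _ => ?_
      simp only [Pi.sub_apply]
      exact tendsto_const_nhds.sub (hx r)
    refine le_of_tendsto hlim ?_
    filter_upwards [eventually_ge_atTop N] with m hm
    have h1 := hN n hn m hm
    rw [dist_eq_norm, norm_eq, map_sub] at h1
    have h2 : InJ (inc (u n) - inc (u m)) := by
      rw [← map_sub]; exact inc_inJ _
    exact (le_nrm h2 hF).trans (pow_le_pow_left₀ (nrm_nonneg _) h1.le 2)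
  have hxJ : InJ x := by
    obtain ⟨N, hN⟩ := key 1 one_pos
    have h1 := (InJ_sub (inc_inJ (u N)) (hN N le_rfl).1).1
    simpa using h1
  obtain ⟨X, hX⟩ : ∃ X : JT, inc X = x := ⟨⟨x, hxJ⟩, rfl⟩
  refine ⟨X, ?_⟩
  rw [Metric.tendsto_atTop]
  intro ε hε
  obtain ⟨N, hN⟩ := key (ε / 2) (by linarith)
  refine ⟨N, fun n hn => ?_⟩
  rw [dist_eq_norm, norm_eq, map_sub]
  have h1 := (hN n hn).2
  rw [hX]
  linarith

theorem main : S_SP1 := by
  refine ⟨JT, inferInstance, inferInstance, inc, complete, fun x => ⟨inc_inJ x, norm_eq x⟩,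
    fun y hy => ⟨⟨y, hy⟩, rfl⟩⟩

end Pool.Agent.R272.JT.SP1
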