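import Pool.Agent.R272.JT.Stm

/-!
# SP2: the James tree space is separable
-/

set_option autoImplicit false
open Set Filter Topology

namespace Pool.Agent.R272.JT.SP2

theorem InJ_single (t : Nd) : InJ (Pi.single t (1 : ℝ)) := by
  classical
  refine ⟨1, fun F hF => ?_⟩
  have h1 : ∀ S : Finset Nd, ∑ r ∈ S, (Pi.single t (1 : ℝ) : Nd → ℝ) r = if t ∈ S then 1 else 0 := by
    intro S
    simp [Pi.single_apply]
  unfold val
  simp only [h1]
  by_cases h : ∃ S ∈ F, t ∈ S
  · obtain ⟨S, hS, ht⟩ := h
    rw [Finset.sum_eq_single S]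
    · rw [if_pos ht]
      norm_num
    · intro S' hS' hne
      rw [if_neg]
      · norm_num
      · intro ht'
        exact Finset.disjoint_left.1 (hF.2 S' hS' S hS hne) ht' ht
    · intro h
      exact absurd hS h
  · push Not at h
    rw [Finset.sum_eq_zero]
    · exact zero_le_one
    · intro S hS
      rw [if_neg (h S hS)]
      norm_num

/-- the part of the levels `≥ N` -/
theorem tail_le {x : Nd → ℝ} {N : ℕ} {η : ℝ} (hx : InJ x) (hη : 0 ≤ η)
    (h : ∀ N1, nrm ((lev N N1).indicator x) ≤ η) :
    nrm ({t : Nd | N ≤ t.length}.indicator x) ≤ η := by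
  refine (nrm_le hη fun F hF => ?_).2
  -- a bound for the lengths
  obtain ⟨N1, hN1⟩ : ∃ N1, ∀ S ∈ F, ∀ t ∈ S, t.length < N1 := by
    refine ⟨(F.biUnion id).sup List.length + 1, fun S hS t ht => ?_⟩
    have h1 : t ∈ F.biUnion id := Finset.mem_biUnion.2 ⟨S, hS, ht⟩
    exact Nat.lt_succ_of_le (Finset.le_sup (f := List.length) h1)
  have h1 : val F ({t : Nd | N ≤ t.length}.indicator x) = val F ((lev N N1).indicator x) := by
    unfold val
    refine Finset.sum_congr rfl fun S hS => ?_
    congr 1
    refine Finset.sum_congr rfl fun t ht => ?_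
    have h2 := hN1 S hS t ht
    by_cases h3 : N ≤ t.length
    · rw [Set.indicator_of_mem (show t ∈ {t : Nd | N ≤ t.length} from h3),
        Set.indicator_of_mem (show t ∈ lev N N1 from ⟨h3, h2⟩)]
    · rw [Set.indicator_of_notMem (show t ∉ {t : Nd | N ≤ t.length} from h3),
        Set.indicator_of_notMem (show t ∉ lev N N1 from fun h4 => h3 h4.1)]
  rw [h1]
  exact (le_nrm (ind_le hx (OrdC_lev N N1)).1 hF).trans
    (pow_le_pow_left₀ (nrm_nonneg _) (h N1) 2)

theorem main (hT : S_TAIL) : S_SP2 := by
  intro X _ _ ι hι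
  classical
  have he : ∀ t : Nd, ∃ x : X, ι x = Pi.single t 1 := fun t => hι.2 _ (InJ_single t)
  choose e he using he
  have hsep : TopologicalSpace.IsSeparable (Submodule.span ℝ (Set.range e) : Set X) :=
    (Set.countable_range e).isSeparable.span
  have hcl : closure (Submodule.span ℝ (Set.range e) : Set X) = Set.univ := by
    rw [Set.eq_univ_iff_forall]
    intro x
    rw [Metric.mem_closure_iff]
    intro ε hε
    obtain ⟨hx, hxn⟩ := hι.1 x
    obtain ⟨N, hN⟩ := hT Unit (pure ()) (nrm (ι x)) (fun _ => ι x) (fun _ => ⟨hx, le_rfl⟩)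
      (ε / 2) (half_pos hε)
    have hN' : ∀ N1, nrm ((lev N N1).indicator (ι x)) ≤ ε / 2 := fun N1 => by
      have h1 := hN N le_rfl N1
      exact h1.exists.choose_spec
    have hfin := List.finite_length_lt Bool N
    refine ⟨∑ t ∈ hfin.toFinset, (ι x t) • e t, ?_, ?_⟩
    · exact Submodule.sum_mem _ fun t _ =>
        Submodule.smul_mem _ _ (Submodule.subset_span ⟨t, rfl⟩)
    · rw [dist_eq_norm, (hι.1 _).2]
      have h2 : ι (x - ∑ t ∈ hfin.toFinset, (ι x t) • e t) =
          {t : Nd | N ≤ t.length}.indicator (ι x) := by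
        rw [map_sub, map_sum]
        ext t
        simp only [map_smul, he, Pi.sub_apply, Finset.sum_apply, Pi.smul_apply, smul_eq_mul,
          Pi.single_apply, mul_ite, mul_one, mul_zero]
        rw [Finset.sum_ite_eq]
        by_cases h3 : N ≤ t.length
        · rw [Set.indicator_of_mem (show t ∈ {t : Nd | N ≤ t.length} from h3), if_neg, sub_zero]
          intro h4
          have h5 : t.length < N := hfin.mem_toFinset.1 h4
          omega
        · rw [Set.indicator_of_notMem (show t ∉ {t : Nd | N ≤ t.length} from h3), if_pos, sub_self]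
          exact hfin.mem_toFinset.2 (show t.length < N by omega)
      rw [h2]
      have h3 := tail_le hx (half_pos hε).le hN'
      linarith
  have h1 := hsep.closure
  rw [hcl] at h1
  exact TopologicalSpace.isSeparable_univ_iff.1 h1

end Pool.Agent.R272.JT.SP2
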