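import Pool.Agent.R272.JT.Stm

/-! # Project JT: the dual of the James tree space is not separable -/

set_option autoImplicit false
open Set Filter Topology

namespace Pool.Agent.R272.JT.SP3

open Pool.Agent.R272.JT

theorem brn_len_inj {b : ℕ → Bool} {i j : ℕ} (h : brn b i = brn b j) : i = j := by
  have := congrArg List.length h
  rwa [brn_length, brn_length] at this

theorem brn_prefix (b : ℕ → Bool) {i j : ℕ} (h : i ≤ j) : brn b i <+: brn b j := by
  rw [← brn_take b j i h]
  exact List.take_prefix _ _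

theorem isSeg_branch (b : ℕ → Bool) (N N' : ℕ) : IsSeg ((Finset.Ico N N').image (brn b)) := by
  refine ⟨?_, ?_⟩
  · intro s hs t ht
    obtain ⟨i, _, rfl⟩ := Finset.mem_image.1 hs
    obtain ⟨j, _, rfl⟩ := Finset.mem_image.1 ht
    rcases le_total i j with h | h
    · exact Or.inl (brn_prefix b h)
    · exact Or.inr (brn_prefix b h)
  · intro s hs t ht r h1 h2
    obtain ⟨i, hi, rfl⟩ := Finset.mem_image.1 hs
    obtain ⟨j, hj, rfl⟩ := Finset.mem_image.1 ht
    rw [Finset.mem_Ico] at hi hj
    have l1 := h1.length_le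
    have l2 := h2.length_le
    rw [brn_length] at l1 l2
    exact Finset.mem_image.2 ⟨r.length, Finset.mem_Ico.2 ⟨hi.1.trans l1, l2.trans_lt hj.2⟩,
      (prefix_brn h2).symm⟩

theorem bs_le {y : Nd → ℝ} (hy : InJ y) (b : ℕ → Bool) (N N' : ℕ) : |bs b N N' y| ≤ nrm y := by
  have hF : Fam {(Finset.Ico N N').image (brn b)} := by
    refine ⟨?_, ?_⟩
    · intro S hS
      rw [Finset.mem_singleton.1 hS]
      exact isSeg_branch b N N'
    · intro S hS S' hS' hne
      exact absurd ((Finset.mem_singleton.1 hS).trans (Finset.mem_singleton.1 hS').symm) hne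
  have h := le_nrm hy hF
  have e : val {(Finset.Ico N N').image (brn b)} y = (bs b N N' y) ^ 2 := by
    unfold val bs
    rw [Finset.sum_singleton, Finset.sum_image]
    intro i _ j _ hij
    exact brn_len_inj hij
  rw [e] at h
  exact abs_le_of_sq_le_sq h (nrm_nonneg y)

theorem bs_add (b : ℕ → Bool) (N N' : ℕ) (x y : Nd → ℝ) :
    bs b N N' (x + y) = bs b N N' x + bs b N N' y := by
  simp [bs, Finset.sum_add_distrib]

theorem bs_smul (b : ℕ → Bool) (N N' : ℕ) (c : ℝ) (x : Nd → ℝ) :
    bs b N N' (c • x) = c * bs b N N' x := by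
  simp [bs, Finset.mul_sum]

theorem single_InJ (t : Nd) : InJ (Pi.single t (1:ℝ)) ∧ nrm (Pi.single t (1:ℝ)) ≤ 1 := by
  classical
  refine nrm_le zero_le_one fun F hF => ?_
  have e : val F (Pi.single t (1:ℝ)) = ((F.filter (fun S => t ∈ S)).card : ℝ) := by
    unfold val
    rw [Finset.card_filter, Nat.cast_sum]
    refine Finset.sum_congr rfl fun S _ => ?_
    rw [Finset.sum_pi_single']
    by_cases h : t ∈ S
    · simp [h]
    · simp [h]
  rw [e, one_pow]
  have : (F.filter (fun S => t ∈ S)).card ≤ 1 := by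
    refine Finset.card_le_one.2 fun S hS S' hS' => ?_
    by_contra hne
    rw [Finset.mem_filter] at hS hS'
    exact Finset.disjoint_left.1 (hF.2 S hS.1 S' hS'.1 hne) hS.2 hS'.2
  exact_mod_cast this

theorem bs_single_same (b : ℕ → Bool) (i N : ℕ) (hN : i < N) :
    bs b 0 N (Pi.single (brn b i) (1:ℝ)) = 1 := by
  unfold bs
  rw [Finset.sum_eq_single i]
  · simp
  · intro j _ hj
    rw [Pi.single_eq_of_ne]
    exact fun h => hj (brn_len_inj h)
  · intro h
    exact absurd (Finset.mem_Ico.2 ⟨Nat.zero_le _, hN⟩) h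

theorem bs_single_other (b b' : ℕ → Bool) (i N : ℕ) (h : brn b' i ≠ brn b i) :
    bs b' 0 N (Pi.single (brn b i) (1:ℝ)) = 0 := by
  unfold bs
  refine Finset.sum_eq_zero fun j _ => ?_
  rw [Pi.single_eq_of_ne]
  intro hj
  have hl : j = i := by
    have := congrArg List.length hj
    rwa [brn_length, brn_length] at this
  subst hl
  exact h hj

theorem not_countable_cantor : ¬ Countable (ℕ → Bool) := by
  intro h
  obtain ⟨f, hf⟩ := exists_surjective_nat (ℕ → Bool)
  obtain ⟨n, hn⟩ := hf (fun n => !(f n n))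
  have := congrFun hn n
  simp at this

theorem main (_ : S_TAIL) : S_SP3 := by
  intro X _ _ ι hR hsep
  obtain ⟨hR1, hR2⟩ := hR
  have hbd : ∀ (b : ℕ → Bool) (x : X) (N : ℕ), |bs b 0 N (ι x)| ≤ ‖x‖ := fun b x N => by
    rw [(hR1 x).2]; exact bs_le (hR1 x).1 b 0 N
  have hex : ∀ (b : ℕ → Bool) (x : X), ∃ l : ℝ, |l| ≤ ‖x‖ ∧
      Tendsto (fun N => bs b 0 N (ι x)) (hyperfilter ℕ : Filter ℕ) (𝓝 l) := by
    intro b x
    have hc := (isCompact_Icc (a := -‖x‖) (b := ‖x‖)).ultrafilter_le_nhds
      ((hyperfilter ℕ).map (fun N => bs b 0 N (ι x))) (by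
        rw [Filter.le_principal_iff]
        exact Filter.mem_map.2 (Filter.Eventually.of_forall fun N => abs_le.1 (hbd b x N)))
    obtain ⟨l, hl, hl2⟩ := hc
    exact ⟨l, abs_le.2 hl, hl2⟩
  choose β hβ1 hβ2 using hex
  let L : (ℕ → Bool) → (X →L[ℝ] ℝ) := fun b => LinearMap.mkContinuous
    { toFun := β b
      map_add' := fun x y => by
        refine tendsto_nhds_unique (hβ2 b (x + y)) ?_
        have := (hβ2 b x).add (hβ2 b y)
        simpa [map_add, bs_add] using this
      map_smul' := fun c x => by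
        refine tendsto_nhds_unique (hβ2 b (c • x)) ?_
        have := (hβ2 b x).const_mul c
        simpa [map_smul, bs_smul] using this } 1
    (fun x => by rw [one_mul]; exact hβ1 b x)
  have hL : ∀ b x, L b x = β b x := fun b x => rfl
  have hdist : ∀ b b' : ℕ → Bool, b ≠ b' → 1 ≤ dist (L b) (L b') := by
    intro b b' hne
    obtain ⟨i, hi⟩ := Function.ne_iff.1 hne
    have hbr : brn b' (i + 1) ≠ brn b (i + 1) := by
      intro h
      have h2 := congrArg (fun l => l[i]?) h
      simp [brn] at h2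
      exact hi h2.symm
    obtain ⟨y, hy⟩ := hR2 _ (single_InJ (brn b (i + 1))).1
    have hy1 : ‖y‖ ≤ 1 := by
      rw [(hR1 y).2, hy]; exact (single_InJ _).2
    have h1 : β b y = 1 := by
      refine tendsto_nhds_unique (hβ2 b y) ?_
      refine tendsto_const_nhds.congr' ?_
      have : ∀ᶠ N in (hyperfilter ℕ : Filter ℕ), i + 1 < N := by
        have h0 : ∀ᶠ N in (atTop : Filter ℕ), i + 1 < N := eventually_gt_atTop _
        rw [← Nat.cofinite_eq_atTop] at h0
        exact hyperfilter_le_cofinite h0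
      filter_upwards [this] with N hN
      rw [hy, bs_single_same b (i + 1) N hN]
    have h2 : β b' y = 0 := by
      refine tendsto_nhds_unique (hβ2 b' y) ?_
      refine tendsto_const_nhds.congr' (Eventually.of_forall fun N => ?_)
      show (0:ℝ) = bs b' 0 N (ι y)
      rw [hy, bs_single_other b b' (i + 1) N hbr]
    rw [dist_eq_norm]
    have h3 := (L b - L b').le_opNorm y
    have h4 : (L b - L b') y = 1 := by
      rw [sub_apply, hL, hL, h1, h2, sub_zero]
    rw [h4, norm_one] at h3
    have h5 : ‖L b - L b'‖ * ‖y‖ ≤ ‖L b - L b'‖ * 1 :=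
      mul_le_mul_of_nonneg_left hy1 (norm_nonneg _)
    linarith
  have hcount : (Set.univ : Set (ℕ → Bool)).Countable := by
    refine Set.PairwiseDisjoint.countable_of_isOpen (s := fun b => Metric.ball (L b) (1 / 2))
      ?_ (fun _ _ => Metric.isOpen_ball)
      (fun b _ => ⟨L b, Metric.mem_ball_self (by norm_num)⟩)
    intro b _ b' _ hne
    refine Metric.ball_disjoint_ball ?_
    have := hdist b b' hne
    norm_num
    exact this
  exact not_countable_cantor (Set.countable_univ_iff.1 hcount)

end Pool.Agent.R272.JT.SP3
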