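import Pool.Agent.R272.JT.Stm

/-! # Project JT: SPN, the spine estimate (helper466) -/

set_option autoImplicit false
open Set Filter Topology

namespace Pool.Agent.R272.JT.SPN

theorem brn_prefix (b : ℕ → Bool) {i j : ℕ} (h : i ≤ j) : brn b i <+: brn b j := by
  rw [← brn_take b j i h]
  exact List.take_prefix _ _

theorem brn_inj (b : ℕ → Bool) {i j : ℕ} (h : brn b i = brn b j) : i = j := by
  have := congrArg List.length h
  rwa [brn_length, brn_length] at this

theorem bs_le {x : Nd → ℝ} (hx : InJ x) (b : ℕ → Bool) (N e : ℕ) :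
    (bs b N e x) ^ 2 ≤ nrm ((lev N e).indicator x) ^ 2 := by
  classical
  have hF : Fam {(Finset.Ico N e).image (brn b)} := by
    constructor
    · intro S hS
      rw [Finset.mem_singleton] at hS
      subst hS
      constructor
      · intro s hs t ht
        obtain ⟨i, hi, rfl⟩ := Finset.mem_image.1 hs
        obtain ⟨j, hj, rfl⟩ := Finset.mem_image.1 ht
        rcases le_total i j with h | h
        · exact Or.inl (brn_prefix b h)
        · exact Or.inr (brn_prefix b h)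
      · intro s hs t ht r h1 h2
        obtain ⟨i, hi, rfl⟩ := Finset.mem_image.1 hs
        obtain ⟨j, hj, rfl⟩ := Finset.mem_image.1 ht
        rw [Finset.mem_Ico] at hi hj
        have e1 := prefix_brn h2
        have l1 := h1.length_le
        have l2 := h2.length_le
        rw [brn_length] at l1 l2
        rw [e1]
        exact Finset.mem_image.2 ⟨r.length, Finset.mem_Ico.2 ⟨by omega, by omega⟩, rfl⟩
    · intro S hS S' hS' hne
      rw [Finset.mem_singleton] at hS hS'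
      exact absurd (hS.trans hS'.symm) hne
  have h := le_nrm (ind_le hx (OrdC_lev N e)).1 hF
  have e1 : val {(Finset.Ico N e).image (brn b)} ((lev N e).indicator x) = (bs b N e x) ^ 2 := by
    unfold val bs
    rw [Finset.sum_singleton, Finset.sum_image]
    · congr 1
      refine Finset.sum_congr rfl fun i hi => ?_
      rw [Finset.mem_Ico] at hi
      rw [Set.indicator_of_mem]
      exact ⟨by rw [brn_length]; exact hi.1, by rw [brn_length]; exact hi.2⟩
    · intro i _ j _ h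
      exact brn_inj b h
  rw [e1] at h
  exact h

theorem ray_le {x : Nd → ℝ} (hx : InJ x) {c : ℝ} {e : ℕ} (b : ℕ → Bool)
    (h : ∀ N1, nrm ((lev e N1).indicator x) ≤ c) :
    nrm ((ray b e).indicator x) ^ 2 ≤ c ^ 2 := by
  classical
  refine (nrm_sq_le fun F hF => ?_).2
  obtain ⟨N1, hN1⟩ : ∃ N1 : ℕ, ∀ S ∈ F, ∀ t ∈ S, t.length < N1 := by
    refine ⟨(F.sup fun S => S.sup List.length) + 1, fun S hS t ht => ?_⟩
    have h1 : t.length ≤ S.sup List.length := Finset.le_sup (f := List.length) ht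
    have h2 : S.sup List.length ≤ F.sup fun S => S.sup List.length :=
      Finset.le_sup (f := fun S : Finset Nd => S.sup List.length) hS
    omega
  have e1 : val F ((ray b e).indicator x) = val F ((ray b e ∩ lev e N1).indicator x) := by
    unfold val
    refine Finset.sum_congr rfl fun S hS => ?_
    congr 1
    refine Finset.sum_congr rfl fun t ht => ?_
    by_cases hr : t ∈ ray b e
    · have : t ∈ ray b e ∩ lev e N1 := ⟨hr, hr.1, hN1 S hS t ht⟩
      rw [Set.indicator_of_mem hr, Set.indicator_of_mem this]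
    · have : t ∉ ray b e ∩ lev e N1 := fun h => hr h.1
      rw [Set.indicator_of_notMem hr, Set.indicator_of_notMem this]
  rw [e1]
  have hA : OrdC (ray b e ∩ lev e N1) := OrdC_inter (OrdC_ray b e) (OrdC_lev e N1)
  have h1 := ind_mono (ind_le hx (OrdC_lev e N1)).1 hA (Set.inter_subset_right)
  have h2 := le_nrm h1.1 hF
  have h3 : nrm ((ray b e ∩ lev e N1).indicator x) ≤ c := h1.2.trans (h N1)
  exact h2.trans (pow_le_pow_left₀ (nrm_nonneg _) h3 2)

theorem CL_one {b : ℕ → Bool} {k : ℕ} {f : List ℕ → Nd → ℝ} {c : ℕ → ℝ} (h : CL b k f c)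
    {η : ℝ} (hη : 0 < η) :
    ∀ᶠ N in (atTop : Filter ℕ), ∀ᶠ n in Uk k, |bs b 0 N (f n) - c 0| ≤ η := by
  cases k with
  | zero =>
    obtain ⟨N0, h0⟩ := h η hη
    filter_upwards [eventually_ge_atTop N0] with N hN
    rw [Uk_zero]
    exact h0 N hN
  | succ k =>
    obtain ⟨N0, h0⟩ := h.1 η hη
    filter_upwards [eventually_ge_atTop N0] with N hN
    exact h0 N hN

theorem sep_ev (E : Finset (ℕ → Bool)) : ∀ᶠ N in (atTop : Filter ℕ), Sep E N := by
  unfold Sep
  rw [Filter.eventually_all_finset]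
  intro b _
  rw [Filter.eventually_all_finset]
  intro b' _
  by_cases hb : b = b'
  · exact Eventually.of_forall fun _ _ => hb
  · obtain ⟨i, hi⟩ : ∃ i, b i ≠ b' i := by
      by_contra hcon
      push Not at hcon
      exact hb (funext hcon)
    filter_upwards [eventually_gt_atTop i] with N hN h
    exfalso
    apply hi
    have h1 : (brn b N)[i]? = (brn b' N)[i]? := by rw [h]
    unfold brn at h1
    rw [List.getElem?_map, List.getElem?_map, List.getElem?_range hN] at h1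
    simpa using h1

theorem bs_sub (b : ℕ → Bool) (N N' : ℕ) (x y : Nd → ℝ) :
    bs b N N' (x - y) = bs b N N' x - bs b N N' y := by
  unfold bs
  rw [← Finset.sum_sub_distrib]
  rfl

theorem bs_split (b : ℕ → Bool) {N N' : ℕ} (h : N ≤ N') (x : Nd → ℝ) :
    bs b N N' x = bs b 0 N' x - bs b 0 N x := by
  unfold bs
  rw [← Finset.sum_Ico_consecutive _ (Nat.zero_le N) h]
  ring

/-- one step: everything but the eventualities -/
theorem step_core (hI : S_INC) (hD : S_DK) {E : Finset (ℕ → Bool)} {N N2 : ℕ} {B l0 η T : ℝ}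
    (hB : 0 ≤ B) (hl0 : 0 ≤ l0) (hη : 0 < η) (hη1 : η ≤ 1) (hSep : Sep E N) (hN : N ≤ N2)
    {x y : Nd → ℝ} (hx : InJ x ∧ nrm x ≤ B) (hy : InJ y ∧ nrm y ≤ B)
    (hxl : nrm ((lev N N2).indicator x) ≤ l0 + η) (hyl : nrm ((lev N N2).indicator y) ≤ l0 + η)
    {c' : (ℕ → Bool) → ℝ} (hK : ∀ b ∈ E, KLe b N2 (x - y) (c' b)) (hc : ∑ b ∈ E, c' b ≤ T)
    (hs : ∀ b ∈ E, |bs b N N2 (x - y)| ≤ 8 * η) :
    ∃ c : (ℕ → Bool) → ℝ, (∀ b ∈ E, KLe b N (x - y) (c b)) ∧
      ∑ b ∈ E, c b ≤ T + 32 * l0 ^ 2 + (32 + (E.card : ℝ) * (64 * B + 128)) * η := by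
  have hxy := InJ_sub hx.1 hy.1
  have hxyB : nrm (x - y) ≤ 2 * B := by linarith [hxy.2, hx.2, hy.2]
  refine ⟨fun b => c' b + 4 * nrm ((ray b N ∩ lev N N2).indicator (x - y)) ^ 2
    + 4 * |bs b N N2 (x - y)| * (2 * B) + 2 * (bs b N N2 (x - y)) ^ 2, ?_, ?_⟩
  · intro b hb
    exact hD (x - y) b N N2 (c' b) (2 * B) hxy.1 hxyB hN (hK b hb)
  · have hlev : nrm ((lev N N2).indicator (x - y)) ≤ 2 * (l0 + η) := by
      have e : (lev N N2).indicator (x - y) = (lev N N2).indicator x - (lev N N2).indicator y := by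
        rw [Set.indicator_sub']
      rw [e]
      have := (InJ_sub (ind_le hx.1 (OrdC_lev N N2)).1 (ind_le hy.1 (OrdC_lev N N2)).1).2
      linarith
    have hsum : ∑ b ∈ E, nrm ((ray b N ∩ lev N N2).indicator (x - y)) ^ 2 ≤
        (2 * (l0 + η)) ^ 2 := by
      have h1 := (hI ((lev N N2).indicator (x - y)) (ℕ → Bool) E
        (fun b => ray b N ∩ lev N N2) (ind_le hxy.1 (OrdC_lev N N2)).1
        (fun b _ => OrdC_inter (OrdC_ray b N) (OrdC_lev N N2))).1 ?_
      · have e : ∀ b : ℕ → Bool, (ray b N ∩ lev N N2).indicator ((lev N N2).indicator (x - y)) =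
            (ray b N ∩ lev N N2).indicator (x - y) := by
          intro b
          rw [Set.indicator_indicator, Set.inter_eq_left.2 Set.inter_subset_right]
        simp only [e] at h1
        exact h1.trans (pow_le_pow_left₀ (nrm_nonneg _) hlev 2)
      · intro b hb b' hb' hne
        rw [Set.disjoint_left]
        intro t ht ht'
        apply hne
        apply hSep b hb b' hb'
        have e1 := ht.1.2
        have e2 := ht'.1.2
        have l := ht.1.1
        rw [← brn_take b t.length N l, ← brn_take b' t.length N l, ← e1, ← e2]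
    have hterm : ∀ b ∈ E, 4 * |bs b N N2 (x - y)| * (2 * B) + 2 * (bs b N N2 (x - y)) ^ 2 ≤
        (64 * B + 128) * η := by
      intro b hb
      have h1 := hs b hb
      have h2 : (bs b N N2 (x - y)) ^ 2 ≤ 64 * η := by
        rw [← sq_abs]
        have := pow_le_pow_left₀ (abs_nonneg _) h1 2
        nlinarith
      have h3 : 4 * |bs b N N2 (x - y)| * (2 * B) ≤ 64 * B * η := by
        have : |bs b N N2 (x - y)| * B ≤ 8 * η * B := mul_le_mul_of_nonneg_right h1 hB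
        nlinarith
      linarith
    have hsum2 : ∑ b ∈ E, (4 * |bs b N N2 (x - y)| * (2 * B) + 2 * (bs b N N2 (x - y)) ^ 2) ≤
        (E.card : ℝ) * ((64 * B + 128) * η) := by
      have := Finset.sum_le_sum hterm
      rwa [Finset.sum_const, nsmul_eq_mul] at this
    have e : ∑ b ∈ E, (c' b + 4 * nrm ((ray b N ∩ lev N N2).indicator (x - y)) ^ 2
        + 4 * |bs b N N2 (x - y)| * (2 * B) + 2 * (bs b N N2 (x - y)) ^ 2) =
        ∑ b ∈ E, c' b + 4 * ∑ b ∈ E, nrm ((ray b N ∩ lev N N2).indicator (x - y)) ^ 2 +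
        ∑ b ∈ E, (4 * |bs b N N2 (x - y)| * (2 * B) + 2 * (bs b N N2 (x - y)) ^ 2) := by
      rw [Finset.mul_sum, ← Finset.sum_add_distrib, ← Finset.sum_add_distrib]
      refine Finset.sum_congr rfl fun b _ => ?_
      ring
    show ∑ b ∈ E, (c' b + 4 * nrm ((ray b N ∩ lev N N2).indicator (x - y)) ^ 2
        + 4 * |bs b N N2 (x - y)| * (2 * B) + 2 * (bs b N N2 (x - y)) ^ 2) ≤ _
    rw [e]
    have q1 : 4 * (2 * (l0 + η)) ^ 2 ≤ 32 * l0 ^ 2 + 32 * η := by
      nlinarith [sq_nonneg (l0 - η), mul_nonneg hη.le (by linarith : (0:ℝ) ≤ 1 - η)]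
    have q2 : 4 * ∑ b ∈ E, nrm ((ray b N ∩ lev N N2).indicator (x - y)) ^ 2 ≤
        4 * (2 * (l0 + η)) ^ 2 := mul_le_mul_of_nonneg_left hsum (by norm_num)
    have q3 : (32 + (E.card : ℝ) * (64 * B + 128)) * η =
        32 * η + (E.card : ℝ) * ((64 * B + 128) * η) := by ring
    linarith only [hc, hsum2, q1, q2, q3]

/-- generic facts for one of the two families at the parameter `a` -/
theorem gen_facts {k N : ℕ} {B η : ℝ} {E : Finset (ℕ → Bool)} {l : ℕ → ℝ}
    {f : List ℕ → Nd → ℝ} {cf : (ℕ → Bool) → ℕ → ℝ} (hη : 0 < η) (hf : Bdd B f)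
    (hG : GLip (k + 1) l f) (hC : ∀ b ∈ E, CL b (k + 1) f (cf b))
    (h1 : ∀ b ∈ E, ∀ᶠ n in Uk (k + 1), |bs b 0 N (f n) - cf b 0| ≤ η)
    (hT : ∀ N1, ∀ᶠ n in Uk (k + 1), nrm ((lev N N1).indicator (f n)) ≤ η) :
    ∀ᶠ a in hyperfilter ℕ,
      (∀ N1, ∀ᶠ n in Uk k, nrm ((lev N N1).indicator (f (a :: n))) ≤ l 0 + η) ∧
      GLip k (fun j => l (j + 1)) (fun n => f (a :: n)) ∧
      (∀ b ∈ E, ∃ c' : ℕ → ℝ, CL b k (fun n => f (a :: n)) c' ∧
        ∀ j ≤ k, |c' j - cf b (j + 1)| ≤ η) ∧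
      (∀ b ∈ E, ∀ᶠ n in Uk k, |bs b 0 N (f (a :: n)) - cf b 0| ≤ η) := by
  have e1 := cmp hf hG.1
  have e2 := hG.2
  have e3 : ∀ᶠ a in hyperfilter ℕ, ∀ b ∈ E, ∃ c' : ℕ → ℝ, CL b k (fun n => f (a :: n)) c' ∧
        ∀ j ≤ k, |c' j - cf b (j + 1)| ≤ η := by
    rw [Filter.eventually_all_finset]
    intro b hb
    exact (hC b hb).2 η hη
  have e4 : ∀ᶠ a in hyperfilter ℕ, ∀ b ∈ E, ∀ᶠ n in Uk k, |bs b 0 N (f (a :: n)) - cf b 0| ≤ η := by
    rw [Filter.eventually_all_finset]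
    intro b hb
    have := h1 b hb
    rwa [Uk_succ] at this
  filter_upwards [e1, e2, e3, e4] with a g1 g2 g3 g4
  exact ⟨fun N1 => g1 (lev N N1) η (OrdC_lev N N1) (hT N1), g2, g3, g4⟩

theorem main (hI : S_INC) (hD : S_DK) (hTail : S_TAIL) : S_SPN := by
  intro k
  induction k with
  | zero =>
    intro B E ε hε
    refine ⟨1, one_pos, ?_⟩
    intro l f g cf cg hl hf hg _ _ _ _ _
    obtain ⟨δ, hδ0, hδ⟩ : ∃ δ : ℝ, 0 < δ ∧ (E.card : ℝ) * (3 * δ ^ 2) ≤ ε := by
      refine ⟨min 1 (ε / (3 * ((E.card : ℝ) + 1))), lt_min one_pos (by positivity), ?_⟩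
      obtain ⟨δ, hδ⟩ : ∃ δ, δ = min 1 (ε / (3 * ((E.card : ℝ) + 1))) := ⟨_, rfl⟩
      rw [← hδ]
      have h1 : δ ≤ 1 := by rw [hδ]; exact min_le_left _ _
      have h0 : 0 < δ := by rw [hδ]; exact lt_min one_pos (by positivity)
      have h2 : δ ≤ ε / (3 * ((E.card : ℝ) + 1)) := by rw [hδ]; exact min_le_right _ _
      rw [le_div_iff₀ (by positivity)] at h2
      have h3 : δ ^ 2 ≤ δ := by nlinarith
      have h4 : (0:ℝ) ≤ E.card := Nat.cast_nonneg _
      nlinarith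
    obtain ⟨x, hxdef⟩ : ∃ x, x = f [] - g [] := ⟨_, rfl⟩
    have hx : InJ x := by rw [hxdef]; exact (InJ_sub (hf []).1 (hg []).1).1
    obtain ⟨N0, hN0⟩ := hTail Unit (pure ()) (nrm x) (fun _ => x) (fun _ => ⟨hx, le_refl _⟩) δ hδ0
    refine ⟨N0, fun N hN => ?_⟩
    rw [Uk2_zero]
    have hlev : ∀ e N1, N ≤ e → nrm ((lev e N1).indicator x) ≤ δ := by
      intro e N1 he
      have := hN0 e (hN.trans he) N1
      exact this.exists.choose_spec
    refine ⟨fun _ => 3 * δ ^ 2, ?_, ?_⟩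
    · intro b _ e he
      show 2 * (bs b N e (f [] - g [])) ^ 2 + nrm ((ray b e).indicator (f [] - g [])) ^ 2 ≤ _
      rw [← hxdef]
      have h1 := bs_le hx b N e
      have h2 : nrm ((lev N e).indicator x) ^ 2 ≤ δ ^ 2 :=
        pow_le_pow_left₀ (nrm_nonneg _) (hlev N e le_rfl) 2
      have h3 := ray_le hx (c := δ) (e := e) b (fun N1 => hlev e N1 he)
      linarith
    · rw [Finset.sum_const, nsmul_eq_mul, Finset.range_zero, Finset.sum_empty]
      linarith
  | succ k ih =>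
    intro B E ε hε
    obtain ⟨η₁, hη₁, IH⟩ := ih B E (ε / 2) (by positivity)
    obtain ⟨M, hM⟩ : ∃ M : ℝ, M = 32 + (E.card : ℝ) * (64 * |B| + 128) := ⟨_, rfl⟩
    have hM0 : 0 < M := by rw [hM]; positivity
    obtain ⟨η, hηdef⟩ : ∃ η : ℝ, η = min 1 (min (η₁ / 4) (ε / (2 * M))) := ⟨_, rfl⟩
    have hη : 0 < η := by
      rw [hηdef]; exact lt_min one_pos (lt_min (by positivity) (by positivity))
    have hη1 : η ≤ 1 := by rw [hηdef]; exact min_le_left _ _
    have hη2 : η ≤ η₁ / 4 := by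
      rw [hηdef]; exact (min_le_right _ _).trans (min_le_left _ _)
    have hη3 : M * η ≤ ε / 2 := by
      have : η ≤ ε / (2 * M) := by rw [hηdef]; exact (min_le_right _ _).trans (min_le_right _ _)
      rw [le_div_iff₀ (by positivity)] at this
      linarith
    refine ⟨η, hη, ?_⟩
    intro l f g cf cg hl hf hg hGf hGg hCf hCg hcc
    have hB : 0 ≤ B := (nrm_nonneg (f [])).trans (hf []).2
    have hBabs : |B| = B := abs_of_nonneg hB
    -- the level N0
    obtain ⟨Nf, hNf⟩ := hTail (List ℕ) (Uk (k + 1)) B f hf η hη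
    obtain ⟨Ng, hNg⟩ := hTail (List ℕ) (Uk (k + 1)) B g hg η hη
    have ev : ∀ᶠ N in (atTop : Filter ℕ), Sep E N ∧ Nf ≤ N ∧ Ng ≤ N ∧
        (∀ b ∈ E, ∀ᶠ n in Uk (k + 1), |bs b 0 N (f n) - cf b 0| ≤ η) ∧
        (∀ b ∈ E, ∀ᶠ n in Uk (k + 1), |bs b 0 N (g n) - cg b 0| ≤ η) := by
      have a1 : ∀ᶠ N in (atTop : Filter ℕ), ∀ b ∈ E, ∀ᶠ n in Uk (k + 1),
          |bs b 0 N (f n) - cf b 0| ≤ η := by
        rw [Filter.eventually_all_finset]
        exact fun b hb => CL_one (hCf b hb) hη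
      have a2 : ∀ᶠ N in (atTop : Filter ℕ), ∀ b ∈ E, ∀ᶠ n in Uk (k + 1),
          |bs b 0 N (g n) - cg b 0| ≤ η := by
        rw [Filter.eventually_all_finset]
        exact fun b hb => CL_one (hCg b hb) hη
      filter_upwards [sep_ev E, eventually_ge_atTop Nf, eventually_ge_atTop Ng, a1, a2]
        with N h1 h2 h3 h4 h5
      exact ⟨h1, h2, h3, h4, h5⟩
    obtain ⟨N0, hN0⟩ := Filter.eventually_atTop.1 ev
    refine ⟨N0, fun N hN => ?_⟩
    obtain ⟨hSep, hNNf, hNNg, hcf, hcg⟩ := hN0 N hN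
    rw [Uk2_succ]
    filter_upwards [gen_facts hη hf hGf hCf hcf (hNf N hNNf)] with a ha
    filter_upwards [gen_facts hη hg hGg hCg hcg (hNg N hNNg)] with a' ha'
    obtain ⟨fa1, fa2, fa3, fa4⟩ := ha
    obtain ⟨ga1, ga2, ga3, ga4⟩ := ha'
    choose! cfa cfa1 cfa2 using fa3
    choose! cga cga1 cga2 using ga3
    have hfa : Bdd B (fun n => f (a :: n)) := fun n => hf (a :: n)
    have hga : Bdd B (fun n => g (a' :: n)) := fun n => hg (a' :: n)
    obtain ⟨N0', hN0'⟩ := IH (fun j => l (j + 1)) (fun n => f (a :: n)) (fun n => g (a' :: n))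
      cfa cga (fun j => hl (j + 1)) hfa hga fa2 ga2 cfa1 cga1 (by
        intro b hb j hj
        have h1 := cfa2 b hb j hj
        have h2 := cga2 b hb j hj
        have h3 := hcc b hb (j + 1) (by omega)
        rw [abs_le] at h1 h2 h3 ⊢
        constructor <;> linarith [h1.1, h1.2, h2.1, h2.2, h3.1, h3.2])
    have ev2 : ∀ᶠ N2 in (atTop : Filter ℕ), N ≤ N2 ∧ N0' ≤ N2 ∧
        (∀ b ∈ E, ∀ᶠ n in Uk k, |bs b 0 N2 (f (a :: n)) - cfa b 0| ≤ η) ∧
        (∀ b ∈ E, ∀ᶠ n in Uk k, |bs b 0 N2 (g (a' :: n)) - cga b 0| ≤ η) := by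
      have a1 : ∀ᶠ N2 in (atTop : Filter ℕ), ∀ b ∈ E, ∀ᶠ n in Uk k,
          |bs b 0 N2 (f (a :: n)) - cfa b 0| ≤ η := by
        rw [Filter.eventually_all_finset]
        exact fun b hb => CL_one (cfa1 b hb) hη
      have a2 : ∀ᶠ N2 in (atTop : Filter ℕ), ∀ b ∈ E, ∀ᶠ n in Uk k,
          |bs b 0 N2 (g (a' :: n)) - cga b 0| ≤ η := by
        rw [Filter.eventually_all_finset]
        exact fun b hb => CL_one (cga1 b hb) hη
      filter_upwards [eventually_ge_atTop N, eventually_ge_atTop N0', a1, a2] with N2 h1 h2 h3 h4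
      exact ⟨h1, h2, h3, h4⟩
    obtain ⟨N2, hN2, hN2', hf2, hg2⟩ := ev2.exists
    have F1 : ∀ᶠ n in Uk k, nrm ((lev N N2).indicator (f (a :: n))) ≤ l 0 + η ∧
        (∀ b ∈ E, |bs b 0 N2 (f (a :: n)) - cfa b 0| ≤ η) ∧
        (∀ b ∈ E, |bs b 0 N (f (a :: n)) - cf b 0| ≤ η) := by
      have a1 := (Filter.eventually_all_finset E).2 hf2
      have a2 := (Filter.eventually_all_finset E).2 fa4
      filter_upwards [fa1 N2, a1, a2] with n h1 h2 h3
      exact ⟨h1, h2, h3⟩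
    have G1 : ∀ᶠ n in Uk k, nrm ((lev N N2).indicator (g (a' :: n))) ≤ l 0 + η ∧
        (∀ b ∈ E, |bs b 0 N2 (g (a' :: n)) - cga b 0| ≤ η) ∧
        (∀ b ∈ E, |bs b 0 N (g (a' :: n)) - cg b 0| ≤ η) := by
      have a1 := (Filter.eventually_all_finset E).2 hg2
      have a2 := (Filter.eventually_all_finset E).2 ga4
      filter_upwards [ga1 N2, a1, a2] with n h1 h2 h3
      exact ⟨h1, h2, h3⟩
    filter_upwards [hN0' N2 hN2', (marg k _ F1).1, (marg k _ G1).2] with p hp hpf hpg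
    obtain ⟨c', hK, hc'⟩ := hp
    obtain ⟨f1, f2, f3⟩ := hpf
    obtain ⟨g1, g2, g3⟩ := hpg
    have hs : ∀ b ∈ E, |bs b N N2 (f (a :: p.1) - g (a' :: p.2))| ≤ 8 * η := by
      intro b hb
      rw [bs_sub, bs_split b hN2, bs_split b hN2]
      have q1 := abs_le.1 (f2 b hb)
      have q2 := abs_le.1 (f3 b hb)
      have q3 := abs_le.1 (g2 b hb)
      have q4 := abs_le.1 (g3 b hb)
      have q5 := abs_le.1 (cfa2 b hb 0 (Nat.zero_le _))
      have q6 := abs_le.1 (cga2 b hb 0 (Nat.zero_le _))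
      have q7 := abs_le.1 (hcc b hb 0 (Nat.zero_le _))
      have q8 := abs_le.1 (hcc b hb 1 (by omega))
      rw [zero_add] at q5 q6
      rw [abs_le]
      constructor <;> linarith [q1.1, q1.2, q2.1, q2.2, q3.1, q3.2, q4.1, q4.2, q5.1, q5.2,
        q6.1, q6.2, q7.1, q7.2, q8.1, q8.2]
    obtain ⟨c, hcK, hcs⟩ := step_core hI hD hB (hl 0) hη hη1 hSep hN2 (hf (a :: p.1))
      (hg (a' :: p.2)) f1 g1 hK hc' hs
    refine ⟨c, hcK, hcs.trans ?_⟩
    rw [Finset.sum_range_succ']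
    rw [hM, hBabs] at hη3
    linarith

end Pool.Agent.R272.JT.SPN
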