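import Pool.Agent.R272.JT.Defs

/-! # Project JT: statements of the pieces -/

set_option autoImplicit false
open Set Filter Topology

namespace Pool.Agent.R272.JT

/-- INC: superadditivity for disjoint convex sets, additivity for incomparable convex sets. -/
def S_INC : Prop := ∀ (x : Nd → ℝ) (ι : Type) (F : Finset ι) (A : ι → Set Nd), InJ x →
  (∀ i ∈ F, OrdC (A i)) →
  ((∀ i ∈ F, ∀ j ∈ F, i ≠ j → Disjoint (A i) (A j)) →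
    ∑ i ∈ F, nrm ((A i).indicator x) ^ 2 ≤ nrm x ^ 2) ∧
  ((∀ i ∈ F, ∀ j ∈ F, i ≠ j → ∀ s ∈ A i, ∀ t ∈ A j, ¬ s <+: t) →
    OrdC (⋃ i ∈ F, A i) ∧
    nrm ((⋃ i ∈ F, A i).indicator x) ^ 2 = ∑ i ∈ F, nrm ((A i).indicator x) ^ 2)

/-- DPHI -/
def S_DPHI : Prop := ∀ (x : Nd → ℝ) (N N1 : ℕ) (E E1 : Finset (ℕ → Bool)) (c : ℝ), InJ x →
  N ≤ N1 → E ⊆ E1 → PsiLe N1 E1 x c →
  nrm ((Om N E).indicator x) ^ 2 ≤ 2 * nrm ((lev N N1).indicator x) ^ 2 + 2 * c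
    + 3 * nrm ((Abv N1 E E1).indicator x) ^ 2 + nrm ((Om N1 E1).indicator x) ^ 2

/-- DPSI -/
def S_DPSI : Prop := ∀ (x : Nd → ℝ) (N N1 : ℕ) (E E1 : Finset (ℕ → Bool)) (κ : ℝ), InJ x →
  N ≤ N1 → E ⊆ E1 → 0 ≤ κ →
  (∀ w : Nd, w.length = N1 → (∀ b ∈ E1, w ≠ brn b N1) → nrm ((cone w).indicator x) ^ 2 ≤ κ) →
  PsiLe N E x (2 * nrm ((lev N N1).indicator x) ^ 2
    + 2 * nrm ((Abv N1 E E1).indicator x) ^ 2 + 2 * 2 ^ N * κ)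

/-- DK -/
def S_DK : Prop := ∀ (x : Nd → ℝ) (b : ℕ → Bool) (N N' : ℕ) (c B : ℝ), InJ x → nrm x ≤ B →
  N ≤ N' → KLe b N' x c →
  KLe b N x (c + 4 * nrm ((ray b N ∩ lev N N').indicator x) ^ 2 + 4 * |bs b N N' x| * B
    + 2 * (bs b N N' x) ^ 2)

/-- TAIL -/
def S_TAIL : Prop := ∀ (I : Type) (W : Ultrafilter I) (B : ℝ) (f : I → Nd → ℝ), Bdd B f →
  ∀ η > 0, ∃ N0, ∀ N ≥ N0, ∀ N1, ∀ᶠ i in W, nrm ((lev N N1).indicator (f i)) ≤ η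

/-- TREE -/
def S_TREE : Prop := ∀ ρ : Nd → ℝ, (∀ v, 0 ≤ ρ v) →
  (∀ v, ρ (v ++ [false]) + ρ (v ++ [true]) ≤ ρ v) →
  (∀ δ > 0, ∃ (E : Finset (ℕ → Bool)) (N0 : ℕ), ∀ v : Nd, N0 ≤ v.length → δ ≤ ρ v →
    ∃ b ∈ E, v = brn b v.length) ∧
  (∀ ε > 0, ∃ E : Finset (ℕ → Bool), ∀ E' : Finset (ℕ → Bool), Disjoint E E' →
    ∃ N0, ∀ N ≥ N0, ∑ b ∈ E', ρ (brn b N) ≤ ε)

/-- PSI -/
def S_PSI : Prop := ∀ (k : ℕ) (l : ℕ → ℝ) (B : ℝ) (f : List ℕ → Nd → ℝ), (∀ j, 0 ≤ l j) →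
  Bdd B f → GLip k l f → ∀ ε > 0, ∃ (E : Finset (ℕ → Bool)) (N0 : ℕ), ∀ E', E ⊆ E' →
    ∀ N ≥ N0, ∀ᶠ n in Uk k, PsiLe N E' (f n) (8 * (l 0) ^ 2 + ε)

/-- PHI -/
def S_PHI : Prop := ∀ (k : ℕ) (l : ℕ → ℝ) (B : ℝ) (f : List ℕ → Nd → ℝ), (∀ j, 0 ≤ l j) →
  Bdd B f → GLip k l f → ∀ ε > 0, ∃ (E : Finset (ℕ → Bool)) (N0 : ℕ), ∀ E', E ⊆ E' →
    ∀ N ≥ N0, ∀ᶠ n in Uk k, nrm ((Om N E').indicator (f n)) ^ 2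
      ≤ ∑ j ∈ Finset.range k, (10 * (l j) ^ 2 + 16 * (l (j + 1)) ^ 2) + ε

/-- CEX -/
def S_CEX : Prop := ∀ (b : ℕ → Bool) (k : ℕ) (B : ℝ) (f : List ℕ → Nd → ℝ), Bdd B f →
  ∃ c : ℕ → ℝ, CL b k f c ∧ ∀ j, |c j| ≤ B

/-- SPN -/
def S_SPN : Prop := ∀ (k : ℕ) (B : ℝ) (E : Finset (ℕ → Bool)) (ε : ℝ), 0 < ε → ∃ η > 0,
  ∀ (l : ℕ → ℝ) (f g : List ℕ → Nd → ℝ) (cf cg : (ℕ → Bool) → ℕ → ℝ), (∀ j, 0 ≤ l j) →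
  Bdd B f → Bdd B g → GLip k l f → GLip k l g →
  (∀ b ∈ E, CL b k f (cf b)) → (∀ b ∈ E, CL b k g (cg b)) →
  (∀ b ∈ E, ∀ j ≤ k, |cf b j - cg b j| ≤ η) →
  ∃ N0, ∀ N ≥ N0, ∀ᶠ (p : List ℕ × List ℕ) in Uk2 k, ∃ c : (ℕ → Bool) → ℝ,
    (∀ b ∈ E, KLe b N (f p.1 - g p.2) (c b)) ∧
    ∑ b ∈ E, c b ≤ 32 * ∑ j ∈ Finset.range k, (l j) ^ 2 + ε

/-- LOW -/
def S_LOW : Prop := ∀ (k : ℕ) (B : ℝ) (f : List ℕ → Nd → ℝ) (N0 : ℕ), Bdd B f → ∀ ε > 0,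
  ∀ᶠ (p : List ℕ × List ℕ) in Uk2 k, nrm ((lev 0 N0).indicator (f p.1 - f p.2)) ≤ ε

/-- ASM -/
def S_ASM : Prop := ∀ (k : ℕ) (l : ℕ → ℝ) (B : ℝ) (f : List ℕ → Nd → ℝ), (∀ j, 0 ≤ l j) →
  (∀ j ≥ k, l j = 0) → Bdd B f → GLip k l f → ∀ ε > 0,
  ∀ᶠ (p : List ℕ × List ℕ) in Uk2 k, nrm (f p.1 - f p.2) ≤ 20 * Real.sqrt (∑ j ∈ Finset.range k, (l j) ^ 2) + ε

/-- interlaced lists, all entries `≥ c`. -/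
def Inter : ℕ → List ℕ → List ℕ → Prop
  | _, [], [] => True
  | c, a :: n, a' :: m => c ≤ a ∧ a < a' ∧ Inter (a' + 1) n m
  | _, _, _ => False

/-- RAM -/
def S_RAM : Prop := ∀ (k : ℕ) (P : List ℕ → List ℕ → Prop), (∀ᶠ (p : List ℕ × List ℕ) in Uk2 k, P p.1 p.2) →
  ∃ φ : ℕ → ℕ, StrictMono φ ∧ ∀ n m : List ℕ, n.length = k → Inter 0 n m →
    P (n.map φ) (m.map φ)

/-- realisation of the James tree space. -/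
def Rlz (X : Type) [NormedAddCommGroup X] [NormedSpace ℝ X] (ι : X →ₗ[ℝ] (Nd → ℝ)) : Prop :=
  (∀ x, InJ (ι x) ∧ ‖x‖ = nrm (ι x)) ∧ (∀ y, InJ y → ∃ x, ι x = y)

/-- SP1 -/
def S_SP1 : Prop := ∃ (X : Type) (_ : NormedAddCommGroup X) (_ : NormedSpace ℝ X)
  (ι : X →ₗ[ℝ] (Nd → ℝ)), CompleteSpace X ∧ Rlz X ι

/-- SP2 -/
def S_SP2 : Prop := ∀ (X : Type) [NormedAddCommGroup X] [NormedSpace ℝ X]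
  (ι : X →ₗ[ℝ] (Nd → ℝ)), Rlz X ι → TopologicalSpace.SeparableSpace X

/-- SP3 -/
def S_SP3 : Prop := ∀ (X : Type) [NormedAddCommGroup X] [NormedSpace ℝ X]
  (ι : X →ₗ[ℝ] (Nd → ℝ)), Rlz X ι → ¬ TopologicalSpace.SeparableSpace (X →L[ℝ] ℝ)

end Pool.Agent.R272.JT
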