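import Pool.Agent.R272.JT.Stm

/-! # Project JT, piece TAIL -/

set_option autoImplicit false
open Set Filter Topology

namespace Pool.Agent.R272.JT.TAIL

theorem main (hI : S_INC) : S_TAIL := by
  intro I W B f hf η hη
  by_contra hcon
  push Not at hcon
  choose n hn n' hn' using hcon
  -- eventually large
  have hbig : ∀ N0, ∀ᶠ i in W, η < nrm ((lev (n N0) (n' N0)).indicator (f i)) := by
    intro N0
    exact hn' N0
  set s : ℕ → ℕ := fun j => Nat.rec 0 (fun _ a => max (n a) (n' a)) j with hs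
  have hs1 : ∀ j, s (j + 1) = max (n (s j)) (n' (s j)) := fun j => rfl
  have hmono : Monotone s := monotone_nat_of_le_succ fun j => by
    rw [hs1]
    exact (hn (s j)).trans (le_max_left _ _)
  have hdis : ∀ i j, i < j → Disjoint (lev (n (s i)) (n' (s i))) (lev (n (s j)) (n' (s j))) := by
    intro i j hij
    rw [Set.disjoint_left]
    intro t ht ht'
    have h1 : n' (s i) ≤ s (i + 1) := by
      rw [hs1]
      exact le_max_right _ _
    have h2 : s (i + 1) ≤ s j := hmono hij
    have h3 := hn (s j)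
    have h4 := ht.2
    have h5 := ht'.1
    omega
  obtain ⟨J, hJ⟩ := exists_nat_gt (B ^ 2 / η ^ 2)
  have hη2 : 0 < η ^ 2 := by positivity
  rw [div_lt_iff₀ hη2] at hJ
  have hall : ∀ᶠ i in W, ∀ j ∈ Finset.range J,
      η < nrm ((lev (n (s j)) (n' (s j))).indicator (f i)) := by
    rw [Filter.eventually_all_finset]
    intro j _
    exact hbig (s j)
  obtain ⟨i, hi⟩ := hall.exists
  have h1 := (hI (f i) ℕ (Finset.range J) (fun j => lev (n (s j)) (n' (s j))) (hf i).1
    (fun j _ => OrdC_lev _ _)).1 (fun a _ b _ hab => by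
      rcases lt_or_gt_of_ne hab with h | h
      · exact hdis a b h
      · exact (hdis b a h).symm)
  have h2 : nrm (f i) ^ 2 ≤ B ^ 2 := pow_le_pow_left₀ (nrm_nonneg _) (hf i).2 2
  have h3 : ∑ j ∈ Finset.range J, η ^ 2 ≤
      ∑ j ∈ Finset.range J, nrm ((lev (n (s j)) (n' (s j))).indicator (f i)) ^ 2 :=
    Finset.sum_le_sum fun j hj => pow_le_pow_left₀ hη.le (hi j hj).le 2
  rw [Finset.sum_const, Finset.card_range, nsmul_eq_mul] at h3
  linarith

end Pool.Agent.R272.JT.TAIL
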