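import Pool.Agent.R272.JT.Stm

/-! # Project JT: superadditive functions on the binary tree -/

set_option autoImplicit false
open Set Filter Topology

namespace Pool.Agent.R272.JT.TREE

open Pool.Agent.R272.JT

theorem brn_succ (b : ℕ → Bool) (N : ℕ) : brn b (N + 1) = brn b N ++ [b N] := by
  simp [brn, List.range_succ]

theorem brn_eq_iff (b b' : ℕ → Bool) (N : ℕ) : brn b N = brn b' N ↔ ∀ i < N, b i = b' i := by
  induction N with
  | zero => simp [brn]
  | succ n ih =>
    rw [brn_succ, brn_succ]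
    constructor
    · intro h i hi
      have h1 := List.append_inj h (by rw [brn_length, brn_length])
      rcases Nat.lt_succ_iff_lt_or_eq.1 hi with h2 | h2
      · exact (ih.1 h1.1) i h2
      · subst h2; simpa using h1.2
    · intro h
      rw [ih.2 fun i hi => h i (Nat.lt_succ_of_lt hi), h n (Nat.lt_succ_self n)]

section
variable {ρ : Nd → ℝ} (h0 : ∀ v, 0 ≤ ρ v)
  (h1 : ∀ v, ρ (v ++ [false]) + ρ (v ++ [true]) ≤ ρ v)
include h0 h1

theorem child (v : Nd) (c : Bool) : ρ (v ++ [c]) ≤ ρ v := by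
  have a := h1 v
  have a1 := h0 (v ++ [false])
  have a2 := h0 (v ++ [true])
  cases c <;> linarith

theorem sib (v : Nd) (c : Bool) : ρ (v ++ [c]) + ρ (v ++ [!c]) ≤ ρ v := by
  have a := h1 v
  cases c <;> simp <;> linarith

theorem mono_app (v l : Nd) : ρ (v ++ l) ≤ ρ v := by
  induction l using List.reverseRecOn with
  | nil => simp
  | append_singleton l c ih =>
    rw [← List.append_assoc]
    exact (child h0 h1 _ c).trans ih

theorem mono {v w : Nd} (h : v <+: w) : ρ w ≤ ρ v := by
  obtain ⟨l, rfl⟩ := h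
  exact mono_app h0 h1 v l

theorem anti (b : ℕ → Bool) : Antitone fun N => ρ (brn b N) := by
  refine antitone_nat_of_succ_le fun n => ?_
  change ρ (brn b (n + 1)) ≤ ρ (brn b n)
  rw [brn_succ]
  exact child h0 h1 _ _

theorem level : ∀ (N : ℕ) (u : Nd) (V : Finset Nd), (∀ v ∈ V, v.length = N) →
    ∑ v ∈ V, ρ (u ++ v) ≤ ρ u := by
  classical
  intro N
  induction N with
  | zero =>
    intro u V hV
    have hs : V ⊆ {[]} := by
      intro v hv
      simpa using List.eq_nil_of_length_eq_zero (hV v hv)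
    calc ∑ v ∈ V, ρ (u ++ v) ≤ ∑ v ∈ ({[]} : Finset Nd), ρ (u ++ v) :=
          Finset.sum_le_sum_of_subset_of_nonneg hs fun _ _ _ => h0 _
      _ = ρ u := by simp
  | succ n ih =>
    intro u V hV
    have key : ∀ c : Bool, ∑ v ∈ V.filter (fun v => v.head? = some c), ρ (u ++ v) ≤ ρ (u ++ [c]) := by
      intro c
      have hinj : Set.InjOn (List.tail : Nd → Nd) (V.filter (fun v => v.head? = some c)) := by
        intro x hx y hy hxy
        have hx' := (Finset.mem_filter.1 (Finset.mem_coe.1 hx)).2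
        have hy' := (Finset.mem_filter.1 (Finset.mem_coe.1 hy)).2
        cases x with
        | nil => simp at hx'
        | cons a x =>
          cases y with
          | nil => simp at hy'
          | cons a' y =>
            simp at hx' hy' hxy
            rw [hx', hy', hxy]
      have h2 := ih (u ++ [c]) ((V.filter (fun v => v.head? = some c)).image List.tail) (by
        intro v hv
        obtain ⟨w, hw, rfl⟩ := Finset.mem_image.1 hv
        have := hV w (Finset.mem_filter.1 hw).1
        rw [List.length_tail, this]; rfl)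
      rw [Finset.sum_image hinj] at h2
      refine le_trans (le_of_eq (Finset.sum_congr rfl fun v hv => ?_)) h2
      have hv' := (Finset.mem_filter.1 hv).2
      cases v with
      | nil => simp at hv'
      | cons a v =>
        simp at hv'
        subst hv'
        simp
    have hsplit : V = V.filter (fun v => v.head? = some false) ∪ V.filter (fun v => v.head? = some true) := by
      ext v
      simp only [Finset.mem_union, Finset.mem_filter]
      constructor
      · intro hv
        cases v with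
        | nil => have := hV _ hv; simp at this
        | cons a v => cases a <;> simp [hv]
      · rintro (h | h) <;> exact h.1
    have hdis : Disjoint (V.filter (fun v => v.head? = some false))
        (V.filter (fun v => v.head? = some true)) := by
      rw [Finset.disjoint_left]
      intro v hv hv'
      have a1 := (Finset.mem_filter.1 hv).2
      have a2 := (Finset.mem_filter.1 hv').2
      rw [a1] at a2
      simp at a2
    rw [hsplit, Finset.sum_union hdis]
    have := h1 u
    linarith [key false, key true]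

theorem sep_sum (E : Finset (ℕ → Bool)) : ∃ N, ∑ b ∈ E, ρ (brn b N) ≤ ρ [] := by
  classical
  have hch : ∀ b b' : ℕ → Bool, ∃ n, b ≠ b' → b n ≠ b' n := by
    intro b b'
    by_cases h : b = b'
    · exact ⟨0, fun h' => absurd h h'⟩
    · obtain ⟨n, hn⟩ := Function.ne_iff.1 h
      exact ⟨n, fun _ => hn⟩
  choose g hg using hch
  refine ⟨(E ×ˢ E).sup (fun p => g p.1 p.2 + 1), ?_⟩
  set N := (E ×ˢ E).sup (fun p => g p.1 p.2 + 1) with hN
  have hinj : Set.InjOn (fun b => brn b N) E := by
    intro b hb b' hb' h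
    by_contra hne
    have h2 : g b b' + 1 ≤ N := by
      rw [hN]
      exact Finset.le_sup (f := fun p : (ℕ → Bool) × (ℕ → Bool) => g p.1 p.2 + 1)
        (Finset.mem_product.2 ⟨hb, hb'⟩ : (b, b') ∈ E ×ˢ E)
    exact hg b b' hne ((brn_eq_iff b b' N).1 h (g b b') h2)
  have h3 := level h0 h1 N [] (E.image fun b => brn b N) (by
    intro v hv
    obtain ⟨b, _, rfl⟩ := Finset.mem_image.1 hv
    exact brn_length b N)
  rw [Finset.sum_image hinj] at h3
  simpa using h3

theorem part2 (ε : ℝ) (hε : 0 < ε) : ∃ E : Finset (ℕ → Bool), ∀ E' : Finset (ℕ → Bool),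
    Disjoint E E' → ∃ N0, ∀ N ≥ N0, ∑ b ∈ E', ρ (brn b N) ≤ ε := by
  classical
  by_contra hcon
  push Not at hcon
  have h2 : ∀ E : Finset (ℕ → Bool), ∃ E' : Finset (ℕ → Bool), Disjoint E E' ∧
      ∀ N, ε ≤ ∑ b ∈ E', ρ (brn b N) := by
    intro E
    obtain ⟨E', hd, h3⟩ := hcon E
    refine ⟨E', hd, fun N => ?_⟩
    obtain ⟨N', hN', h4⟩ := h3 N
    refine h4.le.trans (Finset.sum_le_sum fun b _ => anti h0 h1 b hN')
  have h3 : ∀ K : ℕ, ∃ E : Finset (ℕ → Bool), ∀ N, (K : ℝ) * ε ≤ ∑ b ∈ E, ρ (brn b N) := by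
    intro K
    induction K with
    | zero => exact ⟨∅, by simp⟩
    | succ K ih =>
      obtain ⟨E, hE⟩ := ih
      obtain ⟨E', hd, hE'⟩ := h2 E
      refine ⟨E ∪ E', fun N => ?_⟩
      rw [Finset.sum_union hd]
      push_cast
      linarith [hE N, hE' N]
  obtain ⟨K, hK⟩ := exists_nat_gt (ρ [] / ε)
  obtain ⟨E, hE⟩ := h3 K
  obtain ⟨N, hN⟩ := sep_sum h0 h1 E
  rw [div_lt_iff₀ hε] at hK
  linarith [hE N]

/-- good nodes -/
def Good (ρ : Nd → ℝ) (δ : ℝ) (v : Nd) : Prop := ∃ (E : Finset (ℕ → Bool)) (N0 : ℕ), ∀ w : Nd,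
  v <+: w → N0 ≤ w.length → δ ≤ ρ w → ∃ b ∈ E, w = brn b w.length

omit h0 h1 in
theorem good_of_children {δ : ℝ} {v : Nd} (hf : Good ρ δ (v ++ [false]))
    (ht : Good ρ δ (v ++ [true])) : Good ρ δ v := by
  classical
  obtain ⟨E1, N1, h2⟩ := hf
  obtain ⟨E2, N2, h3⟩ := ht
  refine ⟨E1 ∪ E2, max (v.length + 1) (max N1 N2), fun w hw hN hδ => ?_⟩
  obtain ⟨l, rfl⟩ := hw
  cases l with
  | nil => simp at hN
  | cons c l =>
    have hN1 : N1 ≤ (v ++ c :: l).length := (le_trans (le_max_left _ _) (le_max_right _ _)).trans hN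
    have hN2 : N2 ≤ (v ++ c :: l).length := (le_trans (le_max_right _ _) (le_max_right _ _)).trans hN
    cases c with
    | false =>
      obtain ⟨b, hb, h⟩ := h2 (v ++ false :: l) ⟨l, by simp⟩ hN1 hδ
      exact ⟨b, Finset.mem_union_left _ hb, h⟩
    | true =>
      obtain ⟨b, hb, h⟩ := h3 (v ++ true :: l) ⟨l, by simp⟩ hN2 hδ
      exact ⟨b, Finset.mem_union_right _ hb, h⟩

/-- leaving a branch. -/
theorem leave {δ : ℝ} (b : ℕ → Bool) (L : ℕ) (hs : ∀ j ≥ L, ρ (brn b j ++ [!b j]) < δ) :
    Good ρ δ (brn b L) := by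
  refine ⟨{b}, 0, fun w hw _ hδ => ⟨b, by simp, ?_⟩⟩
  obtain ⟨l, rfl⟩ := hw
  induction l generalizing L with
  | nil => simp [brn_length]
  | cons c l ih =>
    have hc : c = b L := by
      by_contra hne
      have hc' : c = !b L := by
        cases c <;> cases hb : b L <;> simp_all
      have h2 := hs L le_rfl
      have h3 : ρ (brn b L ++ c :: l) ≤ ρ (brn b L ++ [!b L]) := by
        refine mono h0 h1 ⟨l, ?_⟩
        rw [hc']; simp
      linarith
    have e : brn b L ++ c :: l = brn b (L + 1) ++ l := by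
      rw [brn_succ, hc]; simp
    rw [e] at hδ ⊢
    exact ih (L + 1) (fun j hj => hs j (by omega)) (Nat.zero_le _) hδ

theorem drop {δ : ℝ} (hδ : 0 < δ) (b : ℕ → Bool) :
    ∃ L, ∀ j ≥ L, ρ (brn b j ++ [!b j]) < δ := by
  by_contra hcon
  push Not at hcon
  have h2 : ∀ K : ℕ, ∀ L, (K : ℝ) * δ ≤ ρ (brn b L) := by
    intro K
    induction K with
    | zero => intro L; simpa using h0 _
    | succ K ih =>
      intro L
      obtain ⟨j, hj, h3⟩ := hcon L
      have h4 := ih (j + 1)
      rw [brn_succ] at h4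
      have h5 := sib h0 h1 (brn b j) (b j)
      have h6 := anti h0 h1 b hj
      simp only at h6
      push_cast
      linarith
  obtain ⟨K, hK⟩ := exists_nat_gt (ρ (brn b 0) / δ)
  rw [div_lt_iff₀ hδ] at hK
  linarith [h2 K 0]

theorem part1 (δ : ℝ) (hδ : 0 < δ) : Good ρ δ [] := by
  classical
  by_contra hcon
  -- a branch of bad nodes
  have hch : ∀ v : Nd, ∃ c : Bool, ¬ Good ρ δ v → ¬ Good ρ δ (v ++ [c]) := by
    intro v
    by_cases h : Good ρ δ (v ++ [false])
    · exact ⟨true, fun h2 h3 => h2 (good_of_children h h3)⟩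
    · exact ⟨false, fun _ => h⟩
  choose g hg using hch
  let s : ℕ → Nd := fun n => Nat.rec [] (fun _ v => v ++ [g v]) n
  have hs : ∀ n, s (n + 1) = s n ++ [g (s n)] := fun n => rfl
  let b : ℕ → Bool := fun n => g (s n)
  have hb : ∀ n, s n = brn b n := by
    intro n
    induction n with
    | zero => simp [s, brn]
    | succ n ih =>
      rw [hs, brn_succ, ← ih]
  have hbad : ∀ n, ¬ Good ρ δ (s n) := by
    intro n
    induction n with
    | zero => exact hcon
    | succ n ih => rw [hs]; exact hg _ ih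
  obtain ⟨L, hL⟩ := drop h0 h1 hδ b
  exact hbad L (by rw [hb]; exact leave h0 h1 b L hL)

end

theorem main : S_TREE := by
  intro ρ h0 h1
  refine ⟨fun δ hδ => ?_, fun ε hε => part2 h0 h1 ε hε⟩
  obtain ⟨E, N0, h⟩ := part1 h0 h1 δ hδ
  exact ⟨E, N0, fun v hv hρ => h v (List.nil_prefix) hv hρ⟩

end Pool.Agent.R272.JT.TREE
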